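import Pool.Agent.H427.AS.Fin

/-!
# Partial summation
-/

set_option autoImplicit false
set_option linter.all false

namespace Pool.Agent.H427.AS

open Finset MeasureTheory

theorem norm_cpow_nat (t : ℝ) (ht : 0 < t) (w : ℂ) : ‖(t : ℂ) ^ w‖ = t ^ w.re :=
  Complex.norm_cpow_eq_rpow_re_of_pos ht w

theorem abel (a : ℕ → ℝ) (C δ : ℝ) (hC : 0 ≤ C) (hδ : 0 < δ) (y z : ℕ) (hy : 2 ≤ y) (hyz : y ≤ z)
    (hA : ∀ T : ℕ, y ≤ T → T ≤ z → |∑ k ∈ Finset.Icc 0 T, a k| ≤ C * (T : ℝ) ^ (1 / 2 + δ))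
    (s : ℂ) (hs : 3 / 2 + 2 * δ ≤ s.re) :
    ‖∑ k ∈ Finset.Ioc y z, (k : ℂ) ^ (1 - s) * (a k : ℂ)‖
      ≤ C * (2 + ‖1 - s‖ / δ) * (y : ℝ) ^ (3 / 2 + δ - s.re) := by
  have hy0 : (0 : ℝ) < y := by exact_mod_cast (by omega : 0 < y)
  have hz0 : (0 : ℝ) < z := by exact_mod_cast (by omega : 0 < z)
  have hyz' : (y : ℝ) ≤ z := by exact_mod_cast hyz
  have hder : ∀ t : ℝ, 0 < t → HasDerivAt (fun t : ℝ => (t : ℂ) ^ (1 - s)) ((1 - s) * (t : ℂ) ^ (-s)) t := by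
    intro t ht
    have h1 : HasDerivAt (fun z : ℂ => z ^ (1 - s)) ((1 - s) * (t : ℂ) ^ (1 - s - 1) * 1) (t : ℂ) :=
      (hasDerivAt_id (t : ℂ)).cpow_const (Complex.ofReal_mem_slitPlane.2 ht)
    have h2 := h1.comp_ofReal
    have h3 : 1 - s - 1 = -s := by ring
    rw [h3, mul_one] at h2
    exact h2
  have hdiff : ∀ t ∈ Set.Icc (y : ℝ) z, DifferentiableAt ℝ (fun t : ℝ => (t : ℂ) ^ (1 - s)) t :=
    fun t ht => (hder t (hy0.trans_le ht.1)).differentiableAt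
  have hint : IntegrableOn (deriv (fun t : ℝ => (t : ℂ) ^ (1 - s))) (Set.Icc (y : ℝ) z) := by
    have h1 : ContinuousOn (fun t : ℝ => (1 - s) * (t : ℂ) ^ (-s)) (Set.Icc (y : ℝ) z) := by
      intro t ht
      apply ContinuousAt.continuousWithinAt
      have h2 : (t : ℂ) ∈ Complex.slitPlane := Complex.ofReal_mem_slitPlane.2 (hy0.trans_le ht.1)
      exact continuousAt_const.mul ((Complex.continuous_ofReal.continuousAt).cpow continuousAt_const h2)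
    refine (h1.integrableOn_compact isCompact_Icc).congr_fun ?_ measurableSet_Icc
    intro t ht
    exact ((hder t (hy0.trans_le ht.1)).deriv).symm
  have hcast : ∑ k ∈ Finset.Ioc y z, (k : ℂ) ^ (1 - s) * (a k : ℂ)
      = ∑ k ∈ Finset.Ioc y z, (((k : ℝ) : ℂ)) ^ (1 - s) * (a k : ℂ) := by
    apply Finset.sum_congr rfl
    intro k _
    rw [Complex.ofReal_natCast]
  rw [hcast, sum_mul_eq_sub_sub_integral_mul' (c := fun k => (a k : ℂ)) (f := fun t : ℝ => (t : ℂ) ^ (1 - s)) hyz hdiff hint]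
  have hsum : ∀ T : ℕ, (∑ k ∈ Finset.Icc 0 T, (a k : ℂ)) = ((∑ k ∈ Finset.Icc 0 T, a k : ℝ) : ℂ) := by
    intro T; push_cast; rfl
  have hbd : ∀ T : ℕ, y ≤ T → T ≤ z → ‖(∑ k ∈ Finset.Icc 0 T, (a k : ℂ))‖ ≤ C * (T : ℝ) ^ (1 / 2 + δ) := by
    intro T h1 h2
    rw [hsum, Complex.norm_real, Real.norm_eq_abs]
    exact hA T h1 h2
  set η : ℝ := s.re - 3 / 2 - δ with hη
  have hη0 : δ ≤ η := by rw [hη]; linarith
  have hexp : (3 / 2 + δ - s.re) = -η := by rw [hη]; ring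
  rw [hexp]
  have ht1 : ∀ T : ℕ, y ≤ T → T ≤ z → ‖((T : ℝ) : ℂ) ^ (1 - s) * (∑ k ∈ Finset.Icc 0 T, (a k : ℂ))‖
      ≤ C * (y : ℝ) ^ (-η) := by
    intro T h1 h2
    have hT0 : (0 : ℝ) < T := hy0.trans_le (by exact_mod_cast h1)
    rw [norm_mul, norm_cpow_nat _ hT0]
    calc (T : ℝ) ^ (1 - s).re * ‖∑ k ∈ Finset.Icc 0 T, (a k : ℂ)‖
        ≤ (T : ℝ) ^ (1 - s).re * (C * (T : ℝ) ^ (1 / 2 + δ)) := by
          gcongr
          exact hbd T h1 h2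
      _ = C * (T : ℝ) ^ (-η) := by
          rw [show (T : ℝ) ^ (1 - s).re * (C * (T : ℝ) ^ (1 / 2 + δ))
            = C * ((T : ℝ) ^ (1 - s).re * (T : ℝ) ^ (1 / 2 + δ)) by ring, ← Real.rpow_add hT0]
          congr 2
          rw [hη]
          simp only [Complex.sub_re, Complex.one_re]
          ring
      _ ≤ C * (y : ℝ) ^ (-η) := by
          apply mul_le_mul_of_nonneg_left _ hC
          apply Real.rpow_le_rpow_of_nonpos hy0 (by exact_mod_cast h1) (by linarith)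
  have hI : ‖∫ t in Set.Ioc (y : ℝ) z, deriv (fun t : ℝ => (t : ℂ) ^ (1 - s)) t
      * ∑ k ∈ Finset.Icc 0 ⌊t⌋₊, (a k : ℂ)‖ ≤ C * (‖1 - s‖ / δ) * (y : ℝ) ^ (-η) := by
    have hg : IntegrableOn (fun t : ℝ => C * ‖1 - s‖ * t ^ (-η - 1)) (Set.Ioi (y : ℝ)) :=
      (integrableOn_Ioi_rpow_of_lt (by linarith) hy0).const_mul _
    have h1 : ‖∫ t in Set.Ioc (y : ℝ) z, deriv (fun t : ℝ => (t : ℂ) ^ (1 - s)) t
      * ∑ k ∈ Finset.Icc 0 ⌊t⌋₊, (a k : ℂ)‖ ≤ ∫ t in Set.Ioc (y : ℝ) z, C * ‖1 - s‖ * t ^ (-η - 1) := by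
      apply norm_integral_le_of_norm_le
      · exact hg.mono_set Set.Ioc_subset_Ioi_self
      · rw [ae_restrict_iff' measurableSet_Ioc]
        refine Filter.Eventually.of_forall ?_
        intro t ht
        have ht0 : 0 < t := hy0.trans ht.1
        rw [(hder t ht0).deriv, norm_mul, norm_mul, norm_cpow_nat _ ht0]
        have e1 : y ≤ ⌊t⌋₊ := Nat.le_floor ht.1.le
        have e2 : ⌊t⌋₊ ≤ z := by
          have := Nat.floor_le_floor ht.2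
          simpa using this
        have e3 : ((⌊t⌋₊ : ℕ) : ℝ) ≤ t := Nat.floor_le ht0.le
        calc ‖1 - s‖ * t ^ (-s).re * ‖∑ k ∈ Finset.Icc 0 ⌊t⌋₊, (a k : ℂ)‖
            ≤ ‖1 - s‖ * t ^ (-s).re * (C * t ^ (1 / 2 + δ)) := by
              gcongr
              refine (hbd _ e1 e2).trans ?_
              gcongr
          _ = C * ‖1 - s‖ * t ^ (-η - 1) := by
              rw [show ‖1 - s‖ * t ^ (-s).re * (C * t ^ (1 / 2 + δ))
                = C * ‖1 - s‖ * (t ^ (-s).re * t ^ (1 / 2 + δ)) by ring, ← Real.rpow_add ht0]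
              congr 2
              rw [hη]
              simp only [Complex.neg_re]
              ring
    have h2 : ∫ t in Set.Ioc (y : ℝ) z, C * ‖1 - s‖ * t ^ (-η - 1)
        ≤ ∫ t in Set.Ioi (y : ℝ), C * ‖1 - s‖ * t ^ (-η - 1) := by
      apply setIntegral_mono_set hg
      · rw [Filter.EventuallyLE, ae_restrict_iff' measurableSet_Ioi]
        refine Filter.Eventually.of_forall ?_
        intro t ht
        have ht0 : 0 < t := hy0.trans ht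
        simp only [Pi.zero_apply]
        positivity
      · exact (Set.Ioc_subset_Ioi_self).eventuallyLE
    have h3 : ∫ t in Set.Ioi (y : ℝ), C * ‖1 - s‖ * t ^ (-η - 1) = C * ‖1 - s‖ * ((y : ℝ) ^ (-η) / η) := by
      rw [integral_const_mul, integral_Ioi_rpow_of_lt (by linarith) hy0]
      congr 1
      rw [show -η - 1 + 1 = -η by ring, neg_div_neg_eq]
    refine h1.trans (h2.trans ?_)
    rw [h3]
    have hη1 : 0 < η := by linarith
    calc C * ‖1 - s‖ * ((y : ℝ) ^ (-η) / η) ≤ C * ‖1 - s‖ * ((y : ℝ) ^ (-η) / δ) := by gcongr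
      _ = _ := by ring
  have hz1 := ht1 z hyz le_rfl
  have hy1 := ht1 y le_rfl hyz
  calc ‖((z : ℝ) : ℂ) ^ (1 - s) * (∑ k ∈ Finset.Icc 0 z, (a k : ℂ)) -
        ((y : ℝ) : ℂ) ^ (1 - s) * (∑ k ∈ Finset.Icc 0 y, (a k : ℂ)) -
        ∫ t in Set.Ioc (y : ℝ) z, deriv (fun t : ℝ => (t : ℂ) ^ (1 - s)) t
      * ∑ k ∈ Finset.Icc 0 ⌊t⌋₊, (a k : ℂ)‖
      ≤ ‖((z : ℝ) : ℂ) ^ (1 - s) * (∑ k ∈ Finset.Icc 0 z, (a k : ℂ))‖ +
        ‖((y : ℝ) : ℂ) ^ (1 - s) * (∑ k ∈ Finset.Icc 0 y, (a k : ℂ))‖ +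
        ‖∫ t in Set.Ioc (y : ℝ) z, deriv (fun t : ℝ => (t : ℂ) ^ (1 - s)) t
      * ∑ k ∈ Finset.Icc 0 ⌊t⌋₊, (a k : ℂ)‖ := by
        refine (norm_sub_le _ _).trans ?_
        gcongr
        exact norm_sub_le _ _
    _ ≤ C * (y : ℝ) ^ (-η) + C * (y : ℝ) ^ (-η) + C * (‖1 - s‖ / δ) * (y : ℝ) ^ (-η) := by gcongr
    _ = _ := by ring

end Pool.Agent.H427.AS
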