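import Mathlib

/-!
# Means of periodic functions over boxes
-/

set_option autoImplicit false
set_option linter.all false

namespace Pool.Agent.H427.AS

open Finset

/-- the number of integers in `[-H, H]` in a residue class -/
theorem count_one (H : ℕ) (q : ℕ) (hq : 0 < q) (v : ℤ) :
    |(((Finset.Icc (-(H : ℤ)) H).filter (fun x => x ≡ v [ZMOD q])).card : ℝ)
      - (2 * H + 1 : ℕ) / q| ≤ 1 := by
  have h0 : Finset.Icc (-(H : ℤ)) H = Finset.Ioc (-(H : ℤ) - 1) H := by
    ext x; simp only [Finset.mem_Icc, Finset.mem_Ioc]; omega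
  have hq' : (0 : ℤ) < q := by exact_mod_cast hq
  have h1 := Int.Ioc_filter_modEq_card (-(H : ℤ) - 1) H hq' v
  rw [← h0] at h1
  have hqr : (0 : ℚ) < q := by exact_mod_cast hq
  set A : ℚ := (((H : ℤ) : ℚ) - (v : ℚ)) / ((q : ℤ) : ℚ) with hA
  set B : ℚ := (((-(H : ℤ) - 1 : ℤ) : ℚ) - (v : ℚ)) / ((q : ℤ) : ℚ) with hB
  have h2 : A - B = (2 * H + 1 : ℕ) / (q : ℚ) := by
    rw [hA, hB, ← sub_div]
    push_cast
    congr 1
    ring
  have h3 : (0 : ℚ) ≤ A - B := by rw [h2]; positivity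
  have h4 : ⌊B⌋ ≤ ⌊A⌋ := Int.floor_le_floor (by linarith)
  have h5 : (((Finset.Icc (-(H : ℤ)) H).filter (fun x => x ≡ v [ZMOD q])).card : ℤ) = ⌊A⌋ - ⌊B⌋ := by
    rw [h1]; exact max_eq_left (by linarith)
  have h6 : |(((Finset.Icc (-(H : ℤ)) H).filter (fun x => x ≡ v [ZMOD q])).card : ℚ)
      - (2 * H + 1 : ℕ) / q| ≤ 1 := by
    have h7 : (((Finset.Icc (-(H : ℤ)) H).filter (fun x => x ≡ v [ZMOD q])).card : ℚ)
      = (⌊A⌋ : ℚ) - ⌊B⌋ := by exact_mod_cast congrArg (Int.cast : ℤ → ℚ) h5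
    rw [h7, ← h2, abs_le]
    have a1 := Int.floor_le A
    have a2 := Int.lt_floor_add_one A
    have a3 := Int.floor_le B
    have a4 := Int.lt_floor_add_one B
    constructor <;> linarith
  have h8 := (Rat.cast_le (K := ℝ)).2 h6
  push_cast at h8 ⊢
  exact h8

theorem prod_near {ι : Type} (s : Finset ι) (a : ι → ℝ) (X : ℝ) (hX : 1 ≤ X)
    (ha : ∀ i, |a i - X| ≤ 1) :
    |∏ i ∈ s, a i - X ^ s.card| ≤ (2 ^ s.card - 1) * (X ^ s.card / X) := by
  classical
  induction s using Finset.induction_on with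
  | empty => simp
  | insert i s hi ih =>
    rw [Finset.prod_insert hi, Finset.card_insert_of_notMem hi]
    have h1 : a i * ∏ x ∈ s, a x - X ^ (s.card + 1)
        = a i * (∏ x ∈ s, a x - X ^ s.card) + X ^ s.card * (a i - X) := by ring
    rw [h1]
    have h2 : |a i| ≤ 2 * X := by
      have := abs_le.1 (ha i)
      rw [abs_le]; constructor <;> linarith
    have hXp : 0 < X := by linarith
    have h3 : (0 : ℝ) ≤ (2 ^ s.card - 1) * (X ^ s.card / X) := by
      apply mul_nonneg _ (by positivity)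
      have : (1 : ℝ) ≤ 2 ^ s.card := one_le_pow₀ (by norm_num)
      linarith
    calc |a i * (∏ x ∈ s, a x - X ^ s.card) + X ^ s.card * (a i - X)|
        ≤ |a i| * |∏ x ∈ s, a x - X ^ s.card| + X ^ s.card * |a i - X| := by
          refine (abs_add_le _ _).trans ?_
          rw [abs_mul, abs_mul, abs_of_pos (pow_pos hXp s.card)]
      _ ≤ (2 * X) * ((2 ^ s.card - 1) * (X ^ s.card / X)) + X ^ s.card * 1 := by
          gcongr
          exact ha i
      _ = (2 ^ (s.card + 1) - 1) * (X ^ (s.card + 1) / X) := by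
          field_simp
          ring

variable {ι : Type} [Fintype ι] [DecidableEq ι]

/-- the box -/
noncomputable def Box (ι : Type) [Fintype ι] [DecidableEq ι] (H : ℕ) : Finset (ι → ℤ) :=
  Fintype.piFinset (fun _ => Finset.Icc (-(H : ℤ)) H)

theorem card_box (H : ℕ) : ((Box ι H).card : ℝ) = ((2 * H + 1 : ℕ) : ℝ) ^ Fintype.card ι := by
  unfold Box
  rw [Fintype.card_piFinset]
  simp only [Int.card_Icc, Finset.prod_const, Finset.card_univ]
  push_cast
  congr 1
  have : ((H : ℤ) + 1 - -(H : ℤ)).toNat = 2 * H + 1 := by omega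
  rw [this]; push_cast; ring

theorem count_box (H q : ℕ) (hq : 0 < q) (hqH : q ≤ 2 * H + 1) (v : ι → ℤ) :
    |(((Box ι H).filter (fun c => ∀ i, c i ≡ v i [ZMOD q])).card : ℝ)
      - (((2 * H + 1 : ℕ) : ℝ) / q) ^ Fintype.card ι|
      ≤ 2 ^ Fintype.card ι * ((((2 * H + 1 : ℕ) : ℝ) / q) ^ Fintype.card ι
        / (((2 * H + 1 : ℕ) : ℝ) / q)) := by
  have h1 : (Box ι H).filter (fun c => ∀ i, c i ≡ v i [ZMOD q])
      = Fintype.piFinset (fun i => (Finset.Icc (-(H : ℤ)) H).filter (fun x => x ≡ v i [ZMOD q])) := by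
    ext c
    simp only [Box, Finset.mem_filter, Fintype.mem_piFinset]
    constructor
    · rintro ⟨h, h'⟩ i; exact ⟨h i, h' i⟩
    · intro h; exact ⟨fun i => (h i).1, fun i => (h i).2⟩
  have hqr : (0 : ℝ) < q := by exact_mod_cast hq
  have hX : (1 : ℝ) ≤ ((2 * H + 1 : ℕ) : ℝ) / q := by
    rw [le_div_iff₀ hqr, one_mul]; exact_mod_cast hqH
  rw [h1, Fintype.card_piFinset]
  push_cast
  have h2 := prod_near (Finset.univ : Finset ι)
    (fun i => (((Finset.Icc (-(H : ℤ)) H).filter (fun x => x ≡ v i [ZMOD q])).card : ℝ))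
    (((2 * H + 1 : ℕ) : ℝ) / q) hX (fun i => count_one H q hq (v i))
  rw [Finset.card_univ] at h2
  push_cast at h2
  refine h2.trans ?_
  apply mul_le_mul_of_nonneg_right _ (by positivity)
  linarith

end Pool.Agent.H427.AS
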