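import Pool.Agent.H427.AS.Msq

/-!
# The mean square over the box for the primes up to a power `4/5` of the height
-/

set_option autoImplicit false
set_option linter.all false

namespace Pool.Agent.H427.AS

open Finset MvPolynomial

variable {r d : ℕ}

theorem box_square (N : ℕ) (hN : 0 < N) (Ps : Finset ℕ) (hP : ∀ p ∈ Ps, p.Prime) (hPN : ∀ p ∈ Ps, p ≤ 4 * N)
    (x : ℕ → ℝ) (Q : Fin r → MvPolynomial (Fin 4) ℤ) (hd : d ≠ 0) :
    ∑ c ∈ Box (Fin r × Sym (Fin 4) d) N, (∑ p ∈ Ps, x p * ph Q d p (red p c)) ^ 2 ≤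
      (32 * (N : ℝ)) ^ Fintype.card (Fin r × Sym (Fin 4) d) * (∑ p ∈ Ps, x p ^ 2
        + r / (N : ℝ) ^ 4 * (∑ p ∈ Ps, (p : ℝ) ^ 2 * |x p|) ^ 2) := by
  classical
  set n := Fintype.card (Fin r × Sym (Fin 4) d) with hn
  set P : ℕ := ∏ p ∈ Ps, p with hPdef
  have hP0 : 0 < P := Finset.prod_pos (fun p hp => (hP p hp).pos)
  set M : ℕ := 8 * N * P with hM
  have hM0 : M ≠ 0 := by rw [hM]; positivity
  haveI : NeZero M := ⟨hM0⟩
  have hN0 : (0 : ℝ) < N := by exact_mod_cast hN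
  have hPr : (0 : ℝ) < P := by exact_mod_cast hP0
  have hMr : (M : ℝ) = 8 * N * P := by rw [hM]; push_cast; ring
  have hdvd : ∀ p ∈ Ps, p ∣ M := fun p hp => (Finset.dvd_prod_of_mem _ hp).trans (Dvd.intro_left _ hM.symm)
  have hdvd2 : ∀ p ∈ Ps, ∀ s ∈ Ps, p ≠ s → p * s ∣ M := by
    intro p hp s hs hps
    exact Nat.Coprime.mul_dvd_of_dvd_of_dvd ((Nat.coprime_primes (hP p hp) (hP s hs)).2 hps)
      (hdvd p hp) (hdvd s hs)
  -- the sums on the group
  set F : ℕ → (Fin r × Sym (Fin 4) d → ZMod M) → ℝ := fun p C => ph Q d p (fun i => ((C i).cast : ZMod p)) with hF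
  set ψ : (Fin r × Sym (Fin 4) d → ℤ) → (Fin r × Sym (Fin 4) d → ZMod M) := fun c i => (c i : ZMod M) with hψ
  have hred : ∀ p ∈ Ps, ∀ c, ph Q d p (red p c) = F p (ψ c) := by
    intro p hp c
    rw [hF, hψ]
    simp only
    congr 1
    funext i
    unfold red
    rw [ZMod.cast_intCast (hdvd p hp)]
  have hinj : Set.InjOn ψ (Box (Fin r × Sym (Fin 4) d) N : Set (Fin r × Sym (Fin 4) d → ℤ)) := by
    intro c hc e he hce
    funext i
    have h1 := congrFun hce i
    simp only [hψ] at h1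
    rw [ZMod.intCast_eq_intCast_iff_dvd_sub] at h1
    have h2 := Finset.mem_Icc.1 ((Fintype.mem_piFinset.1 hc) i)
    have h3 := Finset.mem_Icc.1 ((Fintype.mem_piFinset.1 he) i)
    have h4 : (M : ℤ) ≥ 8 * N := by
      rw [hM]
      push_cast
      have : (1 : ℤ) ≤ P := by exact_mod_cast hP0
      nlinarith [(by exact_mod_cast hN : (0 : ℤ) < N)]
    have h5 : e i - c i = 0 := by
      apply Int.eq_zero_of_abs_lt_dvd h1
      rw [abs_lt]
      have : (0 : ℤ) < N := by exact_mod_cast hN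
      constructor <;> linarith [h2.1, h2.2, h3.1, h3.2]
    linarith
  have hlow : ∀ c ∈ Box (Fin r × Sym (Fin 4) d) N, ((P : ℝ) ^ 2 / 4) ^ n ≤ Om M P (ψ c) := by
    intro c hc
    unfold Om
    rw [hn, ← Finset.card_univ, ← Finset.prod_const]
    apply Finset.prod_le_prod (fun _ _ => by positivity)
    intro i _
    have h2 := Finset.mem_Icc.1 ((Fintype.mem_piFinset.1 hc) i)
    exact KK_lower M P N hN hP0 hM (c i) (abs_le.2 ⟨h2.1, h2.2⟩)
  set G : (Fin r × Sym (Fin 4) d → ZMod M) → ℝ := fun C => Om M P C * (∑ p ∈ Ps, x p * F p C) ^ 2 with hG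
  have hG0 : ∀ C, 0 ≤ G C := fun C => mul_nonneg (Om_nonneg M P C) (sq_nonneg _)
  have h1 : ((P : ℝ) ^ 2 / 4) ^ n * ∑ c ∈ Box (Fin r × Sym (Fin 4) d) N, (∑ p ∈ Ps, x p * ph Q d p (red p c)) ^ 2
      ≤ ∑ C, G C := by
    calc ((P : ℝ) ^ 2 / 4) ^ n * ∑ c ∈ Box (Fin r × Sym (Fin 4) d) N, (∑ p ∈ Ps, x p * ph Q d p (red p c)) ^ 2
        ≤ ∑ c ∈ Box (Fin r × Sym (Fin 4) d) N, G (ψ c) := by
          rw [Finset.mul_sum]
          apply Finset.sum_le_sum
          intro c hc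
          rw [hG]
          simp only
          have e1 : ∑ p ∈ Ps, x p * ph Q d p (red p c) = ∑ p ∈ Ps, x p * F p (ψ c) :=
            Finset.sum_congr rfl (fun p hp => by rw [hred p hp c])
          rw [e1]
          exact mul_le_mul_of_nonneg_right (hlow c hc) (sq_nonneg _)
      _ = ∑ C ∈ (Box (Fin r × Sym (Fin 4) d) N).image ψ, G C := (Finset.sum_image hinj).symm
      _ ≤ ∑ C, G C := Finset.sum_le_sum_of_subset_of_nonneg (Finset.subset_univ _) (fun C _ _ => hG0 C)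
  have h2 : ∑ C, G C = ∑ p ∈ Ps, ∑ s ∈ Ps, x p * x s * ∑ C, Om M P C * (F p C * F s C) := by
    have e0 : ∀ C ∈ (Finset.univ : Finset (Fin r × Sym (Fin 4) d → ZMod M)), G C
        = ∑ p ∈ Ps, ∑ s ∈ Ps, x p * x s * (Om M P C * (F p C * F s C)) := by
      intro C _
      rw [hG]
      simp only
      rw [sq, Finset.sum_mul_sum, Finset.mul_sum]
      apply Finset.sum_congr rfl
      intro p _
      rw [Finset.mul_sum]
      apply Finset.sum_congr rfl
      intro s _
      ring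
    rw [Finset.sum_congr rfl e0, Finset.sum_comm]
    apply Finset.sum_congr rfl
    intro p _
    rw [Finset.sum_comm]
    apply Finset.sum_congr rfl
    intro s _
    rw [Finset.mul_sum]
  have h3 : ∀ p ∈ Ps, ∀ s ∈ Ps, x p * x s * ∑ C, Om M P C * (F p C * F s C)
      ≤ ((M : ℝ) * P) ^ n * ((if s = p then x p ^ 2 else 0)
        + r / (N : ℝ) ^ 4 * (((p : ℝ) ^ 2 * |x p|) * ((s : ℝ) ^ 2 * |x s|))) := by
    intro p hp s hs
    haveI : Fact p.Prime := ⟨hP p hp⟩
    haveI : Fact s.Prime := ⟨hP s hs⟩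
    have ep : ∀ C, F p C = phi (gg Q d p) (fun i => ((C i).cast : ZMod p)) := by
      intro C; simp only [hF, ph, hP p hp, dif_pos]
    have es : ∀ C, F s C = phi (gg Q d s) (fun i => ((C i).cast : ZMod s)) := by
      intro C; simp only [hF, ph, hP s hs, dif_pos]
    simp only [ep, es]
    by_cases h : s = p
    · subst h
      rw [if_pos rfl]
      have h4 := same_le M P N s (hdvd s hs) hM hP0 ((hPN s hs).trans (by omega)) hN Q hd
      have h5 := (abs_le.1 h4).2
      calc x s * x s * ∑ C : Fin r × Sym (Fin 4) d → ZMod M, Om M P C * (phi (gg Q d s) (fun i => ((C i).cast : ZMod s))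
          * phi (gg Q d s) (fun i => ((C i).cast : ZMod s)))
          ≤ x s * x s * ((M : ℝ) * P) ^ n := mul_le_mul_of_nonneg_left h5 (mul_self_nonneg _)
        _ = ((M : ℝ) * P) ^ n * (x s ^ 2 + 0) := by ring
        _ ≤ _ := by
            gcongr
            positivity
    · rw [if_neg h, zero_add]
      have h4 := diff_le M P N p s (fun e => h e.symm) (hdvd2 p hp s hs (fun e => h e.symm)) hM hN (hPN s hs) Q hd
      calc x p * x s * ∑ C : Fin r × Sym (Fin 4) d → ZMod M, Om M P C * (phi (gg Q d p) (fun i => ((C i).cast : ZMod p))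
          * phi (gg Q d s) (fun i => ((C i).cast : ZMod s)))
          ≤ |x p * x s * ∑ C : Fin r × Sym (Fin 4) d → ZMod M, Om M P C * (phi (gg Q d p) (fun i => ((C i).cast : ZMod p))
          * phi (gg Q d s) (fun i => ((C i).cast : ZMod s)))| := le_abs_self _
        _ = |x p| * |x s| * |∑ C : Fin r × Sym (Fin 4) d → ZMod M, Om M P C * (phi (gg Q d p) (fun i => ((C i).cast : ZMod p))
          * phi (gg Q d s) (fun i => ((C i).cast : ZMod s)))| := by rw [abs_mul, abs_mul]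
        _ ≤ |x p| * |x s| * (((M : ℝ) * P) ^ n * (r * ((p : ℝ) * s) ^ 2 / (N : ℝ) ^ 4)) := by gcongr
        _ = _ := by ring
  have h4 : ∑ C, G C ≤ ((M : ℝ) * P) ^ n * (∑ p ∈ Ps, x p ^ 2
        + r / (N : ℝ) ^ 4 * (∑ p ∈ Ps, (p : ℝ) ^ 2 * |x p|) ^ 2) := by
    rw [h2]
    refine (Finset.sum_le_sum fun p hp => Finset.sum_le_sum fun s hs => h3 p hp s hs).trans (le_of_eq ?_)
    simp only [← Finset.mul_sum, Finset.sum_add_distrib]
    congr 2
    · apply Finset.sum_congr rfl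
      intro p hp
      rw [Finset.sum_ite_eq', if_pos hp]
    · rw [sq, Finset.sum_mul_sum]
      simp only [Finset.mul_sum]
  have h5 : ((M : ℝ) * P) ^ n = ((P : ℝ) ^ 2 / 4) ^ n * (32 * (N : ℝ)) ^ n := by
    rw [← mul_pow, hMr]
    congr 1
    ring
  have h6 := h1.trans h4
  rw [h5, mul_assoc] at h6
  exact le_of_mul_le_mul_left h6 (by positivity)

end Pool.Agent.H427.AS
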