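import Mathlib

/-!
# A kernel with a short Fourier transform on the integers modulo `M = 8 N P`
-/

set_option autoImplicit false
set_option linter.all false

namespace Pool.Agent.H427.AS

open Finset

variable (M P : ℕ) [NeZero M]

/-- the kernel -/
noncomputable def KK (c : ZMod M) : ℝ := ‖∑ h ∈ Finset.range P, ZMod.stdAddChar ((h : ZMod M) * c)‖ ^ 2

theorem norm_std (x : ZMod M) : ‖ZMod.stdAddChar x‖ = 1 := by
  simp

theorem KK_nonneg (c : ZMod M) : 0 ≤ KK M P c := sq_nonneg _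

/-- the number of the differences -/
noncomputable def nu (b : ZMod M) : ℕ :=
  ((Finset.range P ×ˢ Finset.range P).filter (fun h => ((h.1 : ZMod M) - (h.2 : ZMod M) + b = 0))).card

theorem KK_sum (b : ZMod M) :
    ∑ c : ZMod M, (KK M P c : ℂ) * ZMod.stdAddChar (c * b) = M * nu M P b := by
  have h1 : ∀ c : ZMod M, (KK M P c : ℂ) * ZMod.stdAddChar (c * b)
      = ∑ h ∈ Finset.range P ×ˢ Finset.range P,
        ZMod.stdAddChar (c * ((h.1 : ZMod M) - (h.2 : ZMod M) + b)) := by
    intro c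
    have h2 : (KK M P c : ℂ) = (∑ h ∈ Finset.range P, ZMod.stdAddChar ((h : ZMod M) * c))
        * (∑ h ∈ Finset.range P, ZMod.stdAddChar (-((h : ZMod M) * c))) := by
      have h3 : (∑ h ∈ Finset.range P, ZMod.stdAddChar (-((h : ZMod M) * c)))
          = (starRingEnd ℂ) (∑ h ∈ Finset.range P, ZMod.stdAddChar ((h : ZMod M) * c)) := by
        rw [map_sum]
        apply Finset.sum_congr rfl
        intro h _
        rw [AddChar.map_neg_eq_conj]
      rw [h3, Complex.mul_conj, Complex.normSq_eq_norm_sq]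
      unfold KK
      push_cast
      rfl
    rw [h2, Finset.sum_mul_sum, Finset.sum_mul, Finset.sum_product]
    apply Finset.sum_congr rfl
    intro h _
    rw [Finset.sum_mul]
    apply Finset.sum_congr rfl
    intro h' _
    rw [← AddChar.map_add_eq_mul, ← AddChar.map_add_eq_mul]
    congr 1
    ring
  rw [Finset.sum_congr rfl (fun c _ => h1 c), Finset.sum_comm]
  have h4 : ∀ h ∈ Finset.range P ×ˢ Finset.range P,
      ∑ c : ZMod M, ZMod.stdAddChar (c * ((h.1 : ZMod M) - (h.2 : ZMod M) + b))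
      = if ((h.1 : ZMod M) - (h.2 : ZMod M) + b = 0) then (M : ℂ) else 0 := by
    intro h _
    rw [AddChar.sum_mulShift _ (ZMod.isPrimitive_stdAddChar M)]
    simp [ZMod.card]
  rw [Finset.sum_congr rfl h4, ← Finset.sum_filter, Finset.sum_const, nsmul_eq_mul]
  unfold nu
  ring

theorem nu_le (hPM : P ≤ M) (b : ZMod M) : nu M P b ≤ P := by
  unfold nu
  have h1 : ((Finset.range P ×ˢ Finset.range P).filter
      (fun h => ((h.1 : ZMod M) - (h.2 : ZMod M) + b = 0))).card ≤ (Finset.range P).card := by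
    apply Finset.card_le_card_of_injOn (fun h => h.1)
    · intro h hh
      exact (Finset.mem_product.1 (Finset.mem_filter.1 hh).1).1
    · intro h hh k hk hhk
      have a1 := (Finset.mem_filter.1 hh)
      have a2 := (Finset.mem_filter.1 hk)
      have a3 : (h.2 : ZMod M) = (k.2 : ZMod M) := by
        have b1 := a1.2
        have b2 := a2.2
        have hhk' : h.1 = k.1 := hhk
        rw [hhk'] at b1
        linear_combination b2 - b1
      have a4 : h.2 = k.2 := by
        have c1 := Finset.mem_range.1 (Finset.mem_product.1 a1.1).2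
        have c2 := Finset.mem_range.1 (Finset.mem_product.1 a2.1).2
        have a5 := congrArg ZMod.val a3
        rw [ZMod.val_natCast, ZMod.val_natCast, Nat.mod_eq_of_lt (by omega), Nat.mod_eq_of_lt (by omega)] at a5
        exact a5
      exact Prod.ext hhk a4
  rwa [Finset.card_range] at h1

theorem nu_pos (b : ZMod M) (h : nu M P b ≠ 0) : ∃ k : ℤ, |k| < P ∧ ((k : ZMod M) = b) := by
  unfold nu at h
  rw [Finset.card_ne_zero] at h
  obtain ⟨⟨x, y⟩, hxy⟩ := h
  rw [Finset.mem_filter, Finset.mem_product, Finset.mem_range, Finset.mem_range] at hxy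
  refine ⟨(y : ℤ) - x, ?_, ?_⟩
  · rw [abs_lt]
    simp only at hxy
    omega
  · push_cast
    linear_combination (-1 : ZMod M) * hxy.2

/-- the lower bound near zero -/
theorem KK_lower (N : ℕ) (hN : 0 < N) (hP : 0 < P) (hM : M = 8 * N * P) (c : ℤ) (hc : |c| ≤ N) :
    (P : ℝ) ^ 2 / 4 ≤ KK M P (c : ZMod M) := by
  unfold KK
  have h1 : ∀ h ∈ Finset.range P, (1 / 2 : ℝ) ≤ (ZMod.stdAddChar (((h : ℕ) : ZMod M) * (c : ZMod M))).re := by
    intro h hh
    have hh' := Finset.mem_range.1 hh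
    have h2 : ((h : ℕ) : ZMod M) * (c : ZMod M) = (((h : ℤ) * c : ℤ) : ZMod M) := by push_cast; ring
    rw [h2, ZMod.stdAddChar_coe]
    have h3 : 2 * (Real.pi : ℂ) * Complex.I * (((h : ℤ) * c : ℤ) : ℂ) / (M : ℂ)
        = ((2 * Real.pi * (((h : ℤ) * c : ℤ) : ℝ) / M : ℝ) : ℂ) * Complex.I := by
      push_cast; ring
    rw [h3, Complex.exp_ofReal_mul_I_re]
    have hMr : (0 : ℝ) < M := by exact_mod_cast Nat.pos_of_ne_zero (NeZero.ne M)
    have h4 : |2 * Real.pi * (((h : ℤ) * c : ℤ) : ℝ) / M| ≤ Real.pi / 4 := by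
      rw [abs_div, abs_of_pos hMr, div_le_iff₀ hMr, abs_mul, abs_of_pos (by positivity : 0 < 2 * Real.pi)]
      have h5 : |(((h : ℤ) * c : ℤ) : ℝ)| ≤ P * N := by
        push_cast
        rw [abs_mul]
        have a1 : |((h : ℕ) : ℝ)| ≤ P := by
          rw [abs_of_nonneg (by positivity)]; exact_mod_cast hh'.le
        have a2 : |(c : ℝ)| ≤ N := by exact_mod_cast hc
        gcongr
      rw [hM]
      calc 2 * Real.pi * |(((h : ℤ) * c : ℤ) : ℝ)| ≤ 2 * Real.pi * (P * N) := by gcongr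
        _ = Real.pi / 4 * ((8 * N * P : ℕ) : ℝ) := by push_cast; ring
    have h5 : Real.cos (Real.pi / 4) ≤ Real.cos (2 * Real.pi * (((h : ℤ) * c : ℤ) : ℝ) / M) := by
      rw [← Real.cos_abs (2 * Real.pi * (((h : ℤ) * c : ℤ) : ℝ) / M)]
      apply Real.cos_le_cos_of_nonneg_of_le_pi (abs_nonneg _) (by linarith [Real.pi_pos]) h4
    refine le_trans ?_ h5
    rw [Real.cos_pi_div_four]
    have : (1 : ℝ) ≤ Real.sqrt 2 := by
      rw [show (1 : ℝ) = Real.sqrt 1 by simp]
      exact Real.sqrt_le_sqrt (by norm_num)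
    linarith
  have h2 : (P : ℝ) / 2 ≤ ‖∑ h ∈ Finset.range P, ZMod.stdAddChar (((h : ℕ) : ZMod M) * (c : ZMod M))‖ := by
    refine le_trans ?_ (Complex.re_le_norm _)
    rw [Complex.re_sum]
    calc (P : ℝ) / 2 = ∑ h ∈ Finset.range P, (1 / 2 : ℝ) := by simp; ring
      _ ≤ _ := Finset.sum_le_sum h1
  calc (P : ℝ) ^ 2 / 4 = ((P : ℝ) / 2) ^ 2 := by ring
    _ ≤ _ := by gcongr

end Pool.Agent.H427.AS
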