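import Pool.Agent.H427.AS.Main
import Pool.Agent.H427.AS.Ker

/-!
# The counts for the pairs of primes
-/

set_option autoImplicit false
set_option linter.all false

namespace Pool.Agent.H427.AS

open Finset MvPolynomial

section lift

variable (M P : ℕ) [NeZero M]

/-- the lift -/
def lam (p : ℕ) (x : ZMod p) : ZMod M := ((M / p : ℕ) : ZMod M) * ((x.val : ℕ) : ZMod M)

theorem std_cast (p : ℕ) [NeZero p] (hp : p ∣ M) (c : ZMod M) (x : ZMod p) :
    ZMod.stdAddChar ((c.cast : ZMod p) * x) = ZMod.stdAddChar (c * lam M p x) := by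
  have h1 : (c.cast : ZMod p) * x = (((c.val : ℤ) * (x.val : ℤ) : ℤ) : ZMod p) := by
    push_cast
    rw [ZMod.natCast_zmod_val, ZMod.natCast_val]
  obtain ⟨m, hm⟩ := hp
  have hpp : 0 < p := Nat.pos_of_ne_zero (NeZero.ne p)
  have hMp : M / p = m := by rw [hm]; exact Nat.mul_div_cancel_left m hpp
  have h2 : c * lam M p x = (((c.val : ℤ) * ((m : ℤ) * (x.val : ℤ)) : ℤ) : ZMod M) := by
    unfold lam
    rw [hMp]
    push_cast
    rw [ZMod.natCast_zmod_val]
  rw [h1, h2, ZMod.stdAddChar_coe, ZMod.stdAddChar_coe]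
  congr 1
  have hp0 : (p : ℂ) ≠ 0 := by exact_mod_cast NeZero.ne p
  have hM0 : (M : ℂ) ≠ 0 := by exact_mod_cast NeZero.ne M
  have h3 : (M : ℂ) = p * m := by exact_mod_cast hm
  have hm0 : (m : ℂ) ≠ 0 := by
    intro h
    rw [h, mul_zero] at h3
    exact hM0 h3
  push_cast
  rw [h3]
  field_simp

theorem cond_same (N p : ℕ) [NeZero p] (hp : p ∣ M) (hM : M = 8 * N * P) (hP : 0 < P) (hpN : p ≤ 8 * N)
    (x y : ZMod p) (h : nu M P (lam M p x + lam M p y) ≠ 0) : x + y = 0 := by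
  obtain ⟨k, hk, hkb⟩ := nu_pos M P _ h
  obtain ⟨m, hm⟩ := hp
  have hp0 : 0 < p := Nat.pos_of_ne_zero (NeZero.ne p)
  have hm0 : 0 < m := by
    rcases Nat.eq_zero_or_pos m with h | h
    · exfalso; rw [h, mul_zero] at hm; exact NeZero.ne M hm
    · exact h
  have hMp : M / p = m := by rw [hm]; exact Nat.mul_div_cancel_left m hp0
  have h1 : ((k : ℤ) : ZMod M) = (((m : ℤ) * ((x.val : ℤ) + (y.val : ℤ)) : ℤ) : ZMod M) := by
    rw [hkb]
    unfold lam
    rw [hMp]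
    push_cast
    ring
  rw [ZMod.intCast_eq_intCast_iff_dvd_sub] at h1
  have hMz : (M : ℤ) = p * m := by exact_mod_cast hm
  have h2 : (m : ℤ) ∣ k := by
    have h3 : (m : ℤ) ∣ (m : ℤ) * ((x.val : ℤ) + (y.val : ℤ)) - k :=
      (Dvd.intro_left (p : ℤ) hMz.symm).trans h1
    have := dvd_sub (dvd_mul_right (m : ℤ) ((x.val : ℤ) + (y.val : ℤ))) h3
    simpa using this
  have hPm : P ≤ m := by
    have e1 : p * m = 8 * N * P := by rw [← hm]; exact hM
    by_contra hcon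
    push Not at hcon
    have : p * m < 8 * N * P := by
      calc p * m < p * P := Nat.mul_lt_mul_of_pos_left hcon hp0
        _ ≤ 8 * N * P := Nat.mul_le_mul_right P hpN
    omega
  have h4 : k = 0 := by
    apply Int.eq_zero_of_abs_lt_dvd h2
    have : (P : ℤ) ≤ m := by exact_mod_cast hPm
    omega
  rw [h4, sub_zero] at h1
  have h5 : (p : ℤ) ∣ (x.val : ℤ) + (y.val : ℤ) := by
    rw [hMz, mul_comm (p : ℤ)] at h1
    exact Int.dvd_of_mul_dvd_mul_left (by exact_mod_cast hm0.ne') h1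
  have h6 : (((x.val : ℤ) + (y.val : ℤ) : ℤ) : ZMod p) = 0 := (ZMod.intCast_zmod_eq_zero_iff_dvd _ p).2 h5
  push_cast at h6
  rw [ZMod.natCast_zmod_val, ZMod.natCast_zmod_val] at h6
  exact h6

theorem cond_diff (N p r : ℕ) [NeZero p] [NeZero r] (hp : p * r ∣ M) (hM : M = 8 * N * P)
    (x : ZMod p) (y : ZMod r) (h : nu M P (lam M p x + lam M r y) ≠ 0) :
    ∃ ξ : ℤ, 8 * N * |ξ| < p * r ∧ (ξ : ZMod p) = (r : ZMod p) * x ∧ (ξ : ZMod r) = (p : ZMod r) * y := by
  obtain ⟨k, hk, hkb⟩ := nu_pos M P _ h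
  obtain ⟨m, hm⟩ := hp
  have hp0 : 0 < p := Nat.pos_of_ne_zero (NeZero.ne p)
  have hr0 : 0 < r := Nat.pos_of_ne_zero (NeZero.ne r)
  have hm0 : 0 < m := by
    rcases Nat.eq_zero_or_pos m with h | h
    · exfalso; rw [h, mul_zero] at hm; exact NeZero.ne M hm
    · exact h
  have hMp : M / p = r * m := by
    rw [hm, mul_assoc]; exact Nat.mul_div_cancel_left _ hp0
  have hMr : M / r = p * m := by
    rw [hm, mul_comm p r, mul_assoc]; exact Nat.mul_div_cancel_left _ hr0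
  have h1 : ((k : ℤ) : ZMod M) = (((m : ℤ) * ((r : ℤ) * (x.val : ℤ) + (p : ℤ) * (y.val : ℤ)) : ℤ) : ZMod M) := by
    rw [hkb]
    unfold lam
    rw [hMp, hMr]
    push_cast
    ring
  rw [ZMod.intCast_eq_intCast_iff_dvd_sub] at h1
  have hMz : (M : ℤ) = (p * r) * m := by exact_mod_cast hm
  have h2 : (m : ℤ) ∣ k := by
    have h3 : (m : ℤ) ∣ (m : ℤ) * ((r : ℤ) * (x.val : ℤ) + (p : ℤ) * (y.val : ℤ)) - k :=
      (Dvd.intro_left ((p : ℤ) * r) hMz.symm).trans h1
    have := dvd_sub (dvd_mul_right (m : ℤ) ((r : ℤ) * (x.val : ℤ) + (p : ℤ) * (y.val : ℤ))) h3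
    simpa using this
  obtain ⟨ξ, rfl⟩ := h2
  have h5 : ((p : ℤ) * r) ∣ ((r : ℤ) * (x.val : ℤ) + (p : ℤ) * (y.val : ℤ)) - ξ := by
    rw [hMz, mul_comm ((p : ℤ) * r), ← mul_sub] at h1
    exact Int.dvd_of_mul_dvd_mul_left (by exact_mod_cast hm0.ne') h1
  refine ⟨ξ, ?_, ?_, ?_⟩
  · have e1 : ((p * r) * m : ℤ) = 8 * N * P := by
      rw [← hMz]; exact_mod_cast hM
    rw [abs_mul, abs_of_pos (by exact_mod_cast hm0 : (0 : ℤ) < m)] at hk
    have hmz : (0 : ℤ) < m := by exact_mod_cast hm0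
    by_cases hN : N = 0
    · subst hN
      have : (0 : ℤ) < p * r := by positivity
      simpa using this
    · have hNz : (0 : ℤ) < N := by exact_mod_cast Nat.pos_of_ne_zero hN
      have e2 : (8 * N * |ξ|) * m < (p * r) * m := by
        rw [e1]
        calc (8 * (N : ℤ) * |ξ|) * m = 8 * N * (m * |ξ|) := by ring
          _ < 8 * N * P := by
              apply Int.mul_lt_mul_of_pos_left hk (by positivity)
      exact lt_of_mul_lt_mul_right e2 hmz.le
  · have h6 : (((((r : ℤ) * (x.val : ℤ) + (p : ℤ) * (y.val : ℤ)) - ξ : ℤ)) : ZMod p) = 0 :=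
      (ZMod.intCast_zmod_eq_zero_iff_dvd _ p).2 ((dvd_mul_right _ _).trans h5)
    push_cast at h6
    rw [ZMod.natCast_zmod_val, ZMod.natCast_self, zero_mul, add_zero] at h6
    exact (sub_eq_zero.1 h6).symm
  · have h6 : (((((r : ℤ) * (x.val : ℤ) + (p : ℤ) * (y.val : ℤ)) - ξ : ℤ)) : ZMod r) = 0 :=
      (ZMod.intCast_zmod_eq_zero_iff_dvd _ r).2 ((dvd_mul_left _ _).trans h5)
    push_cast at h6
    rw [ZMod.natCast_zmod_val, ZMod.natCast_self, zero_mul, zero_add] at h6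
    exact (sub_eq_zero.1 h6).symm

end lift

section fib

variable {K : Type} [Field K] [Fintype K] [DecidableEq K] {ι : Type} [Fintype ι] [DecidableEq ι]

/-- the pairs -/
def TT (g : (Fin 4 → K) → (ι → K)) : Finset (K × (Fin 4 → K)) := (Finset.univ.erase 0) ×ˢ UU g

/-- the vector of a pair -/
def vec (g : (Fin 4 → K) → (ι → K)) (τ : K × (Fin 4 → K)) : ι → K := fun i => τ.1 * g τ.2 i

theorem mem_TT (g : (Fin 4 → K) → (ι → K)) (τ : K × (Fin 4 → K)) :
    τ ∈ TT g ↔ τ.1 ≠ 0 ∧ τ.2 ≠ 0 ∧ g τ.2 ≠ 0 := by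
  simp [TT, UU]

theorem fiber_le (g : (Fin 4 → K) → (ι → K))
    (hg : ∀ v w, v ≠ 0 → g v ≠ 0 → g w ≠ 0 → (∃ t : K, g w = fun i => t * g v i) →
      ∃ t : K, w = fun i => t * v i) (u : ι → K) :
    ((TT g).filter (fun τ => vec g τ = u)).card ≤ Fintype.card K - 1 := by
  classical
  rcases ((TT g).filter (fun τ => vec g τ = u)).eq_empty_or_nonempty with h | ⟨τ₀, h₀⟩
  · rw [h]; simp
  rw [Finset.mem_filter, mem_TT] at h₀
  obtain ⟨⟨h1, h2, h3⟩, h4⟩ := h₀
  have key : ∀ τ ∈ (TT g).filter (fun τ => vec g τ = u), ∃ s : K, s ≠ 0 ∧ τ.2 = fun i => s * τ₀.2 i := by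
    intro τ hτ
    rw [Finset.mem_filter, mem_TT] at hτ
    obtain ⟨⟨a1, a2, a3⟩, a4⟩ := hτ
    obtain ⟨s, hs⟩ := hg τ₀.2 τ.2 h2 h3 a3 ⟨τ₀.1 / τ.1, by
      funext i
      have := congrFun (a4.trans h4.symm) i
      simp only [vec] at this
      field_simp
      linear_combination this⟩
    refine ⟨s, ?_, hs⟩
    rintro rfl
    apply a2
    rw [hs]
    funext i
    simp
  choose! s hs using key
  have h5 : ((TT g).filter (fun τ => vec g τ = u)).card ≤ (Finset.univ.erase (0 : K)).card := by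
    apply Finset.card_le_card_of_injOn s
    · intro τ hτ
      exact Finset.mem_erase.2 ⟨(hs τ hτ).1, Finset.mem_univ _⟩
    · intro τ hτ τ' hτ' he
      have b1 : τ.2 = τ'.2 := by rw [(hs τ hτ).2, (hs τ' hτ').2, he]
      have c1 := Finset.mem_filter.1 hτ
      have c2 := Finset.mem_filter.1 hτ'
      have c3 := (mem_TT g τ).1 c1.1
      obtain ⟨i, hi⟩ : ∃ i, g τ.2 i ≠ 0 := by
        by_contra hh
        push Not at hh
        exact c3.2.2 (funext hh)
      have c4 := congrFun (c1.2.trans c2.2.symm) i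
      simp only [vec] at c4
      rw [← b1] at c4
      exact Prod.ext (mul_right_cancel₀ hi c4) b1
  rwa [Finset.card_erase_of_mem (Finset.mem_univ _), Finset.card_univ] at h5

end fib

end Pool.Agent.H427.AS
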