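import Pool.Agent.H427.AS.Cnt

/-!
# The number of the pairs with small coordinates
-/

set_option autoImplicit false
set_option linter.all false

namespace Pool.Agent.H427.AS

open Finset MvPolynomial

variable {r d : ℕ} {p : ℕ} [Fact p.Prime]

/-- the monomial `x_l x_i ^ d` -/
def mon (d : ℕ) (l i : Fin 4) : Sym (Fin 4) (d + 1) := l ::ₛ Sym.replicate d i

theorem mon_prod (l i : Fin 4) (v : Fin 4 → ZMod p) :
    (((mon d l i : Sym (Fin 4) (d + 1)) : Multiset (Fin 4)).map v).prod = v l * v i ^ d := by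
  unfold mon
  rw [Sym.coe_cons, Multiset.map_cons, Multiset.prod_cons, Sym.coe_replicate, Multiset.map_replicate,
    Multiset.prod_replicate]

/-- the number of the pairs all of whose coordinates are in the set `A` -/
theorem count_A (Q : Fin r → MvPolynomial (Fin 4) ℤ) (A : Finset (ZMod p)) :
    ((TT (gg Q (d + 1) p)).filter (fun τ => ∀ i, vec (gg Q (d + 1) p) τ i ∈ A)).card
      ≤ (r * 4) * ((p - 1) * A.card ^ 4) := by
  classical
  set g := gg Q (d + 1) p with hg
  have hsub : (TT g).filter (fun τ => ∀ i, vec g τ i ∈ A)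
      ⊆ (Finset.univ : Finset (Fin r × Fin 4)).biUnion (fun ji =>
        (TT g).filter (fun τ => (∀ i, vec g τ i ∈ A) ∧ aeval τ.2 (Q ji.1) ≠ 0 ∧ τ.2 ji.2 ≠ 0)) := by
    intro τ hτ
    rw [Finset.mem_filter] at hτ
    have h1 := (mem_TT g τ).1 hτ.1
    obtain ⟨i, hi⟩ : ∃ i, τ.2 i ≠ 0 := by
      by_contra hh
      push Not at hh
      exact h1.2.1 (funext hh)
    obtain ⟨j, hj⟩ : ∃ j, aeval τ.2 (Q j) ≠ 0 := by
      by_contra hh
      push Not at hh
      exact h1.2.2 ((gg_zero Q τ.2 h1.2.1).2 hh)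
    rw [Finset.mem_biUnion]
    exact ⟨(j, i), Finset.mem_univ _, Finset.mem_filter.2 ⟨hτ.1, hτ.2, hj, hi⟩⟩
  have hone : ∀ ji : Fin r × Fin 4,
      ((TT g).filter (fun τ => (∀ i, vec g τ i ∈ A) ∧ aeval τ.2 (Q ji.1) ≠ 0 ∧ τ.2 ji.2 ≠ 0)).card
        ≤ (p - 1) * A.card ^ 4 := by
    rintro ⟨j, i⟩
    have h2 : ((TT g).filter (fun τ => (∀ i, vec g τ i ∈ A) ∧ aeval τ.2 (Q j) ≠ 0 ∧ τ.2 i ≠ 0)).card
        ≤ ((Finset.univ.erase (0 : ZMod p)) ×ˢ Fintype.piFinset (fun _ : Fin 4 => A)).card := by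
      apply Finset.card_le_card_of_injOn (fun τ => (τ.2 i, fun l => vec g τ (j, mon d l i)))
      · intro τ hτ
        have h3 := (Finset.mem_filter.1 hτ).2
        refine Finset.mem_product.2 ⟨Finset.mem_erase.2 ⟨h3.2.2, Finset.mem_univ _⟩, ?_⟩
        rw [Fintype.mem_piFinset]
        intro l
        exact h3.1 _
      · intro τ hτ τ' hτ' he
        have c1 := Finset.mem_filter.1 hτ
        have c2 := Finset.mem_filter.1 hτ'
        have c3 := (mem_TT g τ).1 c1.1
        have c4 := (mem_TT g τ').1 c2.1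
        simp only [Prod.mk.injEq] at he
        obtain ⟨e1, e2⟩ := he
        have e3 : ∀ l, τ.1 * (aeval τ.2 (Q j) * (τ.2 l * τ.2 i ^ d))
            = τ'.1 * (aeval τ'.2 (Q j) * (τ'.2 l * τ'.2 i ^ d)) := by
          intro l
          have := congrFun e2 l
          simp only [vec, hg, gg] at this
          rw [mon_prod, mon_prod] at this
          exact this
        have n1 : τ'.2 i ≠ 0 := c2.2.2.2
        have n2 : aeval τ.2 (Q j) ≠ 0 := c1.2.2.1
        have n3 : aeval τ'.2 (Q j) ≠ 0 := c2.2.2.1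
        have e4 := e3 i
        rw [e1] at e4
        have e5 : τ.1 * aeval τ.2 (Q j) = τ'.1 * aeval τ'.2 (Q j) := by
          have : (τ.1 * aeval τ.2 (Q j)) * (τ'.2 i * τ'.2 i ^ d) = (τ'.1 * aeval τ'.2 (Q j)) * (τ'.2 i * τ'.2 i ^ d) := by
            linear_combination e4
          exact mul_right_cancel₀ (mul_ne_zero n1 (pow_ne_zero _ n1)) this
        have e6 : τ.2 = τ'.2 := by
          funext l
          have e7 := e3 l
          rw [e1] at e7
          have : τ.2 l * ((τ'.1 * aeval τ'.2 (Q j)) * τ'.2 i ^ d) = τ'.2 l * ((τ'.1 * aeval τ'.2 (Q j)) * τ'.2 i ^ d) := by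
            linear_combination e7 - (τ.2 l * τ'.2 i ^ d) * e5
          exact mul_right_cancel₀ (mul_ne_zero (mul_ne_zero c4.1 n3) (pow_ne_zero _ n1)) this
        rw [e6] at e5
        exact Prod.ext (mul_right_cancel₀ n3 e5) e6
    refine h2.trans (le_of_eq ?_)
    rw [Finset.card_product, Finset.card_erase_of_mem (Finset.mem_univ _), Finset.card_univ, ZMod.card,
      Fintype.card_piFinset]
    simp
  calc ((TT g).filter (fun τ => ∀ i, vec g τ i ∈ A)).card
      ≤ ∑ ji : Fin r × Fin 4, ((TT g).filter (fun τ => (∀ i, vec g τ i ∈ A) ∧ aeval τ.2 (Q ji.1) ≠ 0 ∧ τ.2 ji.2 ≠ 0)).card :=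
        (Finset.card_le_card hsub).trans Finset.card_biUnion_le
    _ ≤ ∑ ji : Fin r × Fin 4, (p - 1) * A.card ^ 4 := Finset.sum_le_sum (fun ji _ => hone ji)
    _ = _ := by simp

/-- the set of the small residues -/
noncomputable def SS (N p s : ℕ) [NeZero p] : Finset (ZMod p) := by
  classical
  exact Finset.univ.filter (fun x => ∃ ξ : ℤ, 8 * N * |ξ| < p * s ∧ (ξ : ZMod p) = (s : ZMod p) * x)

theorem mem_SS (N p s : ℕ) [NeZero p] (x : ZMod p) :
    x ∈ SS N p s ↔ ∃ ξ : ℤ, 8 * N * |ξ| < p * s ∧ (ξ : ZMod p) = (s : ZMod p) * x := by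
  classical
  unfold SS
  simp

theorem card_SS (N s : ℕ) (hN : 0 < N) (hs : s.Prime) (hps : p ≠ s) :
    (SS N p s).card ≤ 2 * (p * s / (8 * N)) + 1 := by
  classical
  have hp : p.Prime := Fact.out
  have hs0 : (s : ZMod p) ≠ 0 := by
    intro h
    rw [ZMod.natCast_eq_zero_iff] at h
    exact hps ((Nat.prime_dvd_prime_iff_eq hp hs).1 h)
  have key : ∀ x ∈ SS N p s, ∃ ξ : ℤ, 8 * N * |ξ| < p * s ∧ (ξ : ZMod p) = (s : ZMod p) * x :=
    fun x hx => (mem_SS N p s x).1 hx
  choose! f hf using key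
  have h1 : (SS N p s).card ≤ (Finset.Icc (-((p * s / (8 * N) : ℕ) : ℤ)) ((p * s / (8 * N) : ℕ) : ℤ)).card := by
    apply Finset.card_le_card_of_injOn f
    · intro x hx
      have h2 := (hf x hx).1
      rw [Finset.coe_Icc, Set.mem_Icc, ← abs_le]
      have h3 : (f x).natAbs * (8 * N) ≤ p * s := by
        have : ((f x).natAbs : ℤ) * (8 * N) ≤ p * s := by
          rw [Int.natCast_natAbs]; linarith
        exact_mod_cast this
      have h4 : (f x).natAbs ≤ p * s / (8 * N) := (Nat.le_div_iff_mul_le (by positivity)).2 h3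
      rw [Int.abs_eq_natAbs]
      exact_mod_cast h4
    · intro x hx y hy he
      have a1 := (hf x hx).2
      have a2 := (hf y hy).2
      rw [he, a2] at a1
      exact (mul_left_cancel₀ hs0 a1).symm
  refine h1.trans (le_of_eq ?_)
  rw [Int.card_Icc]
  omega

end Pool.Agent.H427.AS
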