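import Pool.Agent.H427.AS.Bsq2

/-!
# The maximal inequality for the primes up to the height
-/

set_option autoImplicit false
set_option linter.all false

namespace Pool.Agent.H427.AS

open Finset MvPolynomial

variable {r d : ℕ} (Q : Fin r → MvPolynomial (Fin 4) ℤ) (w : ℕ → ℝ)

theorem sum_ML6 (hw : ∀ p, |w p| ≤ 1) (H L : ℕ) (hH : 0 < H) (hL : 2 ^ L ≤ 2 * H)
    (hd : 2 ≤ d) :
    ∑ c ∈ Box (Fin r × Sym (Fin 4) d) H, ML (ph Q d) w L c ≤
      (32 * (H : ℝ)) ^ Fintype.card (Fin r × Sym (Fin 4) d) * ((1 + 16 * r) * 2 ^ L * ((L : ℝ) + 1) ^ 6) := by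
  classical
  set n := Fintype.card (Fin r × Sym (Fin 4) d) with hn
  set N : ℝ := 32 * (H : ℝ) with hN
  have hHp : (0 : ℝ) < H := by exact_mod_cast hH
  have hNp : 0 < N := by rw [hN]; positivity
  have hNn : 0 ≤ N ^ n := by positivity
  have hlev : ∀ l : ℕ, ∑ c ∈ Box (Fin r × Sym (Fin 4) d) H, lv (Pr L) (hh (ph Q d) w c) id L l
      ≤ N ^ n * ((1 + 16 * r) * 2 ^ L * ((L : ℝ) + 1) ^ 4) := by
    intro l
    unfold lv
    rw [Finset.sum_comm]
    have h1 : ∀ b ∈ Finset.range (2 ^ L), ∑ c ∈ Box (Fin r × Sym (Fin 4) d) H, ‖bs (Pr L) (hh (ph Q d) w c) id l b‖ ^ 2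
        ≤ N ^ n * (∑ p ∈ (Pr L).filter (fun i => i / 2 ^ l = b), (w p * Real.log p) ^ 2
          + 2 * r / (H : ℝ) ^ 3 * (∑ p ∈ (Pr L).filter (fun i => i / 2 ^ l = b), ((p : ℝ) * (1 + Real.log p)) * |w p * Real.log p|) ^ 2) := by
      intro b _
      have h2 := box_square2 H hH ((Pr L).filter (fun i => i / 2 ^ l = b))
        (fun p hp => (Finset.mem_filter.1 (Finset.mem_filter.1 hp).1).2)
        (fun p hp => (Finset.mem_range.1 (Finset.mem_filter.1 (Finset.mem_filter.1 hp).1).1).le.trans (by omega))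
        (fun p => w p * Real.log p) Q hd
      refine le_trans (le_of_eq ?_) h2
      apply Finset.sum_congr rfl
      intro c _
      rw [Real.norm_eq_abs, sq_abs]
      rfl
    refine (Finset.sum_le_sum h1).trans ?_
    rw [← Finset.mul_sum, Finset.sum_add_distrib, ← Finset.mul_sum]
    apply mul_le_mul_of_nonneg_left _ hNn
    have hmaps : ∀ p ∈ Pr L, p / 2 ^ l ∈ Finset.range (2 ^ L) := by
      intro p hp
      have e1 := Finset.mem_range.1 (Finset.mem_filter.1 hp).1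
      rw [Finset.mem_range]
      exact lt_of_le_of_lt (Nat.div_le_self _ _) e1
    have h3 : ∑ b ∈ Finset.range (2 ^ L), ∑ p ∈ (Pr L).filter (fun i => i / 2 ^ l = b), (w p * Real.log p) ^ 2
        = ∑ p ∈ Pr L, (w p * Real.log p) ^ 2 :=
      Finset.sum_fiberwise_of_maps_to hmaps (fun p => (w p * Real.log p) ^ 2)
    have h4 : ∑ b ∈ Finset.range (2 ^ L), ∑ p ∈ (Pr L).filter (fun i => i / 2 ^ l = b), (((p : ℝ) * (1 + Real.log p)) * |w p * Real.log p| : ℝ)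
        = ∑ p ∈ Pr L, (((p : ℝ) * (1 + Real.log p)) * |w p * Real.log p| : ℝ) :=
      Finset.sum_fiberwise_of_maps_to hmaps (fun p => (((p : ℝ) * (1 + Real.log p)) * |w p * Real.log p| : ℝ))
    have h5 : ∑ b ∈ Finset.range (2 ^ L), (∑ p ∈ (Pr L).filter (fun i => i / 2 ^ l = b), (((p : ℝ) * (1 + Real.log p)) * |w p * Real.log p| : ℝ)) ^ 2
        ≤ (∑ p ∈ Pr L, (((p : ℝ) * (1 + Real.log p)) * |w p * Real.log p| : ℝ)) ^ 2 := by
      rw [← h4]
      exact sum_sq_le _ _ (fun i _ => Finset.sum_nonneg (fun p _ => by positivity))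
    have hcard : ((Pr L).card : ℝ) ≤ 2 ^ L := by
      have : (Pr L).card ≤ 2 ^ L := by
        refine (Finset.card_filter_le _ _).trans ?_
        rw [Finset.card_range]
      exact_mod_cast this
    have h6 : ∑ p ∈ Pr L, (w p * Real.log p) ^ 2 ≤ 2 ^ L * (L : ℝ) ^ 2 := by
      calc ∑ p ∈ Pr L, (w p * Real.log p) ^ 2 ≤ ∑ p ∈ Pr L, (L : ℝ) ^ 2 := by
            apply Finset.sum_le_sum
            intro p hp
            have := wlog_le w hw L p hp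
            rw [← sq_abs]
            exact pow_le_pow_left₀ (abs_nonneg _) this 2
        _ = (Pr L).card * (L : ℝ) ^ 2 := by simp
        _ ≤ _ := by gcongr
    have h7 : ∑ p ∈ Pr L, (((p : ℝ) * (1 + Real.log p)) * |w p * Real.log p| : ℝ)
        ≤ 2 ^ L * ((2 ^ L * (1 + (L : ℝ))) * L) := by
      calc ∑ p ∈ Pr L, (((p : ℝ) * (1 + Real.log p)) * |w p * Real.log p| : ℝ)
          ≤ ∑ p ∈ Pr L, ((2 ^ L * (1 + (L : ℝ))) * L) := by
            apply Finset.sum_le_sum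
            intro p hp
            have h8 := wlog_le w hw L p hp
            have h10 := log_le L p hp
            have h9 : (p : ℝ) ≤ 2 ^ L := by
              exact_mod_cast (Finset.mem_range.1 (Finset.mem_filter.1 hp).1).le
            have h11 : (p : ℝ) * (1 + Real.log p) ≤ 2 ^ L * (1 + (L : ℝ)) := by
              apply mul_le_mul h9 (by linarith [h10.2]) (by linarith [h10.1]) (by positivity)
            apply mul_le_mul h11 h8 (abs_nonneg _) (by positivity)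
        _ = (Pr L).card * ((2 ^ L * (1 + (L : ℝ))) * L) := by simp
        _ ≤ _ := by gcongr
    have h7' : 0 ≤ ∑ p ∈ Pr L, (((p : ℝ) * (1 + Real.log p)) * |w p * Real.log p| : ℝ) :=
      Finset.sum_nonneg (fun p hp => by
        have h10 := log_le L p hp
        have : 0 ≤ 1 + Real.log p := by linarith [h10.1]
        positivity)
    rw [h3]
    have h8 : (∑ p ∈ Pr L, (((p : ℝ) * (1 + Real.log p)) * |w p * Real.log p| : ℝ)) ^ 2
        ≤ (2 ^ L * ((2 ^ L * (1 + (L : ℝ))) * L)) ^ 2 :=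
      pow_le_pow_left₀ h7' h7 2
    have h9 : (1 / (H : ℝ) ^ 3) * (2 ^ L * ((2 ^ L * (1 + (L : ℝ))) * L)) ^ 2 ≤ 8 * (2 ^ L * ((L : ℝ) + 1) ^ 4) := by
      rw [div_mul_eq_mul_div, one_mul, div_le_iff₀ (by positivity)]
      have e0 : ((2 : ℝ) ^ L) ≤ 2 * (H : ℝ) := by exact_mod_cast hL
      have e1 : ((2 : ℝ) ^ L) ^ 3 ≤ (2 * (H : ℝ)) ^ 3 := pow_le_pow_left₀ (by positivity) e0 3
      have e3 : (2 ^ L * ((2 ^ L * (1 + (L : ℝ))) * L)) ^ 2
          = ((2 : ℝ) ^ L) ^ 3 * (2 ^ L * (((L : ℝ) + 1) ^ 2 * (L : ℝ) ^ 2)) := by ring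
      rw [e3]
      calc ((2 : ℝ) ^ L) ^ 3 * (2 ^ L * (((L : ℝ) + 1) ^ 2 * (L : ℝ) ^ 2))
          ≤ (2 * (H : ℝ)) ^ 3 * (2 ^ L * (((L : ℝ) + 1) ^ 2 * ((L : ℝ) + 1) ^ 2)) := by
            gcongr
            linarith
        _ = _ := by ring
    have h12 : (2 : ℝ) ^ L * (L : ℝ) ^ 2 ≤ 2 ^ L * ((L : ℝ) + 1) ^ 4 := by
      have : (L : ℝ) ^ 2 ≤ ((L : ℝ) + 1) ^ 4 := by
        calc (L : ℝ) ^ 2 ≤ ((L : ℝ) + 1) ^ 2 := by gcongr; linarith
          _ ≤ ((L : ℝ) + 1) ^ 4 := pow_le_pow_right₀ (by linarith [Nat.cast_nonneg (α := ℝ) L]) (by norm_num)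
      gcongr
    calc ∑ p ∈ Pr L, (w p * Real.log p) ^ 2
        + 2 * r / (H : ℝ) ^ 3 * ∑ b ∈ Finset.range (2 ^ L), (∑ p ∈ (Pr L).filter (fun i => i / 2 ^ l = b), (((p : ℝ) * (1 + Real.log p)) * |w p * Real.log p| : ℝ)) ^ 2
        ≤ (2 ^ L * (L : ℝ) ^ 2) + 2 * r / (H : ℝ) ^ 3 * (2 ^ L * ((2 ^ L * (1 + (L : ℝ))) * L)) ^ 2 := by
          have := h5.trans h8
          gcongr
      _ = (2 ^ L * (L : ℝ) ^ 2) + 2 * r * ((1 / (H : ℝ) ^ 3) * (2 ^ L * ((2 ^ L * (1 + (L : ℝ))) * L)) ^ 2) := by ring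
      _ ≤ (2 ^ L * ((L : ℝ) + 1) ^ 4) + 2 * r * (8 * (2 ^ L * ((L : ℝ) + 1) ^ 4)) := by gcongr
      _ = _ := by ring
  unfold ML
  rw [← Finset.mul_sum, Finset.sum_comm]
  calc ((L : ℝ) + 1) * ∑ l ∈ Finset.range (L + 1), ∑ c ∈ Box (Fin r × Sym (Fin 4) d) H, lv (Pr L) (hh (ph Q d) w c) id L l
      ≤ ((L : ℝ) + 1) * ∑ l ∈ Finset.range (L + 1), N ^ n * ((1 + 16 * r) * 2 ^ L * ((L : ℝ) + 1) ^ 4) := by
        gcongr with l _
        exact hlev l
    _ = ((L : ℝ) + 1) * (((L : ℝ) + 1) * (N ^ n * ((1 + 16 * r) * 2 ^ L * ((L : ℝ) + 1) ^ 4))) := by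
        rw [Finset.sum_const, Finset.card_range]; simp
    _ = _ := by ring

open Classical in
theorem bad_count6 (hw : ∀ p, |w p| ≤ 1) (H L : ℕ) (hH : 0 < H) (hL : 2 ^ L ≤ 2 * H)
    (hd : 2 ≤ d) (B : ℝ) (hB : 0 < B) :
    (((Box (Fin r × Sym (Fin 4) d) H).filter (fun c => ∃ x, B < (ps (Pr L) (hh (ph Q d) w c) id x) ^ 2)).card : ℝ) ≤
      (32 * (H : ℝ)) ^ Fintype.card (Fin r × Sym (Fin 4) d) * ((1 + 16 * r) * 2 ^ L * ((L : ℝ) + 1) ^ 6) / B := by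
  rw [le_div_iff₀ hB]
  refine le_trans ?_ (sum_ML6 Q w hw H L hH hL hd)
  have h0 : ∀ c ∈ Box (Fin r × Sym (Fin 4) d) H, 0 ≤ ML (ph Q d) w L c := fun c _ => (sq_nonneg _).trans (ps_le (ph Q d) w L c 0)
  calc (((Box (Fin r × Sym (Fin 4) d) H).filter (fun c => ∃ x, B < (ps (Pr L) (hh (ph Q d) w c) id x) ^ 2)).card : ℝ) * B
      = ∑ c ∈ (Box (Fin r × Sym (Fin 4) d) H).filter (fun c => ∃ x, B < (ps (Pr L) (hh (ph Q d) w c) id x) ^ 2), B := by simp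
    _ ≤ ∑ c ∈ (Box (Fin r × Sym (Fin 4) d) H).filter (fun c => ∃ x, B < (ps (Pr L) (hh (ph Q d) w c) id x) ^ 2), ML (ph Q d) w L c := by
        apply Finset.sum_le_sum
        intro c hc
        obtain ⟨x, hx⟩ := (Finset.mem_filter.1 hc).2
        exact hx.le.trans (ps_le (ph Q d) w L c x)
    _ ≤ _ := Finset.sum_le_sum_of_subset_of_nonneg (Finset.filter_subset _ _)
        (fun c hc _ => h0 c hc)

end Pool.Agent.H427.AS
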