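import Pool.Agent.H427.AS.Fin
import Pool.Agent.H427.AS.Max6

/-!
# Surfaces containing a curve: the bound for all `T` up to the height
-/

set_option autoImplicit false
set_option linter.all false

namespace Pool.Agent.H427.AS

open Finset MvPolynomial

variable {r d : ℕ}

theorem summ6 (ρ : ℝ) (h0 : 0 < ρ) (h1 : ρ < 1) : Summable (fun L : ℕ => ((L : ℝ) + 1) ^ 6 * ρ ^ L) := by
  have h := summable_pow_mul_geometric_of_norm_lt_one 6 (r := ρ) (by rw [Real.norm_eq_abs, abs_of_pos h0]; exact h1)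
  have h2 := (summable_nat_add_iff 1).2 h
  have h3 := h2.mul_right ρ⁻¹
  refine h3.congr ?_
  intro L
  push_cast
  rw [pow_succ ρ L, ← mul_assoc, mul_assoc _ ρ, mul_inv_cancel₀ h0.ne', mul_one]

open Classical in
theorem main6 (hd : 2 ≤ d) (Q : Fin r → MvPolynomial (Fin 4) ℤ) (k : ℕ → ℝ) (M : ℝ)
    (hk : ∀ p : ℕ, p.Prime → |points Q p - k p * p| ≤ M * Real.sqrt p ∧ |k p| ≤ M)
    (w : ℕ → ℝ) (hw : ∀ p, |w p| ≤ 1) (δ ε : ℝ) (hδ : 0 < δ) (hε : 0 < ε) :
    ∃ C : ℝ, 0 < C ∧ ∀ H : ℕ,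
      (((Box (Fin r × Sym (Fin 4) d) H).filter (fun c => ¬ ∀ T : ℕ, 2 ≤ T → T ≤ H →
        |AA (surface Q c) k w T| ≤ C * (T : ℝ) ^ (1 / 2 + δ))).card : ℝ)
        ≤ ε * ((2 * H + 1 : ℕ) : ℝ) ^ Fintype.card (Fin r × Sym (Fin 4) d) := by
  have hM : 0 ≤ M := (abs_nonneg _).trans (hk 2 Nat.prime_two).2
  set n := Fintype.card (Fin r × Sym (Fin 4) d) with hn
  set ρ : ℝ := (2 : ℝ) ^ (-(2 * δ)) with hρ
  have hρ0 : 0 < ρ := by rw [hρ]; positivity
  have hρ1 : ρ < 1 := by
    rw [hρ]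
    exact Real.rpow_lt_one_of_one_lt_of_neg (by norm_num) (by linarith)
  have hs := summ6 ρ hρ0 hρ1
  set S : ℝ := ∑' L : ℕ, ((L : ℝ) + 1) ^ 6 * ρ ^ L with hS
  have hS0 : 0 ≤ S := tsum_nonneg (fun L => by positivity)
  set c0 : ℝ := 16 ^ n * (1 + 16 * r) with hc0
  have hc00 : 0 < c0 := by rw [hc0]; positivity
  set W : ℝ := c0 * S / ε + 1 with hW
  have hW0 : 0 < W := by rw [hW]; positivity
  set M' : ℝ := 2 * (1 + 3 * M) / δ with hM'
  refine ⟨Real.sqrt W * 2 ^ (1 / 2 + δ) + M', by positivity, ?_⟩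
  intro H
  set N : ℝ := ((2 * H + 1 : ℕ) : ℝ) with hN
  have hN0 : 0 < N := by rw [hN]; positivity
  set I := (Finset.range (2 * H + 1)).filter (fun L => 2 ^ L ≤ 2 * H ∧ 0 < H) with hI
  set B : ℕ → ℝ := fun L => W * 2 ^ L / ρ ^ L with hB
  have hB0 : ∀ L, 0 < B L := fun L => by rw [hB]; positivity
  have hsub : (Box (Fin r × Sym (Fin 4) d) H).filter (fun c => ¬ ∀ T : ℕ, 2 ≤ T → T ≤ H →
        |AA (surface Q c) k w T| ≤ (Real.sqrt W * 2 ^ (1 / 2 + δ) + M') * (T : ℝ) ^ (1 / 2 + δ))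
      ⊆ I.biUnion (fun L => (Box (Fin r × Sym (Fin 4) d) H).filter
        (fun c => ∃ x, B L < (ps (Pr L) (hh (ph Q d) w c) id x) ^ 2)) := by
    intro F hF
    rw [Finset.mem_filter] at hF
    obtain ⟨hFB, hF⟩ := hF
    by_contra hcon
    apply hF
    intro T hT hTH
    rw [Finset.mem_biUnion] at hcon
    push Not at hcon
    set L := Nat.log 2 T + 1 with hL
    have h1 : T < 2 ^ L := Nat.lt_pow_succ_log_self (by norm_num) T
    have h2 : 2 ^ L ≤ 2 * T := by
      rw [hL, pow_succ]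
      have := Nat.pow_log_le_self 2 (x := T) (by omega)
      omega
    have hH0 : 0 < H := by omega
    have h4 : 2 ^ L ≤ 2 * H := by omega
    have hLI : L ∈ I := by
      rw [hI, Finset.mem_filter, Finset.mem_range]
      refine ⟨?_, h4, hH0⟩
      have e1 : L < 2 ^ L := Nat.lt_two_pow_self
      omega
    have h5 := hcon L hLI
    rw [Finset.mem_filter] at h5
    push Not at h5
    have h6 := h5 hFB (T + 1)
    have h7 : ps (Pr L) (hh (ph Q d) w F) id (T + 1)
        = ∑ p ∈ (Finset.range (T + 1)).filter Nat.Prime, (w p * Real.log p) * ph Q d p (red p F) := by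
      unfold ps hh
      apply Finset.sum_congr _ (fun _ _ => rfl)
      ext p
      simp only [Pr, Finset.mem_filter, Finset.mem_range, id]
      constructor
      · rintro ⟨⟨_, a⟩, b⟩; exact ⟨b, a⟩
      · rintro ⟨a, b⟩; exact ⟨⟨by omega, b⟩, a⟩
    have h8 : AA (surface Q F) k w T = (∑ p ∈ (Finset.range (T + 1)).filter Nat.Prime, Real.log p * (w p * EE Q k p))
        + ps (Pr L) (hh (ph Q d) w F) id (T + 1) := by
      rw [h7, ← Finset.sum_add_distrib]
      unfold AA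
      apply Finset.sum_congr rfl
      intro p hp
      rw [trace_eq Q p (Finset.mem_filter.1 hp).2 F]
      unfold EE
      ring
    have hT0 : (0 : ℝ) < T := by exact_mod_cast (by omega : 0 < T)
    have hT1 : (1 : ℝ) ≤ T := by exact_mod_cast (by omega : 1 ≤ T)
    have h9 : |ps (Pr L) (hh (ph Q d) w F) id (T + 1)| ≤ Real.sqrt W * 2 ^ (1 / 2 + δ) * (T : ℝ) ^ (1 / 2 + δ) := by
      apply abs_le_of_sq_le_sq _ (by positivity)
      refine h6.trans ?_
      have e1 : (Real.sqrt W * 2 ^ (1 / 2 + δ) * (T : ℝ) ^ (1 / 2 + δ)) ^ 2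
          = W * ((2 * (T : ℝ)) ^ (1 + 2 * δ)) := by
        rw [mul_assoc, ← Real.mul_rpow (by norm_num) hT0.le, mul_pow, Real.sq_sqrt hW0.le,
          ← Real.rpow_natCast, ← Real.rpow_mul (by positivity)]
        congr 2
        push_cast
        ring
      rw [e1]
      have e2 : B L = W * ((2 : ℝ) ^ L) ^ (1 + 2 * δ) := by
        rw [hB]
        simp only
        rw [mul_div_assoc]
        congr 1
        rw [Real.rpow_add (by positivity), Real.rpow_one, hρ, ← Real.rpow_natCast ((2 : ℝ) ^ (-(2 * δ))),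
          ← Real.rpow_mul (by norm_num), ← Real.rpow_natCast (2 : ℝ) L, ← Real.rpow_mul (by norm_num),
          ← Real.rpow_add (by norm_num), ← Real.rpow_sub (by norm_num)]
        congr 1
        ring
      rw [e2]
      have e3 : ((2 : ℝ) ^ L) ≤ 2 * T := by exact_mod_cast h2
      gcongr
    have hEw : ∀ p : ℕ, p.Prime → |w p * EE Q k p| ≤ (1 + 3 * M) / Real.sqrt p := by
      intro p hp
      rw [abs_mul]
      have e1 := EE_le Q k M hk p hp
      have e2 := hw p
      calc |w p| * |EE Q k p| ≤ 1 * ((1 + 3 * M) / Real.sqrt p) := by gcongr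
        _ = _ := one_mul _
    have h10 := sum_small δ hδ (1 + 3 * M) (by linarith) T (by omega) (fun p => w p * EE Q k p) hEw
    rw [h8]
    calc |(∑ p ∈ (Finset.range (T + 1)).filter Nat.Prime, Real.log p * (w p * EE Q k p))
        + ps (Pr L) (hh (ph Q d) w F) id (T + 1)|
        ≤ M' * (T : ℝ) ^ (1 / 2 + δ) + Real.sqrt W * 2 ^ (1 / 2 + δ) * (T : ℝ) ^ (1 / 2 + δ) :=
          (abs_add_le _ _).trans (add_le_add h10 h9)
      _ = _ := by ring
  calc (((Box (Fin r × Sym (Fin 4) d) H).filter (fun c => ¬ ∀ T : ℕ, 2 ≤ T → T ≤ H →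
        |AA (surface Q c) k w T| ≤ (Real.sqrt W * 2 ^ (1 / 2 + δ) + M') * (T : ℝ) ^ (1 / 2 + δ))).card : ℝ)
      ≤ ((I.biUnion (fun L => (Box (Fin r × Sym (Fin 4) d) H).filter
        (fun c => ∃ x, B L < (ps (Pr L) (hh (ph Q d) w c) id x) ^ 2))).card : ℝ) := by
        exact_mod_cast Finset.card_le_card hsub
    _ ≤ ∑ L ∈ I, (((Box (Fin r × Sym (Fin 4) d) H).filter
        (fun c => ∃ x, B L < (ps (Pr L) (hh (ph Q d) w c) id x) ^ 2)).card : ℝ) := by
        exact_mod_cast Finset.card_biUnion_le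
    _ ≤ ∑ L ∈ I, N ^ n * c0 / W * (((L : ℝ) + 1) ^ 6 * ρ ^ L) := by
        apply Finset.sum_le_sum
        intro L hL
        have hL' := (Finset.mem_filter.1 hL).2
        refine (bad_count6 Q w hw H L hL'.2 hL'.1 hd (B L) (hB0 L)).trans ?_
        rw [hB]
        simp only
        rw [← hn]
        have e0 : (32 * (H : ℝ)) ^ n ≤ 16 ^ n * N ^ n := by
          rw [← mul_pow]
          apply pow_le_pow_left₀ (by positivity)
          rw [hN]
          push_cast
          linarith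
        calc (32 * (H : ℝ)) ^ n * ((1 + 16 * r) * 2 ^ L * ((L : ℝ) + 1) ^ 6) / (W * 2 ^ L / ρ ^ L)
            ≤ (16 ^ n * N ^ n) * ((1 + 16 * r) * 2 ^ L * ((L : ℝ) + 1) ^ 6) / (W * 2 ^ L / ρ ^ L) := by gcongr
          _ = N ^ n * c0 / W * (((L : ℝ) + 1) ^ 6 * ρ ^ L) := by
              rw [hc0]
              field_simp
    _ = N ^ n * c0 / W * ∑ L ∈ I, (((L : ℝ) + 1) ^ 6 * ρ ^ L) := by rw [Finset.mul_sum]
    _ ≤ N ^ n * c0 / W * S := by
        gcongr
        exact hs.sum_le_tsum I (fun L _ => by positivity)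
    _ ≤ ε * N ^ n := by
        rw [div_mul_eq_mul_div, div_le_iff₀ hW0]
        have e1 : c0 * S ≤ ε * W := by
          rw [hW, mul_add, mul_div_cancel₀ _ hε.ne']
          linarith
        calc N ^ n * c0 * S = N ^ n * (c0 * S) := by ring
          _ ≤ N ^ n * (ε * W) := by gcongr
          _ = _ := by ring

end Pool.Agent.H427.AS
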