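import Pool.Agent.H427.AS.Ctt

/-!
# The mean square for the primes up to a power `4/5` of the height
-/

set_option autoImplicit false
set_option linter.all false

namespace Pool.Agent.H427.AS

open Finset MvPolynomial

section expand

variable {ι : Type} [Fintype ι] [DecidableEq ι]

theorem phi_expand {p : ℕ} [Fact p.Prime] (g : (Fin 4 → ZMod p) → (ι → ZMod p)) (c : ι → ZMod p) :
    (phi g c : ℂ) = (1 / ((p : ℂ) ^ 2 * ((p : ℂ) - 1))) * ∑ τ ∈ TT g, ZMod.stdAddChar (dot c (vec g τ)) := by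
  have hp : p.Prime := Fact.out
  have hp2 : (2 : ℝ) ≤ p := by exact_mod_cast hp.two_le
  have h1 : ∑ τ ∈ TT g, ZMod.stdAddChar (dot c (vec g τ))
      = ((p * Y g c - (UU g).card : ℝ) : ℂ) := by
    unfold TT
    rw [Finset.sum_product_right]
    have h2 : ∀ v ∈ UU g, ∑ t ∈ (Finset.univ : Finset (ZMod p)).erase 0, ZMod.stdAddChar (dot c (vec g (t, v)))
        = (((p : ℝ) * (if dot c (g v) = 0 then (1 : ℝ) else 0) - 1 : ℝ) : ℂ) := by
      intro v _
      have h3 : ∀ t : ZMod p, dot c (vec g (t, v)) = t * dot c (g v) := by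
        intro t
        unfold dot vec
        rw [Finset.mul_sum]
        apply Finset.sum_congr rfl
        intro i _
        ring
      simp only [h3]
      rw [Finset.sum_erase_eq_sub (Finset.mem_univ _), zero_mul, AddChar.map_zero_eq_one,
        AddChar.sum_mulShift _ (ZMod.isPrimitive_stdAddChar p)]
      split_ifs <;> simp [ZMod.card]
    rw [Finset.sum_congr rfl h2, ← Complex.ofReal_sum, Finset.sum_sub_distrib, ← Finset.mul_sum]
    unfold Y
    simp
  rw [h1]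
  unfold phi
  rw [ZMod.card]
  push_cast
  have e1 : (p : ℂ) ≠ 0 := by exact_mod_cast hp.ne_zero
  have e2 : (p : ℂ) - 1 ≠ 0 := by
    intro h
    have : (p : ℂ) = ((1 : ℕ) : ℂ) := by push_cast; linear_combination h
    have h3 : p = 1 := by exact_mod_cast this
    exact hp.one_lt.ne' h3
  field_simp

variable (M P : ℕ) [NeZero M]

/-- the weight -/
noncomputable def Om (C : ι → ZMod M) : ℝ := ∏ i, KK M P (C i)

theorem Om_nonneg (C : ι → ZMod M) : 0 ≤ Om M P C := Finset.prod_nonneg (fun i _ => KK_nonneg M P _)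

theorem char_sum {A : Type} [AddCommMonoid A] (ψ : AddChar A ℂ) (s : Finset ι) (f : ι → A) :
    ψ (∑ i ∈ s, f i) = ∏ i ∈ s, ψ (f i) := by
  classical
  induction s using Finset.induction_on with
  | empty => simp
  | insert i s hi ih => rw [Finset.sum_insert hi, Finset.prod_insert hi, AddChar.map_add_eq_mul, ih]

theorem std_dot {p : ℕ} [Fact p.Prime] (hp : p ∣ M) (C : ι → ZMod M) (u : ι → ZMod p) :
    ZMod.stdAddChar (dot (fun i => ((C i).cast : ZMod p)) u) = ∏ i, ZMod.stdAddChar (C i * lam M p (u i)) := by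
  haveI : NeZero p := ⟨(Fact.out : p.Prime).ne_zero⟩
  unfold dot
  rw [char_sum]
  apply Finset.prod_congr rfl
  intro i _
  rw [std_cast M p hp]

theorem pair_expand {p s : ℕ} [Fact p.Prime] [Fact s.Prime] (hp : p ∣ M) (hs : s ∣ M)
    (g : (Fin 4 → ZMod p) → (ι → ZMod p)) (g' : (Fin 4 → ZMod s) → (ι → ZMod s)) :
    ((∑ C : ι → ZMod M, Om M P C * (phi g (fun i => ((C i).cast : ZMod p))
        * phi g' (fun i => ((C i).cast : ZMod s))) : ℝ) : ℂ)
      = (1 / ((p : ℂ) ^ 2 * ((p : ℂ) - 1))) * (1 / ((s : ℂ) ^ 2 * ((s : ℂ) - 1))) *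
        ∑ τ ∈ TT g, ∑ τ' ∈ TT g', ∏ i, ((M : ℂ) * nu M P (lam M p (vec g τ i) + lam M s (vec g' τ' i))) := by
  have h1 : ∀ C : ι → ZMod M, ((Om M P C * (phi g (fun i => ((C i).cast : ZMod p))
        * phi g' (fun i => ((C i).cast : ZMod s))) : ℝ) : ℂ)
      = (1 / ((p : ℂ) ^ 2 * ((p : ℂ) - 1))) * (1 / ((s : ℂ) ^ 2 * ((s : ℂ) - 1))) *
        ∑ τ ∈ TT g, ∑ τ' ∈ TT g', ∏ i, ((KK M P (C i) : ℂ) *
          ZMod.stdAddChar (C i * (lam M p (vec g τ i) + lam M s (vec g' τ' i)))) := by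
    intro C
    push_cast
    rw [phi_expand, phi_expand]
    have h2 : ∀ τ ∈ TT g, ∀ τ' ∈ TT g', ∏ i, ((KK M P (C i) : ℂ) *
          ZMod.stdAddChar (C i * (lam M p (vec g τ i) + lam M s (vec g' τ' i))))
        = (Om M P C : ℂ) * (ZMod.stdAddChar (dot (fun i => ((C i).cast : ZMod p)) (vec g τ))
          * ZMod.stdAddChar (dot (fun i => ((C i).cast : ZMod s)) (vec g' τ'))) := by
      intro τ _ τ' _
      rw [std_dot M hp, std_dot M hs, Finset.prod_mul_distrib]
      unfold Om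
      push_cast
      congr 1
      rw [← Finset.prod_mul_distrib]
      apply Finset.prod_congr rfl
      intro i _
      rw [mul_add, AddChar.map_add_eq_mul]
    rw [Finset.sum_congr rfl (fun τ hτ => Finset.sum_congr rfl (fun τ' hτ' => h2 τ hτ τ' hτ'))]
    simp only [← Finset.mul_sum, ← Finset.sum_mul]
    ring
  rw [Complex.ofReal_sum, Finset.sum_congr rfl (fun C _ => h1 C), ← Finset.mul_sum]
  congr 1
  rw [Finset.sum_comm]
  apply Finset.sum_congr rfl
  intro τ _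
  rw [Finset.sum_comm]
  apply Finset.sum_congr rfl
  intro τ' _
  have h3 := Finset.prod_univ_sum (fun _ : ι => (Finset.univ : Finset (ZMod M)))
    (fun i c => (KK M P c : ℂ) * ZMod.stdAddChar (c * (lam M p (vec g τ i) + lam M s (vec g' τ' i))))
  rw [Fintype.piFinset_univ] at h3
  rw [← h3]
  apply Finset.prod_congr rfl
  intro i _
  rw [KK_sum]

/-- the number of the pairs of pairs -/
noncomputable def PC {p s : ℕ} [Fact p.Prime] [Fact s.Prime]
    (g : (Fin 4 → ZMod p) → (ι → ZMod p)) (g' : (Fin 4 → ZMod s) → (ι → ZMod s)) : ℕ :=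
  ∑ τ ∈ TT g, ((TT g').filter (fun τ' => ∀ i, nu M P (lam M p (vec g τ i) + lam M s (vec g' τ' i)) ≠ 0)).card

theorem pair_le {p s : ℕ} [Fact p.Prime] [Fact s.Prime] (hp : p ∣ M) (hs : s ∣ M) (hPM : P ≤ M)
    (g : (Fin 4 → ZMod p) → (ι → ZMod p)) (g' : (Fin 4 → ZMod s) → (ι → ZMod s)) :
    |∑ C : ι → ZMod M, Om M P C * (phi g (fun i => ((C i).cast : ZMod p))
        * phi g' (fun i => ((C i).cast : ZMod s)))|
      ≤ ((M : ℝ) * P) ^ Fintype.card ι * PC M P g g' / (((p : ℝ) ^ 2 * ((p : ℝ) - 1)) * ((s : ℝ) ^ 2 * ((s : ℝ) - 1))) := by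
  classical
  have hp1 : (0 : ℝ) < (p : ℝ) - 1 := by
    have : (1 : ℝ) < p := by exact_mod_cast (Fact.out : p.Prime).one_lt
    linarith
  have hs1 : (0 : ℝ) < (s : ℝ) - 1 := by
    have : (1 : ℝ) < s := by exact_mod_cast (Fact.out : s.Prime).one_lt
    linarith
  have hp0 : (0 : ℝ) < p := by linarith
  have hs0 : (0 : ℝ) < s := by linarith
  have h1 := congrArg norm (pair_expand M P hp hs g g')
  rw [Complex.norm_real, Real.norm_eq_abs] at h1
  rw [h1, norm_mul, norm_mul]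
  have n1 : ‖(1 / ((p : ℂ) ^ 2 * ((p : ℂ) - 1)))‖ = 1 / ((p : ℝ) ^ 2 * ((p : ℝ) - 1)) := by
    have : (1 / ((p : ℂ) ^ 2 * ((p : ℂ) - 1))) = ((1 / ((p : ℝ) ^ 2 * ((p : ℝ) - 1)) : ℝ) : ℂ) := by push_cast; rfl
    rw [this, Complex.norm_real, Real.norm_eq_abs, abs_of_pos (by positivity)]
  have n2 : ‖(1 / ((s : ℂ) ^ 2 * ((s : ℂ) - 1)))‖ = 1 / ((s : ℝ) ^ 2 * ((s : ℝ) - 1)) := by
    have : (1 / ((s : ℂ) ^ 2 * ((s : ℂ) - 1))) = ((1 / ((s : ℝ) ^ 2 * ((s : ℝ) - 1)) : ℝ) : ℂ) := by push_cast; rfl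
    rw [this, Complex.norm_real, Real.norm_eq_abs, abs_of_pos (by positivity)]
  rw [n1, n2]
  have h2 : ‖∑ τ ∈ TT g, ∑ τ' ∈ TT g', ∏ i, ((M : ℂ) * nu M P (lam M p (vec g τ i) + lam M s (vec g' τ' i)))‖
      ≤ ((M : ℝ) * P) ^ Fintype.card ι * PC M P g g' := by
    refine (norm_sum_le _ _).trans ?_
    unfold PC
    push_cast
    rw [Finset.mul_sum]
    apply Finset.sum_le_sum
    intro τ _
    refine (norm_sum_le _ _).trans ?_
    have h3 : ∀ τ' ∈ TT g', ‖∏ i, ((M : ℂ) * nu M P (lam M p (vec g τ i) + lam M s (vec g' τ' i)))‖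
        ≤ if (∀ i, nu M P (lam M p (vec g τ i) + lam M s (vec g' τ' i)) ≠ 0)
          then ((M : ℝ) * P) ^ Fintype.card ι else 0 := by
      intro τ' _
      split_ifs with hc
      · rw [norm_prod, ← Finset.card_univ, ← Finset.prod_const]
        apply Finset.prod_le_prod
        · intro i _; positivity
        · intro i _
          rw [norm_mul, Complex.norm_natCast, Complex.norm_natCast]
          have := nu_le M P hPM (lam M p (vec g τ i) + lam M s (vec g' τ' i))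
          have h4 : (nu M P (lam M p (vec g τ i) + lam M s (vec g' τ' i)) : ℝ) ≤ P := by exact_mod_cast this
          gcongr
      · push Not at hc
        obtain ⟨i, hi⟩ := hc
        rw [Finset.prod_eq_zero (Finset.mem_univ i) (by rw [hi]; simp), norm_zero]
    refine (Finset.sum_le_sum h3).trans (le_of_eq ?_)
    rw [← Finset.sum_filter, Finset.sum_const, nsmul_eq_mul, mul_comm]
  calc 1 / ((p : ℝ) ^ 2 * ((p : ℝ) - 1)) * (1 / ((s : ℝ) ^ 2 * ((s : ℝ) - 1))) *
      ‖∑ τ ∈ TT g, ∑ τ' ∈ TT g', ∏ i, ((M : ℂ) * nu M P (lam M p (vec g τ i) + lam M s (vec g' τ' i)))‖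
      ≤ 1 / ((p : ℝ) ^ 2 * ((p : ℝ) - 1)) * (1 / ((s : ℝ) ^ 2 * ((s : ℝ) - 1))) *
        (((M : ℝ) * P) ^ Fintype.card ι * PC M P g g') := by gcongr
    _ = _ := by field_simp

end expand

end Pool.Agent.H427.AS
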