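import Pool.Agent.H427.AS.Max

/-!
# Surfaces containing a curve: the traces
-/

set_option autoImplicit false
set_option linter.all false

namespace Pool.Agent.H427.AS

open Finset MvPolynomial

variable {r d : ℕ}

/-- the form `∑ Q_j A_j`, where `c` are the coefficients of the forms `A_j` of degree `d` -/
noncomputable def surface (Q : Fin r → MvPolynomial (Fin 4) ℤ) (c : Fin r × Sym (Fin 4) d → ℤ) :
    MvPolynomial (Fin 4) ℤ :=
  ∑ j, Q j * ∑ m : Sym (Fin 4) d, C (c (j, m)) * ((m : Multiset (Fin 4)).map X).prod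

/-- the number of points over `F_p` of a projective scheme -/
noncomputable def points {κ : Type} (S : κ → MvPolynomial (Fin 4) ℤ) (p : ℕ) : ℝ :=
  (Nat.card {v : Fin 4 → ZMod p // v ≠ 0 ∧ ∀ i, aeval v (S i) = 0} : ℝ) / (p - 1)

/-- the trace -/
noncomputable def trace (F : MvPolynomial (Fin 4) ℤ) (p : ℕ) : ℝ :=
  points (fun _ : Unit => F) p - p ^ 2 - 1

/-- the values of the basis of the linear system -/
noncomputable def gg (Q : Fin r → MvPolynomial (Fin 4) ℤ) (d p : ℕ) (v : Fin 4 → ZMod p) :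
    Fin r × Sym (Fin 4) d → ZMod p :=
  fun jm => aeval v (Q jm.1) * ((jm.2 : Multiset (Fin 4)).map v).prod

theorem aeval_surface (Q : Fin r → MvPolynomial (Fin 4) ℤ) (p : ℕ) [Fact p.Prime] (c : Fin r × Sym (Fin 4) d → ℤ)
    (v : Fin 4 → ZMod p) : aeval v (surface Q c) = dot (red p c) (gg Q d p v) := by
  unfold surface dot gg red
  rw [map_sum, Fintype.sum_prod_type]
  apply Finset.sum_congr rfl
  intro j _
  rw [map_mul, map_sum, Finset.mul_sum]
  apply Finset.sum_congr rfl
  intro m _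
  rw [map_mul, aeval_C, map_multiset_prod, Multiset.map_map]
  have : ((m : Multiset (Fin 4)).map ((aeval v : MvPolynomial (Fin 4) ℤ →ₐ[ℤ] ZMod p) ∘ X)) = (m : Multiset (Fin 4)).map v := by
    apply Multiset.map_congr rfl
    intro i _
    simp
  rw [this]
  simp only [algebraMap_int_eq, eq_intCast]
  ring

section prime

variable {p : ℕ} [Fact p.Prime]

theorem gg_zero (Q : Fin r → MvPolynomial (Fin 4) ℤ) (v : Fin 4 → ZMod p) (hv : v ≠ 0) :
    gg Q d p v = 0 ↔ ∀ j, aeval v (Q j) = 0 := by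
  constructor
  · intro h j
    obtain ⟨i, hi⟩ : ∃ i, v i ≠ 0 := by
      by_contra h
      push Not at h
      exact hv (funext h)
    have h1 := congrFun h (j, Sym.replicate d i)
    simp only [gg, Pi.zero_apply, Sym.coe_replicate, Multiset.map_replicate, Multiset.prod_replicate] at h1
    rcases mul_eq_zero.1 h1 with h2 | h2
    · exact h2
    · exact absurd h2 (pow_ne_zero _ hi)
  · intro h
    funext jm
    simp [gg, h]

theorem gg_sep (hd : d ≠ 0) (Q : Fin r → MvPolynomial (Fin 4) ℤ) (v w : Fin 4 → ZMod p) (hv : v ≠ 0)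
    (hgv : gg Q d p v ≠ 0) (hgw : gg Q d p w ≠ 0)
    (h : ∃ t : ZMod p, gg Q d p w = fun i => t * gg Q d p v i) : ∃ t : ZMod p, w = fun i => t * v i := by
  by_contra hcon
  push Not at hcon
  obtain ⟨t, ht⟩ := h
  -- a form of degree `d` with the values `1` and `0`
  obtain ⟨c, hc⟩ := ev2_surj (d := d) hd v w hv hcon (1, 0)
  have hc1 : ev c v = 1 := congrArg Prod.fst hc
  have hc2 : ev c w = 0 := congrArg Prod.snd hc
  have h1 : ∀ j, t * aeval v (Q j) = 0 := by
    intro j
    have e1 : aeval w (Q j) * ev c w = t * (aeval v (Q j) * ev c v) := by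
      unfold ev
      rw [Finset.mul_sum, Finset.mul_sum, Finset.mul_sum]
      apply Finset.sum_congr rfl
      intro m _
      have := congrFun ht (j, m)
      simp only [gg] at this
      linear_combination c m * this
    rw [hc1, hc2, mul_zero, mul_one] at e1
    exact e1.symm
  have h2 : ∃ j, aeval v (Q j) ≠ 0 := by
    by_contra hh
    push Not at hh
    exact hgv ((gg_zero Q v hv).2 hh)
  obtain ⟨j, hj⟩ := h2
  have h3 : t = 0 := by
    rcases mul_eq_zero.1 (h1 j) with h | h
    · exact h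
    · exact absurd h hj
  apply hgw
  rw [ht, h3]
  funext i
  simp

end prime

/-- the functions `phi` -/
noncomputable def ph (Q : Fin r → MvPolynomial (Fin 4) ℤ) (d p : ℕ) (c : Fin r × Sym (Fin 4) d → ZMod p) : ℝ :=
  if h : p.Prime then
    haveI : Fact p.Prime := ⟨h⟩
    phi (gg Q d p) c
  else 0

theorem good_ph (hd : d ≠ 0) (Q : Fin r → MvPolynomial (Fin 4) ℤ) (p : ℕ) (hp : p.Prime) :
    IsGood p (ph Q d p) := by
  haveI : Fact p.Prime := ⟨hp⟩
  refine ⟨inferInstance, ?_, ?_⟩
  · have := sum_phi (gg Q d p)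
    simp only [ph, hp, dif_pos]
    exact this
  · have := sum_phi_sq (gg Q d p) (fun v w hv h1 h2 h3 => gg_sep hd Q v w hv h1 h2 h3)
    simp only [ph, hp, dif_pos]
    rw [ZMod.card] at this
    exact this

theorem trace_eq (Q : Fin r → MvPolynomial (Fin 4) ℤ) (p : ℕ) (hp : p.Prime)
    (c : Fin r × Sym (Fin 4) d → ℤ) :
    trace (surface Q c) p / p - 1 =
      1 / (p : ℝ) ^ 2 + points Q p / p - points Q p / (p : ℝ) ^ 2 + ph Q d p (red p c) := by
  haveI : Fact p.Prime := ⟨hp⟩
  classical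
  set b : ℝ := (((Finset.univ : Finset (Fin 4 → ZMod p)).filter (fun v => v ≠ 0 ∧ gg Q d p v = 0)).card : ℝ) with hb
  have h1 : (Nat.card {v : Fin 4 → ZMod p // v ≠ 0 ∧ ∀ i : Unit, aeval v (surface Q c) = 0} : ℝ)
      = b + Y (gg Q d p) (red p c) := by
    have h2 : Nat.card {v : Fin 4 → ZMod p // v ≠ 0 ∧ ∀ i : Unit, aeval v (surface Q c) = 0}
        = ((Finset.univ : Finset (Fin 4 → ZMod p)).filter
          (fun v => v ≠ 0 ∧ ∀ i : Unit, aeval v (surface Q c) = 0)).card := by
      rw [Nat.card_eq_fintype_card, Fintype.card_subtype]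
    have h3 : (Finset.univ : Finset (Fin 4 → ZMod p)).filter
          (fun v => v ≠ 0 ∧ ∀ i : Unit, aeval v (surface Q c) = 0)
        = ((Finset.univ : Finset (Fin 4 → ZMod p)).filter (fun v => v ≠ 0 ∧ gg Q d p v = 0))
          ∪ ((UU (gg Q d p)).filter (fun v => dot (red p c) (gg Q d p v) = 0)) := by
      ext v
      simp only [Finset.mem_filter, Finset.mem_univ, true_and, Finset.mem_union, UU, aeval_surface]
      constructor
      · rintro ⟨h4, h5⟩
        by_cases h6 : gg Q d p v = 0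
        · exact Or.inl ⟨h4, h6⟩
        · exact Or.inr ⟨⟨h4, h6⟩, h5 ()⟩
      · rintro (⟨h4, h5⟩ | ⟨⟨h4, h5⟩, h6⟩)
        · exact ⟨h4, fun _ => by rw [h5]; simp [dot]⟩
        · exact ⟨h4, fun _ => h6⟩
    have hdis : Disjoint ((Finset.univ : Finset (Fin 4 → ZMod p)).filter (fun v => v ≠ 0 ∧ gg Q d p v = 0))
        ((UU (gg Q d p)).filter (fun v => dot (red p c) (gg Q d p v) = 0)) := by
      rw [Finset.disjoint_left]
      intro v hv hv'
      exact (Finset.mem_filter.1 (Finset.mem_filter.1 hv').1).2.2 (Finset.mem_filter.1 hv).2.2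
    rw [h2, h3, Finset.card_union_of_disjoint hdis]
    push_cast
    rw [hb]
    congr 1
    unfold Y
    rw [Finset.sum_ite]
    simp
  have h4 : (Nat.card {v : Fin 4 → ZMod p // v ≠ 0 ∧ ∀ i, aeval v (Q i) = 0} : ℝ) = b := by
    have h2 : Nat.card {v : Fin 4 → ZMod p // v ≠ 0 ∧ ∀ i, aeval v (Q i) = 0}
        = ((Finset.univ : Finset (Fin 4 → ZMod p)).filter
          (fun v => v ≠ 0 ∧ ∀ i, aeval v (Q i) = 0)).card := by
      rw [Nat.card_eq_fintype_card, Fintype.card_subtype]
    rw [h2, hb]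
    congr 2
    ext v
    simp only [Finset.mem_filter, Finset.mem_univ, true_and]
    constructor
    · rintro ⟨a, b⟩; exact ⟨a, (gg_zero Q v a).2 b⟩
    · rintro ⟨a, b⟩; exact ⟨a, (gg_zero Q v a).1 b⟩
  have h5 : b + ((UU (gg Q d p)).card : ℝ) = (p : ℝ) ^ 4 - 1 := by
    have h6 := card_nz (K := ZMod p)
    rw [ZMod.card] at h6
    rw [← h6, hb]
    have h7 : (Finset.univ : Finset (Fin 4 → ZMod p)).filter (fun v => v ≠ 0)
        = ((Finset.univ : Finset (Fin 4 → ZMod p)).filter (fun v => v ≠ 0 ∧ gg Q d p v = 0))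
          ∪ (UU (gg Q d p)) := by
      ext v
      simp only [Finset.mem_filter, Finset.mem_univ, true_and, Finset.mem_union, UU]
      tauto
    have hdis : Disjoint ((Finset.univ : Finset (Fin 4 → ZMod p)).filter (fun v => v ≠ 0 ∧ gg Q d p v = 0))
        (UU (gg Q d p)) := by
      rw [Finset.disjoint_left]
      intro v hv hv'
      exact (Finset.mem_filter.1 hv').2.2 (Finset.mem_filter.1 hv).2.2
    rw [h7, Finset.card_union_of_disjoint hdis]
    push_cast
    ring
  unfold trace points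
  simp only [ph, hp, dif_pos]
  rw [h1, h4]
  unfold phi
  rw [ZMod.card]
  have hp2 : (2 : ℝ) ≤ p := by exact_mod_cast hp.two_le
  have e1 : (p : ℝ) ≠ 0 := by linarith
  have e2 : (p : ℝ) - 1 ≠ 0 := by
    have : (0 : ℝ) < (p : ℝ) - 1 := by linarith
    exact this.ne'
  have h6 : ((UU (gg Q d p)).card : ℝ) = (p : ℝ) ^ 4 - 1 - b := by linarith
  rw [h6]
  field_simp
  ring

/-- the sum over the primes up to `T` -/
theorem sum_small (δ : ℝ) (hδ : 0 < δ) (M : ℝ) (hM : 0 ≤ M) (T : ℕ) (hT : 1 ≤ T) (E : ℕ → ℝ)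
    (hE : ∀ p : ℕ, p.Prime → |E p| ≤ M / Real.sqrt p) :
    |∑ p ∈ (Finset.range (T + 1)).filter Nat.Prime, Real.log p * E p|
      ≤ 2 * M / δ * (T : ℝ) ^ (1 / 2 + δ) := by
  have hT' : (1 : ℝ) ≤ T := by exact_mod_cast hT
  have hT0 : (0 : ℝ) < T := by linarith
  have hlT : 0 ≤ Real.log T := Real.log_nonneg hT'
  have hsq : ∀ n : ℕ, ∑ k ∈ Finset.Icc 1 n, 1 / Real.sqrt k ≤ 2 * Real.sqrt n := by
    intro n
    induction n with
    | zero => simp
    | succ n ih =>
      rw [Finset.sum_Icc_succ_top (by omega)]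
      have h0 : (0 : ℝ) < Real.sqrt ((n + 1 : ℕ) : ℝ) := Real.sqrt_pos.2 (by positivity)
      have h1 : Real.sqrt ((n + 1 : ℕ) : ℝ) ^ 2 = (n : ℝ) + 1 := by
        rw [Real.sq_sqrt (by positivity)]; push_cast; ring
      have h2 : Real.sqrt (n : ℝ) ^ 2 = (n : ℝ) := Real.sq_sqrt (by positivity)
      have h3 : 1 / Real.sqrt ((n + 1 : ℕ) : ℝ) ≤ 2 * (Real.sqrt ((n + 1 : ℕ) : ℝ) - Real.sqrt (n : ℝ)) := by
        rw [div_le_iff₀ h0]
        nlinarith [sq_nonneg (Real.sqrt ((n + 1 : ℕ) : ℝ) - Real.sqrt (n : ℝ))]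
      linarith
  calc |∑ p ∈ (Finset.range (T + 1)).filter Nat.Prime, Real.log p * E p|
      ≤ ∑ p ∈ (Finset.range (T + 1)).filter Nat.Prime, Real.log T * M * (1 / Real.sqrt p) := by
        refine (Finset.abs_sum_le_sum_abs _ _).trans ?_
        apply Finset.sum_le_sum
        intro p hp
        have hp' := (Finset.mem_filter.1 hp).2
        have hpT := Finset.mem_range.1 (Finset.mem_filter.1 hp).1
        have h1 : 0 ≤ Real.log p := Real.log_nonneg (by exact_mod_cast hp'.one_lt.le)
        have h2 : Real.log p ≤ Real.log T := by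
          apply Real.log_le_log (by exact_mod_cast hp'.pos)
          exact_mod_cast (by omega : p ≤ T)
        rw [abs_mul, abs_of_nonneg h1]
        calc Real.log p * |E p| ≤ Real.log T * (M / Real.sqrt p) := by
              have := hE p hp'
              gcongr
          _ = _ := by ring
    _ ≤ ∑ p ∈ Finset.Icc 1 T, Real.log T * M * (1 / Real.sqrt p) := by
        apply Finset.sum_le_sum_of_subset_of_nonneg
        · intro p hp
          rw [Finset.mem_filter, Finset.mem_range] at hp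
          rw [Finset.mem_Icc]
          exact ⟨hp.2.pos, by omega⟩
        · intro p _ _; positivity
    _ = Real.log T * M * ∑ p ∈ Finset.Icc 1 T, (1 / Real.sqrt p) := by rw [Finset.mul_sum]
    _ ≤ Real.log T * M * (2 * Real.sqrt T) := by
        have := hsq T
        gcongr
    _ ≤ ((T : ℝ) ^ δ / δ) * M * (2 * Real.sqrt T) := by
        have := Real.log_le_rpow_div hT0.le hδ
        gcongr
    _ = _ := by
        rw [Real.sqrt_eq_rpow, Real.rpow_add hT0]
        ring

end Pool.Agent.H427.AS
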