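import Pool.Agent.H427.AS.Box

/-!
# The mean square of sums of periodic functions over boxes
-/

set_option autoImplicit false
set_option linter.all false

namespace Pool.Agent.H427.AS

open Finset

variable {ι : Type} [Fintype ι] [DecidableEq ι]

/-- reduction modulo `p` -/
def red (p : ℕ) (c : ι → ℤ) : ι → ZMod p := fun i => (c i : ZMod p)

theorem red_eq_iff (p : ℕ) (c v : ι → ℤ) : red p c = red p v ↔ ∀ i, c i ≡ v i [ZMOD p] := by
  unfold red
  rw [funext_iff]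
  refine forall_congr' fun i => ?_
  rw [ZMod.intCast_eq_intCast_iff]

theorem count_same (H p : ℕ) (hp : 0 < p) (hpH : p ≤ 2 * H + 1) (a : ι → ZMod p) :
    (((Box ι H).filter (fun c => red p c = a)).card : ℝ) ≤
      (1 + 2 ^ Fintype.card ι) * (((2 * H + 1 : ℕ) : ℝ) / p) ^ Fintype.card ι := by
  have hv : ∃ v : ι → ℤ, red p v = a := by
    refine ⟨fun i => ((a i).cast : ℤ), ?_⟩
    funext i
    simp [red]
  obtain ⟨v, rfl⟩ := hv
  have h1 := count_box H p hp hpH v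
  simp only [red_eq_iff]
  have hpr : (0 : ℝ) < p := by exact_mod_cast hp
  have hX : (1 : ℝ) ≤ ((2 * H + 1 : ℕ) : ℝ) / p := by
    rw [le_div_iff₀ hpr, one_mul]; exact_mod_cast hpH
  have h2 : ((((2 * H + 1 : ℕ) : ℝ) / p) ^ Fintype.card ι / (((2 * H + 1 : ℕ) : ℝ) / p))
      ≤ (((2 * H + 1 : ℕ) : ℝ) / p) ^ Fintype.card ι := by
    apply div_le_self _ hX
    positivity
  have h3 := (abs_le.1 h1).2
  have h4 : (2 : ℝ) ^ Fintype.card ι * ((((2 * H + 1 : ℕ) : ℝ) / p) ^ Fintype.card ι / (((2 * H + 1 : ℕ) : ℝ) / p))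
      ≤ 2 ^ Fintype.card ι * (((2 * H + 1 : ℕ) : ℝ) / p) ^ Fintype.card ι := by
    gcongr
  linarith

theorem count_two (H p r : ℕ) (hp : 0 < p) (hr : 0 < r) (hpr : Nat.Coprime p r)
    (hpH : p * r ≤ 2 * H + 1) (a : ι → ZMod p) (b : ι → ZMod r) :
    |(((Box ι H).filter (fun c => red p c = a ∧ red r c = b)).card : ℝ)
      - (((2 * H + 1 : ℕ) : ℝ) / ((p : ℝ) * r)) ^ Fintype.card ι|
      ≤ 2 ^ Fintype.card ι * ((((2 * H + 1 : ℕ) : ℝ) / ((p : ℝ) * r)) ^ Fintype.card ι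
        / (((2 * H + 1 : ℕ) : ℝ) / ((p : ℝ) * r))) := by
  have hv : ∃ v : ι → ℤ, red p v = a ∧ red r v = b := by
    have h1 : ∀ i, ∃ k : ℤ, (k : ZMod p) = a i ∧ (k : ZMod r) = b i := by
      intro i
      haveI : NeZero p := ⟨hp.ne'⟩
      haveI : NeZero r := ⟨hr.ne'⟩
      refine ⟨((Nat.chineseRemainder hpr (a i).val (b i).val : ℕ) : ℤ), ?_, ?_⟩
      · have := (Nat.chineseRemainder hpr (a i).val (b i).val).2.1
        rw [← ZMod.natCast_eq_natCast_iff] at this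
        rw [Int.cast_natCast, this, ZMod.natCast_zmod_val]
      · have := (Nat.chineseRemainder hpr (a i).val (b i).val).2.2
        rw [← ZMod.natCast_eq_natCast_iff] at this
        rw [Int.cast_natCast, this, ZMod.natCast_zmod_val]
    choose v hv using h1
    exact ⟨v, funext fun i => (hv i).1, funext fun i => (hv i).2⟩
  obtain ⟨v, rfl, rfl⟩ := hv
  have h1 := count_box H (p * r) (Nat.mul_pos hp hr) hpH v
  have h2 : (Box ι H).filter (fun c => red p c = red p v ∧ red r c = red r v)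
      = (Box ι H).filter (fun c => ∀ i, c i ≡ v i [ZMOD (p * r : ℕ)]) := by
    apply Finset.filter_congr
    intro c _
    rw [red_eq_iff, red_eq_iff, ← forall_and]
    refine forall_congr' fun i => ?_
    push_cast
    rw [Int.modEq_and_modEq_iff_modEq_mul]
    simpa using hpr
  rw [h2]
  push_cast at h1 ⊢
  exact h1

variable (P : Finset ℕ) (φ : ∀ p : ℕ, (ι → ZMod p) → ℝ)

/-- functions of mean zero and of mean square at most one -/
def IsGood (p : ℕ) (f : (ι → ZMod p) → ℝ) : Prop :=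
  ∃ _ : Fintype (ι → ZMod p), (∑ a, f a = 0) ∧ (∑ a, f a ^ 2 ≤ (p : ℝ) ^ Fintype.card ι)

theorem sum_box_one (H p : ℕ) (hp : 0 < p) (hpH : p ≤ 2 * H + 1) (f : (ι → ZMod p) → ℝ)
    [hf : Fintype (ι → ZMod p)] (h2 : ∑ a, f a ^ 2 ≤ (p : ℝ) ^ Fintype.card ι) :
    ∑ c ∈ Box ι H, f (red p c) ^ 2 ≤
      (1 + 2 ^ Fintype.card ι) * ((2 * H + 1 : ℕ) : ℝ) ^ Fintype.card ι := by
  classical
  have h3 : ∑ c ∈ Box ι H, f (red p c) ^ 2
      = ∑ a : ι → ZMod p, (((Box ι H).filter (fun c => red p c = a)).card : ℝ) * f a ^ 2 := by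
    rw [← Finset.sum_fiberwise (Box ι H) (fun c => red p c)]
    apply Finset.sum_congr rfl
    intro a _
    rw [Finset.sum_congr rfl (g := fun _ => f a ^ 2)]
    · rw [Finset.sum_const, nsmul_eq_mul]
    · intro c hc
      rw [(Finset.mem_filter.1 hc).2]
  rw [h3]
  have hpr : (0 : ℝ) < p := by exact_mod_cast hp
  calc ∑ a : ι → ZMod p, (((Box ι H).filter (fun c => red p c = a)).card : ℝ) * f a ^ 2
      ≤ ∑ a : ι → ZMod p, ((1 + 2 ^ Fintype.card ι) * (((2 * H + 1 : ℕ) : ℝ) / p) ^ Fintype.card ι) * f a ^ 2 := by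
        apply Finset.sum_le_sum
        intro a _
        exact mul_le_mul_of_nonneg_right (count_same H p hp hpH a) (sq_nonneg _)
    _ = ((1 + 2 ^ Fintype.card ι) * (((2 * H + 1 : ℕ) : ℝ) / p) ^ Fintype.card ι) * ∑ a, f a ^ 2 := by
        rw [Finset.mul_sum]
    _ ≤ ((1 + 2 ^ Fintype.card ι) * (((2 * H + 1 : ℕ) : ℝ) / p) ^ Fintype.card ι) * (p : ℝ) ^ Fintype.card ι := by
        gcongr
    _ = _ := by
        rw [mul_assoc, ← mul_pow, div_mul_cancel₀ _ hpr.ne']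

theorem sum_abs_le (p : ℕ) (f : (ι → ZMod p) → ℝ) (hp : 0 < p)
    [hf : Fintype (ι → ZMod p)] (h2 : ∑ a, f a ^ 2 ≤ (p : ℝ) ^ Fintype.card ι) :
    ∑ a, |f a| ≤ (p : ℝ) ^ Fintype.card ι := by
  classical
  haveI : NeZero p := ⟨hp.ne'⟩
  have hc : (Fintype.card (ι → ZMod p) : ℝ) = (p : ℝ) ^ Fintype.card ι := by
    have : Fintype.card (ι → ZMod p) = p ^ Fintype.card ι := by
      rw [Fintype.card_eq_nat_card, Nat.card_fun]; simp
    rw [this]; push_cast; ring
  have h3 : ∀ a, |f a| ≤ (1 + f a ^ 2) / 2 := by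
    intro a
    have := sq_nonneg (|f a| - 1)
    have h4 := sq_abs (f a)
    nlinarith
  calc ∑ a, |f a| ≤ ∑ a, (1 + f a ^ 2) / 2 := Finset.sum_le_sum (fun a _ => h3 a)
    _ = ((Fintype.card (ι → ZMod p) : ℝ) + ∑ a, f a ^ 2) / 2 := by
        rw [← Finset.sum_div, Finset.sum_add_distrib]
        simp
    _ ≤ _ := by rw [hc]; linarith

theorem sum_box_two (H p r : ℕ) (hp : 0 < p) (hr : 0 < r) (hpr : Nat.Coprime p r)
    (hpH : p * r ≤ 2 * H + 1) (f : (ι → ZMod p) → ℝ) (g : (ι → ZMod r) → ℝ)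
    [Fintype (ι → ZMod p)] [Fintype (ι → ZMod r)] (h0 : ∑ a, f a = 0)
    (h2 : ∑ a, f a ^ 2 ≤ (p : ℝ) ^ Fintype.card ι) (h2' : ∑ a, g a ^ 2 ≤ (r : ℝ) ^ Fintype.card ι) :
    |∑ c ∈ Box ι H, f (red p c) * g (red r c)| ≤
      2 ^ Fintype.card ι * ((2 * H + 1 : ℕ) : ℝ) ^ Fintype.card ι * (p * r) / ((2 * H + 1 : ℕ) : ℝ) := by
  classical
  have h3 : ∑ c ∈ Box ι H, f (red p c) * g (red r c)
      = ∑ ab : (ι → ZMod p) × (ι → ZMod r),
        (((Box ι H).filter (fun c => red p c = ab.1 ∧ red r c = ab.2)).card : ℝ) * (f ab.1 * g ab.2) := by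
    rw [← Finset.sum_fiberwise (Box ι H) (fun c => (red p c, red r c))]
    apply Finset.sum_congr rfl
    rintro ⟨a, b⟩ _
    rw [Finset.sum_congr rfl (g := fun _ => f a * g b)]
    · rw [Finset.sum_const, nsmul_eq_mul]
      simp only [Prod.mk.injEq]
    · intro c hc
      have h4 := (Finset.mem_filter.1 hc).2
      rw [Prod.mk.injEq] at h4
      rw [h4.1, h4.2]
  set X : ℝ := ((2 * H + 1 : ℕ) : ℝ) / ((p : ℝ) * r) with hX
  set n := Fintype.card ι with hn
  have h4 : ∑ ab : (ι → ZMod p) × (ι → ZMod r), X ^ n * (f ab.1 * g ab.2) = 0 := by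
    rw [← Finset.mul_sum, Fintype.sum_prod_type]
    simp only [← Finset.mul_sum, ← Finset.sum_mul]
    rw [h0]; simp
  have h5 : ∑ c ∈ Box ι H, f (red p c) * g (red r c)
      = ∑ ab : (ι → ZMod p) × (ι → ZMod r),
        ((((Box ι H).filter (fun c => red p c = ab.1 ∧ red r c = ab.2)).card : ℝ) - X ^ n) * (f ab.1 * g ab.2) := by
    rw [h3, ← sub_zero (∑ ab : (ι → ZMod p) × (ι → ZMod r),
        (((Box ι H).filter (fun c => red p c = ab.1 ∧ red r c = ab.2)).card : ℝ) * (f ab.1 * g ab.2)),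
      ← h4, ← Finset.sum_sub_distrib]
    apply Finset.sum_congr rfl
    intro ab _
    ring
  rw [h5]
  have hpp : (0 : ℝ) < p := by exact_mod_cast hp
  have hrr : (0 : ℝ) < r := by exact_mod_cast hr
  have hN : (0 : ℝ) < ((2 * H + 1 : ℕ) : ℝ) := by positivity
  calc |∑ ab : (ι → ZMod p) × (ι → ZMod r),
        ((((Box ι H).filter (fun c => red p c = ab.1 ∧ red r c = ab.2)).card : ℝ) - X ^ n) * (f ab.1 * g ab.2)|
      ≤ ∑ ab : (ι → ZMod p) × (ι → ZMod r), (2 ^ n * (X ^ n / X)) * (|f ab.1| * |g ab.2|) := by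
        refine (Finset.abs_sum_le_sum_abs _ _).trans ?_
        apply Finset.sum_le_sum
        intro ab _
        rw [abs_mul, abs_mul]
        exact mul_le_mul_of_nonneg_right (count_two H p r hp hr hpr hpH ab.1 ab.2) (by positivity)
    _ = (2 ^ n * (X ^ n / X)) * ((∑ a, |f a|) * (∑ b, |g b|)) := by
        rw [← Finset.mul_sum, Fintype.sum_prod_type]
        simp only [← Finset.mul_sum, ← Finset.sum_mul]
    _ ≤ (2 ^ n * (X ^ n / X)) * ((p : ℝ) ^ n * (r : ℝ) ^ n) := by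
        have e1 := sum_abs_le p f hp h2
        have e2 := sum_abs_le r g hr h2'
        gcongr
    _ = _ := by
        have e3 : X ^ n * ((p : ℝ) ^ n * (r : ℝ) ^ n) = ((2 * H + 1 : ℕ) : ℝ) ^ n := by
          rw [← mul_pow, ← mul_pow, hX, div_mul_cancel₀ _ (by positivity)]
        have e4 : (2 ^ n * (X ^ n / X)) * ((p : ℝ) ^ n * (r : ℝ) ^ n)
            = 2 ^ n * (X ^ n * ((p : ℝ) ^ n * (r : ℝ) ^ n)) / X := by
          ring
        rw [e4, e3, hX]
        field_simp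

/-- the mean square -/
theorem mean_square (H : ℕ) (hP : ∀ p ∈ P, p.Prime) (hPH : ∀ p ∈ P, ∀ r ∈ P, p * r ≤ 2 * H + 1)
    (x : ℕ → ℝ) (hφ : ∀ p ∈ P, IsGood p (φ p)) :
    ∑ c ∈ Box ι H, (∑ p ∈ P, x p * φ p (red p c)) ^ 2 ≤
      ((2 * H + 1 : ℕ) : ℝ) ^ Fintype.card ι * ((1 + 2 ^ Fintype.card ι) * ∑ p ∈ P, x p ^ 2
        + 2 ^ Fintype.card ι / ((2 * H + 1 : ℕ) : ℝ) * (∑ p ∈ P, p * |x p|) ^ 2) := by
  classical
  set n := Fintype.card ι with hn
  set N : ℝ := ((2 * H + 1 : ℕ) : ℝ) with hN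
  have hNp : 0 < N := by rw [hN]; positivity
  have h1 : ∑ c ∈ Box ι H, (∑ p ∈ P, x p * φ p (red p c)) ^ 2
      = ∑ p ∈ P, ∑ r ∈ P, x p * x r * ∑ c ∈ Box ι H, φ p (red p c) * φ r (red r c) := by
    have e0 : ∀ c ∈ Box ι H, (∑ p ∈ P, x p * φ p (red p c)) ^ 2
        = ∑ p ∈ P, ∑ r ∈ P, (x p * φ p (red p c)) * (x r * φ r (red r c)) := by
      intro c _
      rw [sq, Finset.sum_mul_sum]
    rw [Finset.sum_congr rfl e0, Finset.sum_comm]
    apply Finset.sum_congr rfl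
    intro p _
    rw [Finset.sum_comm]
    apply Finset.sum_congr rfl
    intro r _
    rw [Finset.mul_sum]
    apply Finset.sum_congr rfl
    intro c _
    ring
  rw [h1]
  have h2 : ∀ p ∈ P, ∀ r ∈ P, x p * x r * ∑ c ∈ Box ι H, φ p (red p c) * φ r (red r c)
      ≤ (if r = p then N ^ n * ((1 + 2 ^ n) * x p ^ 2) else 0)
        + N ^ n * (2 ^ n / N * ((p * |x p|) * (r * |x r|))) := by
    intro p hp r hr
    have hnn : 0 ≤ N ^ n * (2 ^ n / N * ((p * |x p|) * (r * |x r|))) := by positivity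
    obtain ⟨i1, g1, g2⟩ := hφ p hp
    obtain ⟨i2, g3, g4⟩ := hφ r hr
    by_cases h : r = p
    · subst h
      rw [if_pos rfl]
      have h3 := sum_box_one H r (hP r hr).pos ((Nat.le_mul_of_pos_right r (hP r hr).pos).trans
        (hPH r hr r hr)) (φ r) g2
      have h4 : x r * x r * ∑ c ∈ Box ι H, φ r (red r c) * φ r (red r c)
          ≤ N ^ n * ((1 + 2 ^ n) * x r ^ 2) := by
        have h5 : ∑ c ∈ Box ι H, φ r (red r c) * φ r (red r c) = ∑ c ∈ Box ι H, φ r (red r c) ^ 2 := by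
          apply Finset.sum_congr rfl; intro c _; ring
        rw [h5, ← sq]
        calc x r ^ 2 * ∑ c ∈ Box ι H, φ r (red r c) ^ 2
            ≤ x r ^ 2 * ((1 + 2 ^ n) * N ^ n) := by gcongr
          _ = _ := by ring
      linarith
    · rw [if_neg h, zero_add]
      have h3 := sum_box_two H p r (hP p hp).pos (hP r hr).pos
        ((Nat.coprime_primes (hP p hp) (hP r hr)).2 (fun e => h e.symm)) (hPH p hp r hr) (φ p) (φ r) g1 g2 g4
      calc x p * x r * ∑ c ∈ Box ι H, φ p (red p c) * φ r (red r c)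
          ≤ |x p * x r * ∑ c ∈ Box ι H, φ p (red p c) * φ r (red r c)| := le_abs_self _
        _ = |x p| * |x r| * |∑ c ∈ Box ι H, φ p (red p c) * φ r (red r c)| := by
            rw [abs_mul, abs_mul]
        _ ≤ |x p| * |x r| * (2 ^ n * N ^ n * (p * r) / N) := by gcongr
        _ = _ := by ring
  calc ∑ p ∈ P, ∑ r ∈ P, x p * x r * ∑ c ∈ Box ι H, φ p (red p c) * φ r (red r c)
      ≤ ∑ p ∈ P, ∑ r ∈ P, ((if r = p then N ^ n * ((1 + 2 ^ n) * x p ^ 2) else 0)
        + N ^ n * (2 ^ n / N * ((p * |x p|) * (r * |x r|)))) :=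
        Finset.sum_le_sum fun p hp => Finset.sum_le_sum fun r hr => h2 p hp r hr
    _ = _ := by
        simp only [Finset.sum_add_distrib]
        rw [mul_add]
        congr 1
        · rw [Finset.mul_sum, Finset.mul_sum]
          apply Finset.sum_congr rfl
          intro p hp
          rw [Finset.sum_ite_eq', if_pos hp]
        · rw [sq, Finset.sum_mul_sum, Finset.mul_sum, Finset.mul_sum]
          apply Finset.sum_congr rfl
          intro p _
          rw [Finset.mul_sum, Finset.mul_sum]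

end Pool.Agent.H427.AS
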