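import Pool.Agent.H427.AS.Surf
import Pool.Agent.H427.AS.Var

/-!
# The variance of the number of zeros in a linear system
-/

set_option autoImplicit false
set_option linter.all false

namespace Pool.Agent.H427.AS

open Finset

section lin

variable {K : Type} [Field K] {ι : Type} [Fintype ι] [DecidableEq ι]

/-- the pairing -/
def dot (c a : ι → K) : K := ∑ i, c i * a i

theorem dot_add (c e a : ι → K) : dot (c + e) a = dot c a + dot e a := by
  simp [dot, add_mul, Finset.sum_add_distrib]

theorem dot_single (i : ι) (t : K) (a : ι → K) : dot (Pi.single i t) a = t * a i := by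
  unfold dot
  rw [Finset.sum_eq_single i]
  · rw [Pi.single_eq_same]
  · intro j _ hj
    rw [Pi.single_eq_of_ne hj, zero_mul]
  · intro h; exact absurd (Finset.mem_univ i) h

/-- pairing with one vector -/
def dot1 (a : ι → K) : (ι → K) →+ K where
  toFun c := dot c a
  map_zero' := by simp [dot]
  map_add' x y := dot_add x y a

/-- pairing with two vectors -/
def dot2 (a b : ι → K) : (ι → K) →+ K × K := (dot1 a).prod (dot1 b)

theorem dot1_surj (a : ι → K) (ha : a ≠ 0) : Function.Surjective (dot1 a) := by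
  obtain ⟨i, hi⟩ : ∃ i, a i ≠ 0 := by
    by_contra h
    push Not at h
    exact ha (funext h)
  intro t
  refine ⟨Pi.single i (t / a i), ?_⟩
  show dot _ _ = _
  rw [dot_single, div_mul_cancel₀ _ hi]

theorem dot2_surj (a b : ι → K) (ha : a ≠ 0) (hb : ∀ t : K, b ≠ fun i => t * a i) :
    Function.Surjective (dot2 a b) := by
  obtain ⟨i, hi⟩ : ∃ i, a i ≠ 0 := by
    by_contra h
    push Not at h
    exact ha (funext h)
  obtain ⟨j, hj⟩ : ∃ j, a i * b j - a j * b i ≠ 0 := by
    by_contra h
    push Not at h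
    apply hb (b i / a i)
    funext j
    have := h j
    field_simp
    linear_combination this
  set D := a i * b j - a j * b i with hD
  rintro ⟨s, t⟩
  refine ⟨Pi.single i ((s * b j - t * a j) / D) + Pi.single j ((t * a i - s * b i) / D), ?_⟩
  apply Prod.ext
  · show dot _ a = s
    rw [dot_add, dot_single, dot_single]
    have : (s * b j - t * a j) / D * a i + (t * a i - s * b i) / D * a j
        = s * ((a i * b j - a j * b i) / D) := by ring
    rw [this, ← hD, div_self hj, mul_one]
  · show dot _ b = t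
    rw [dot_add, dot_single, dot_single]
    have : (s * b j - t * a j) / D * b i + (t * a i - s * b i) / D * b j
        = t * ((a i * b j - a j * b i) / D) := by ring
    rw [this, ← hD, div_self hj, mul_one]

end lin

variable {K : Type} [Field K] [Fintype K] [DecidableEq K] {ι : Type} [Fintype ι] [DecidableEq ι]

/-- the points outside the base locus -/
def UU (g : (Fin 4 → K) → (ι → K)) : Finset (Fin 4 → K) :=
  (Finset.univ : Finset (Fin 4 → K)).filter (fun v => v ≠ 0 ∧ g v ≠ 0)

/-- the number of the zeros outside the base locus -/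
def Y (g : (Fin 4 → K) → (ι → K)) (c : ι → K) : ℝ :=
  ∑ v ∈ UU g, (if dot c (g v) = 0 then (1 : ℝ) else 0)

theorem card_V : (Fintype.card (ι → K) : ℝ) = (Fintype.card K : ℝ) ^ Fintype.card ι := by
  rw [Fintype.card_fun]; push_cast; ring

theorem card_nz : (((Finset.univ : Finset (Fin 4 → K)).filter (fun v => v ≠ 0)).card : ℝ)
    = (Fintype.card K : ℝ) ^ 4 - 1 := by
  have h : ((Finset.univ : Finset (Fin 4 → K)).filter (fun v => v ≠ 0)).card + 1
      = (Fintype.card K) ^ 4 := by
    have h1 : (Finset.univ : Finset (Fin 4 → K)).filter (fun v => v ≠ 0) = Finset.univ.erase 0 := by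
      ext v; simp
    rw [h1, Finset.card_erase_add_one (Finset.mem_univ _), Finset.card_univ]
    simp
  have h2 : ((((Finset.univ : Finset (Fin 4 → K)).filter (fun v => v ≠ 0)).card + 1 : ℕ) : ℝ)
      = ((Fintype.card K ^ 4 : ℕ) : ℝ) := by rw [h]
  push_cast at h2
  linarith

theorem count1 (a : ι → K) (ha : a ≠ 0) :
    (∑ c : ι → K, (if dot c a = 0 then (1 : ℝ) else 0)) * Fintype.card K
      = (Fintype.card K : ℝ) ^ Fintype.card ι := by
  have h1 := card_ker (dot1 a) (dot1_surj a ha)
  rw [← card_V, ← h1]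
  push_cast
  congr 1
  rw [Finset.sum_ite]
  simp [dot1]

theorem count2 (a b : ι → K) (ha : a ≠ 0) [Decidable (∃ t : K, b = fun i => t * a i)] :
    (∑ c : ι → K, (if dot c a = 0 then (1 : ℝ) else 0) * (if dot c b = 0 then (1 : ℝ) else 0))
        * (Fintype.card K : ℝ) ^ 2
      ≤ (Fintype.card K : ℝ) ^ Fintype.card ι
        * (1 + (if ∃ t : K, b = fun i => t * a i then (Fintype.card K : ℝ) - 1 else 0)) := by
  classical
  have hK : (0 : ℝ) ≤ Fintype.card K := by positivity
  by_cases h : ∃ t : K, b = fun i => t * a i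
  · rw [if_pos h]
    have h1 := count1 a ha
    have h2 : ∑ c : ι → K, (if dot c a = 0 then (1 : ℝ) else 0) * (if dot c b = 0 then (1 : ℝ) else 0)
        ≤ ∑ c : ι → K, (if dot c a = 0 then (1 : ℝ) else 0) := by
      apply Finset.sum_le_sum
      intro c _
      split_ifs <;> norm_num
    calc _ ≤ (∑ c : ι → K, (if dot c a = 0 then (1 : ℝ) else 0)) * (Fintype.card K : ℝ) ^ 2 := by
          gcongr
      _ = ((∑ c : ι → K, (if dot c a = 0 then (1 : ℝ) else 0)) * (Fintype.card K : ℝ))
          * (Fintype.card K : ℝ) := by ring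
      _ = _ := by rw [h1]; ring
  · rw [if_neg h]
    push Not at h
    have h1 := card_ker (dot2 a b) (dot2_surj a b ha h)
    have h3 : (∑ c : ι → K, (if dot c a = 0 then (1 : ℝ) else 0) * (if dot c b = 0 then (1 : ℝ) else 0))
        = ((Finset.univ.filter (fun g => dot2 a b g = 0)).card : ℝ) := by
      have h4 : ∀ c : ι → K, (if dot c a = 0 then (1 : ℝ) else 0) * (if dot c b = 0 then (1 : ℝ) else 0)
          = if dot2 a b c = 0 then (1 : ℝ) else 0 := by
        intro c
        have h5 : dot2 a b c = 0 ↔ dot c a = 0 ∧ dot c b = 0 := by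
          show (dot c a, dot c b) = ((0, 0) : K × K) ↔ _
          rw [Prod.mk.injEq]
        by_cases x : dot c a = 0 <;> by_cases y : dot c b = 0 <;> simp [h5, x, y]
      rw [Finset.sum_congr rfl (fun c _ => h4 c), Finset.sum_ite]
      simp
    rw [h3, ← card_V, ← h1]
    push_cast
    rw [Fintype.card_prod]
    push_cast
    apply le_of_eq
    ring

open Classical in
theorem prop_count (v : Fin 4 → K) (hv : v ≠ 0) (s : Finset (Fin 4 → K)) (hs : ∀ w ∈ s, w ≠ 0) :
    ∑ w ∈ s, (if ∃ t : K, w = fun i => t * v i then (Fintype.card K : ℝ) - 1 else 0)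
      ≤ ((Fintype.card K : ℝ) - 1) ^ 2 := by
  have h1 : (1 : ℝ) ≤ Fintype.card K := by exact_mod_cast Fintype.card_pos
  rw [Finset.sum_ite, Finset.sum_const_zero, add_zero, Finset.sum_const, nsmul_eq_mul, sq]
  apply mul_le_mul_of_nonneg_right _ (by linarith)
  have h2 : (s.filter (fun w => ∃ t : K, w = fun i => t * v i))
      ⊆ (Finset.univ.erase (0 : K)).image (fun t => fun i => t * v i) := by
    intro w hw
    rw [Finset.mem_filter] at hw
    obtain ⟨h3, t, ht⟩ := hw
    rw [Finset.mem_image]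
    refine ⟨t, ?_, ht.symm⟩
    rw [Finset.mem_erase]
    refine ⟨?_, Finset.mem_univ _⟩
    rintro rfl
    apply hs w h3
    rw [ht]
    funext i
    simp
  have h3 := (Finset.card_le_card h2).trans Finset.card_image_le
  rw [Finset.card_erase_of_mem (Finset.mem_univ _), Finset.card_univ] at h3
  have h4 : ((Fintype.card K - 1 : ℕ) : ℝ) = (Fintype.card K : ℝ) - 1 := by
    rw [Nat.cast_sub Fintype.card_pos]; simp
  rw [← h4]
  exact_mod_cast h3

theorem sum_Y (g : (Fin 4 → K) → (ι → K)) : (∑ c : ι → K, Y g c) * Fintype.card K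
    = (Fintype.card K : ℝ) ^ Fintype.card ι * ((UU g).card : ℝ) := by
  unfold Y
  rw [Finset.sum_comm, Finset.sum_mul]
  rw [Finset.sum_congr rfl (g := fun _ => (Fintype.card K : ℝ) ^ Fintype.card ι)]
  · rw [Finset.sum_const, nsmul_eq_mul]
    ring
  · intro v hv
    exact count1 (g v) (Finset.mem_filter.1 hv).2.2

theorem sum_Y_sq (g : (Fin 4 → K) → (ι → K))
    (hg : ∀ v w, v ≠ 0 → g v ≠ 0 → g w ≠ 0 → (∃ t : K, g w = fun i => t * g v i) →
      ∃ t : K, w = fun i => t * v i) :
    (∑ c : ι → K, Y g c ^ 2) * (Fintype.card K : ℝ) ^ 2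
    ≤ (Fintype.card K : ℝ) ^ Fintype.card ι * (((UU g).card : ℝ)
      * (((UU g).card : ℝ) + ((Fintype.card K : ℝ) - 1) ^ 2)) := by
  classical
  have hK1 : (0 : ℝ) ≤ (Fintype.card K : ℝ) - 1 := by
    have : (1 : ℝ) ≤ Fintype.card K := by exact_mod_cast Fintype.card_pos
    linarith
  set S := UU g with hS
  set Q := (Fintype.card K : ℝ) ^ Fintype.card ι with hQ
  have hQ0 : 0 ≤ Q := by rw [hQ]; positivity
  have h1 : ∑ c : ι → K, Y g c ^ 2 = ∑ v ∈ S, ∑ w ∈ S, ∑ c : ι → K,
      (if dot c (g v) = 0 then (1 : ℝ) else 0) * (if dot c (g w) = 0 then (1 : ℝ) else 0) := by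
    have e0 : ∀ c ∈ (Finset.univ : Finset (ι → K)), Y g c ^ 2
        = ∑ v ∈ S, ∑ w ∈ S, (if dot c (g v) = 0 then (1 : ℝ) else 0) * (if dot c (g w) = 0 then (1 : ℝ) else 0) := by
      intro c _
      rw [Y, sq, Finset.sum_mul_sum]
    rw [Finset.sum_congr rfl e0, Finset.sum_comm]
    apply Finset.sum_congr rfl
    intro v _
    rw [Finset.sum_comm]
  rw [h1, Finset.sum_mul]
  calc ∑ v ∈ S, (∑ w ∈ S, ∑ c : ι → K,
      (if dot c (g v) = 0 then (1 : ℝ) else 0) * (if dot c (g w) = 0 then (1 : ℝ) else 0)) * (Fintype.card K : ℝ) ^ 2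
      ≤ ∑ v ∈ S, Q * ((S.card : ℝ) + ((Fintype.card K : ℝ) - 1) ^ 2) := by
        apply Finset.sum_le_sum
        intro v hv
        have hv' := (Finset.mem_filter.1 hv).2
        rw [Finset.sum_mul]
        calc ∑ w ∈ S, (∑ c : ι → K,
            (if dot c (g v) = 0 then (1 : ℝ) else 0) * (if dot c (g w) = 0 then (1 : ℝ) else 0)) * (Fintype.card K : ℝ) ^ 2
            ≤ ∑ w ∈ S, Q * (1 + (if ∃ t : K, w = fun i => t * v i then (Fintype.card K : ℝ) - 1 else 0)) := by
              apply Finset.sum_le_sum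
              intro w hw
              have hw' := (Finset.mem_filter.1 hw).2
              refine (count2 (g v) (g w) hv'.2).trans ?_
              apply mul_le_mul_of_nonneg_left _ hQ0
              by_cases hx : ∃ t : K, g w = fun i => t * g v i
              · rw [if_pos hx, if_pos (hg v w hv'.1 hv'.2 hw'.2 hx)]
              · rw [if_neg hx]
                split_ifs
                · linarith
                · linarith
          _ = Q * ((S.card : ℝ) + ∑ w ∈ S, (if ∃ t : K, w = fun i => t * v i then (Fintype.card K : ℝ) - 1 else 0)) := by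
              rw [← Finset.mul_sum, Finset.sum_add_distrib]
              simp
          _ ≤ _ := by
              have := prop_count v hv'.1 S (fun w hw => (Finset.mem_filter.1 hw).2.1)
              gcongr
    _ = _ := by
        rw [Finset.sum_const, nsmul_eq_mul]
        ring

/-- the normalised number of zeros -/
noncomputable def phi (g : (Fin 4 → K) → (ι → K)) (c : ι → K) : ℝ :=
  (Y g c - ((UU g).card : ℝ) / Fintype.card K)
    / ((Fintype.card K : ℝ) * ((Fintype.card K : ℝ) - 1))

theorem sum_phi (g : (Fin 4 → K) → (ι → K)) : ∑ c : ι → K, phi g c = 0 := by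
  have hK : (0 : ℝ) < Fintype.card K := by exact_mod_cast Fintype.card_pos
  unfold phi
  rw [← Finset.sum_div, Finset.sum_sub_distrib]
  have h1 : ∑ c : ι → K, Y g c
      = (Fintype.card K : ℝ) ^ Fintype.card ι * ((UU g).card : ℝ) / Fintype.card K := by
    rw [eq_div_iff hK.ne', sum_Y]
  rw [h1, Finset.sum_const, Finset.card_univ, nsmul_eq_mul, card_V]
  rw [mul_div_assoc, sub_self, zero_div]

theorem sum_phi_sq (g : (Fin 4 → K) → (ι → K))
    (hg : ∀ v w, v ≠ 0 → g v ≠ 0 → g w ≠ 0 → (∃ t : K, g w = fun i => t * g v i) →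
      ∃ t : K, w = fun i => t * v i) : ∑ c : ι → K, phi g c ^ 2
    ≤ (Fintype.card K : ℝ) ^ Fintype.card ι := by
  have h2 : (2 : ℝ) ≤ Fintype.card K := by
    have : 1 < Fintype.card K := Fintype.one_lt_card
    exact_mod_cast this
  have hz := sum_Y g
  have hz2 := sum_Y_sq g hg
  have hU : ((UU g).card : ℝ) ≤ (Fintype.card K : ℝ) ^ 4 := by
    have : (UU g).card ≤ (Fintype.card K) ^ 4 := by
      refine (Finset.card_le_univ _).trans ?_
      simp
    exact_mod_cast this
  set q : ℝ := (Fintype.card K : ℝ) with hq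
  set Q := q ^ Fintype.card ι with hQ
  set u : ℝ := ((UU g).card : ℝ) with hu
  have hQ0 : 0 ≤ Q := by rw [hQ]; positivity
  have hq0 : 0 < q := by linarith
  have hq1 : 0 < q - 1 := by linarith
  have hu0 : 0 ≤ u := by rw [hu]; positivity
  have h1 : ∑ c : ι → K, phi g c ^ 2
      = ((∑ c : ι → K, Y g c ^ 2) - 2 * (u / q) * (∑ c : ι → K, Y g c)
        + Q * (u / q) ^ 2) / (q * (q - 1)) ^ 2 := by
    unfold phi
    simp only [div_pow]
    rw [← Finset.sum_div]
    congr 1
    have e : ∀ c ∈ (Finset.univ : Finset (ι → K)), (Y g c - u / q) ^ 2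
        = Y g c ^ 2 - 2 * (u / q) * Y g c + (u / q) ^ 2 := by
      intro c _; ring
    rw [Finset.sum_congr rfl e, Finset.sum_add_distrib, Finset.sum_sub_distrib, ← Finset.mul_sum,
      Finset.sum_const, Finset.card_univ, nsmul_eq_mul, card_V, div_pow]
  rw [h1, div_le_iff₀ (by positivity)]
  have h3 : ∑ c : ι → K, Y g c = Q * u / q := by
    rw [eq_div_iff hq0.ne', hz]
  have h4 : ∑ c : ι → K, Y g c ^ 2 ≤ Q * (u * (u + (q - 1) ^ 2)) / q ^ 2 := by
    rw [le_div_iff₀ (by positivity)]
    exact hz2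
  have h5 : Q * (u * (u + (q - 1) ^ 2)) / q ^ 2
      - 2 * (u / q) * (Q * u / q) + Q * (u / q) ^ 2
      = Q * (u * (q - 1) ^ 2 / q ^ 2) := by
    field_simp
    ring
  have h6 : u * (q - 1) ^ 2 / q ^ 2 ≤ (q * (q - 1)) ^ 2 := by
    rw [div_le_iff₀ (by positivity)]
    have : (q * (q - 1)) ^ 2 * q ^ 2 = q ^ 4 * (q - 1) ^ 2 := by ring
    rw [this]
    gcongr
  rw [h3]
  calc _ ≤ Q * (u * (u + (q - 1) ^ 2)) / q ^ 2
      - 2 * (u / q) * (Q * u / q) + Q * (u / q) ^ 2 := by linarith
    _ = Q * (u * (q - 1) ^ 2 / q ^ 2) := h5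
    _ ≤ _ := by gcongr

end Pool.Agent.H427.AS
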