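import Pool.Agent.H427.AS.RM
import Pool.Agent.H427.AS.Mom

/-!
# The maximal inequality
-/

set_option autoImplicit false
set_option linter.all false

namespace Pool.Agent.H427.AS

open Finset

variable {ι : Type} [Fintype ι] [DecidableEq ι]

/-- the primes below `2 ^ L` -/
def Pr (L : ℕ) : Finset ℕ := (Finset.range (2 ^ L)).filter Nat.Prime

theorem sum_sq_le {α : Type} (s : Finset α) (a : α → ℝ) (ha : ∀ i ∈ s, 0 ≤ a i) :
    ∑ i ∈ s, a i ^ 2 ≤ (∑ i ∈ s, a i) ^ 2 := by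
  rw [sq (∑ i ∈ s, a i), Finset.mul_sum]
  apply Finset.sum_le_sum
  intro i hi
  rw [sq]
  exact mul_le_mul_of_nonneg_right (Finset.single_le_sum ha hi) (ha i hi)

variable (φ : ∀ p : ℕ, (ι → ZMod p) → ℝ) (w : ℕ → ℝ)

/-- the terms -/
noncomputable def hh (c : ι → ℤ) (p : ℕ) : ℝ := (w p * Real.log p) * φ p (red p c)

/-- the majorant -/
noncomputable def ML (L : ℕ) (c : ι → ℤ) : ℝ :=
  ((L : ℝ) + 1) * ∑ l ∈ Finset.range (L + 1), lv (Pr L) (hh φ w c) id L l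

theorem ps_le (L : ℕ) (c : ι → ℤ) (x : ℕ) : (ps (Pr L) (hh φ w c) id x) ^ 2 ≤ ML φ w L c := by
  have h := pointwise (Pr L) (hh φ w c) id x L (fun i hi => Finset.mem_range.1 (Finset.mem_filter.1 hi).1)
  rw [Real.norm_eq_abs, sq_abs] at h
  exact h

theorem log_le (L p : ℕ) (hp : p ∈ Pr L) : 0 ≤ Real.log p ∧ Real.log p ≤ L := by
  have h1 := (Finset.mem_filter.1 hp).2
  have h2 := Finset.mem_range.1 (Finset.mem_filter.1 hp).1
  refine ⟨Real.log_nonneg (by exact_mod_cast h1.one_lt.le), ?_⟩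
  have h3 : Real.log p ≤ Real.log ((2 : ℝ) ^ L) := by
    apply Real.log_le_log (by exact_mod_cast h1.pos)
    exact_mod_cast h2.le
  rw [Real.log_pow] at h3
  have h4 : Real.log 2 ≤ 1 := by linarith [Real.log_two_lt_d9]
  have h5 : (L : ℝ) * Real.log 2 ≤ L * 1 := by gcongr
  linarith

theorem wlog_le (hw : ∀ p, |w p| ≤ 1) (L p : ℕ) (hp : p ∈ Pr L) : |w p * Real.log p| ≤ L := by
  have h := log_le L p hp
  rw [abs_mul, abs_of_nonneg h.1]
  calc |w p| * Real.log p ≤ 1 * Real.log p := mul_le_mul_of_nonneg_right (hw p) h.1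
    _ ≤ L := by linarith [h.2]

theorem sum_ML (hw : ∀ p, |w p| ≤ 1) (H L : ℕ) (hL : (2 ^ L) ^ 3 ≤ 8 * H) (hL2 : 2 ^ L * 2 ^ L ≤ 2 * H + 1)
    (hφ : ∀ p : ℕ, p.Prime → IsGood p (φ p)) :
    ∑ c ∈ Box ι H, ML φ w L c ≤
      ((2 * H + 1 : ℕ) : ℝ) ^ Fintype.card ι * ((6 * 2 ^ Fintype.card ι) * 2 ^ L * ((L : ℝ) + 1) ^ 4) := by
  classical
  set n := Fintype.card ι with hn
  set N : ℝ := ((2 * H + 1 : ℕ) : ℝ) with hN
  have hNp : 0 < N := by rw [hN]; positivity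
  have hNn : 0 ≤ N ^ n := by positivity
  have hlev : ∀ l : ℕ, ∑ c ∈ Box ι H, lv (Pr L) (hh φ w c) id L l
      ≤ N ^ n * ((6 * 2 ^ n) * 2 ^ L * (L : ℝ) ^ 2) := by
    intro l
    unfold lv
    rw [Finset.sum_comm]
    have h1 : ∀ b ∈ Finset.range (2 ^ L), ∑ c ∈ Box ι H, ‖bs (Pr L) (hh φ w c) id l b‖ ^ 2
        ≤ N ^ n * ((1 + 2 ^ n) * ∑ p ∈ (Pr L).filter (fun i => i / 2 ^ l = b), (w p * Real.log p) ^ 2
          + 2 ^ n / N * (∑ p ∈ (Pr L).filter (fun i => i / 2 ^ l = b), p * |w p * Real.log p|) ^ 2) := by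
      intro b _
      have h2 := mean_square ((Pr L).filter (fun i => i / 2 ^ l = b)) φ H
        (fun p hp => (Finset.mem_filter.1 (Finset.mem_filter.1 hp).1).2)
        (fun p hp r hr => by
          have e1 := Finset.mem_range.1 (Finset.mem_filter.1 (Finset.mem_filter.1 hp).1).1
          have e2 := Finset.mem_range.1 (Finset.mem_filter.1 (Finset.mem_filter.1 hr).1).1
          exact (Nat.mul_le_mul e1.le e2.le).trans hL2) (fun p => w p * Real.log p)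
        (fun p hp => hφ p (Finset.mem_filter.1 (Finset.mem_filter.1 hp).1).2)
      refine le_trans (le_of_eq ?_) h2
      apply Finset.sum_congr rfl
      intro c _
      rw [Real.norm_eq_abs, sq_abs]
      rfl
    refine (Finset.sum_le_sum h1).trans ?_
    rw [← Finset.mul_sum, Finset.sum_add_distrib, ← Finset.mul_sum, ← Finset.mul_sum]
    apply mul_le_mul_of_nonneg_left _ hNn
    have hmaps : ∀ p ∈ Pr L, p / 2 ^ l ∈ Finset.range (2 ^ L) := by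
      intro p hp
      have e1 := Finset.mem_range.1 (Finset.mem_filter.1 hp).1
      rw [Finset.mem_range]
      exact lt_of_le_of_lt (Nat.div_le_self _ _) e1
    have h3 : ∑ b ∈ Finset.range (2 ^ L), ∑ p ∈ (Pr L).filter (fun i => i / 2 ^ l = b), (w p * Real.log p) ^ 2
        = ∑ p ∈ Pr L, (w p * Real.log p) ^ 2 :=
      Finset.sum_fiberwise_of_maps_to hmaps (fun p => (w p * Real.log p) ^ 2)
    have h4 : ∑ b ∈ Finset.range (2 ^ L), ∑ p ∈ (Pr L).filter (fun i => i / 2 ^ l = b), (p * |w p * Real.log p| : ℝ)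
        = ∑ p ∈ Pr L, (p * |w p * Real.log p| : ℝ) :=
      Finset.sum_fiberwise_of_maps_to hmaps (fun p => (p * |w p * Real.log p| : ℝ))
    have h5 : ∑ b ∈ Finset.range (2 ^ L), (∑ p ∈ (Pr L).filter (fun i => i / 2 ^ l = b), (p * |w p * Real.log p| : ℝ)) ^ 2
        ≤ (∑ p ∈ Pr L, (p * |w p * Real.log p| : ℝ)) ^ 2 := by
      rw [← h4]
      exact sum_sq_le _ _ (fun i _ => Finset.sum_nonneg (fun p _ => by positivity))
    have hcard : ((Pr L).card : ℝ) ≤ 2 ^ L := by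
      have : (Pr L).card ≤ 2 ^ L := by
        refine (Finset.card_filter_le _ _).trans ?_
        rw [Finset.card_range]
      exact_mod_cast this
    have h6 : ∑ p ∈ Pr L, (w p * Real.log p) ^ 2 ≤ 2 ^ L * (L : ℝ) ^ 2 := by
      calc ∑ p ∈ Pr L, (w p * Real.log p) ^ 2 ≤ ∑ p ∈ Pr L, (L : ℝ) ^ 2 := by
            apply Finset.sum_le_sum
            intro p hp
            have := wlog_le w hw L p hp
            rw [← sq_abs]
            exact pow_le_pow_left₀ (abs_nonneg _) this 2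
        _ = (Pr L).card * (L : ℝ) ^ 2 := by simp
        _ ≤ _ := by gcongr
    have h7 : ∑ p ∈ Pr L, (p * |w p * Real.log p| : ℝ) ≤ 2 ^ L * (2 ^ L * L) := by
      calc ∑ p ∈ Pr L, (p * |w p * Real.log p| : ℝ) ≤ ∑ p ∈ Pr L, ((2 : ℝ) ^ L * L) := by
            apply Finset.sum_le_sum
            intro p hp
            have h8 := wlog_le w hw L p hp
            have h9 : (p : ℝ) ≤ 2 ^ L := by
              exact_mod_cast (Finset.mem_range.1 (Finset.mem_filter.1 hp).1).le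
            apply mul_le_mul h9 h8 (abs_nonneg _) (by positivity)
        _ = (Pr L).card * ((2 : ℝ) ^ L * L) := by simp
        _ ≤ _ := by gcongr
    have h7' : 0 ≤ ∑ p ∈ Pr L, (p * |w p * Real.log p| : ℝ) := Finset.sum_nonneg (fun p _ => by positivity)
    rw [h3]
    have h8 : (∑ p ∈ Pr L, (p * |w p * Real.log p| : ℝ)) ^ 2 ≤ (2 ^ L * (2 ^ L * (L : ℝ))) ^ 2 :=
      pow_le_pow_left₀ h7' h7 2
    have h9 : (1 / N) * (2 ^ L * (2 ^ L * (L : ℝ))) ^ 2 ≤ 4 * 2 ^ L * (L : ℝ) ^ 2 := by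
      rw [div_mul_eq_mul_div, one_mul, div_le_iff₀ hNp]
      have e1 : ((2 : ℝ) ^ L) ^ 3 ≤ 8 * H := by exact_mod_cast hL
      have e2 : 8 * (H : ℝ) ≤ 4 * N := by rw [hN]; push_cast; linarith
      have e3 : (2 ^ L * (2 ^ L * (L : ℝ))) ^ 2 = ((2 : ℝ) ^ L) ^ 3 * (2 ^ L * (L : ℝ) ^ 2) := by ring
      rw [e3]
      calc ((2 : ℝ) ^ L) ^ 3 * (2 ^ L * (L : ℝ) ^ 2) ≤ (4 * N) * (2 ^ L * (L : ℝ) ^ 2) := by
            gcongr
            linarith
        _ = _ := by ring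
    have h10 : (1 : ℝ) ≤ 2 ^ n := one_le_pow₀ (by norm_num)
    calc (1 + 2 ^ n) * ∑ p ∈ Pr L, (w p * Real.log p) ^ 2
        + 2 ^ n / N * ∑ b ∈ Finset.range (2 ^ L), (∑ p ∈ (Pr L).filter (fun i => i / 2 ^ l = b), (p * |w p * Real.log p| : ℝ)) ^ 2
        ≤ (1 + 2 ^ n) * (2 ^ L * (L : ℝ) ^ 2) + 2 ^ n / N * (2 ^ L * (2 ^ L * (L : ℝ))) ^ 2 := by
          have := h5.trans h8
          gcongr
      _ = (1 + 2 ^ n) * (2 ^ L * (L : ℝ) ^ 2) + 2 ^ n * ((1 / N) * (2 ^ L * (2 ^ L * (L : ℝ))) ^ 2) := by ring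
      _ ≤ (2 ^ n + 2 ^ n) * (2 ^ L * (L : ℝ) ^ 2) + 2 ^ n * (4 * 2 ^ L * (L : ℝ) ^ 2) := by gcongr
      _ = _ := by ring
  unfold ML
  rw [← Finset.mul_sum, Finset.sum_comm]
  calc ((L : ℝ) + 1) * ∑ l ∈ Finset.range (L + 1), ∑ c ∈ Box ι H, lv (Pr L) (hh φ w c) id L l
      ≤ ((L : ℝ) + 1) * ∑ l ∈ Finset.range (L + 1), N ^ n * ((6 * 2 ^ n) * 2 ^ L * (L : ℝ) ^ 2) := by
        gcongr with l _
        exact hlev l
    _ = ((L : ℝ) + 1) * (((L : ℝ) + 1) * (N ^ n * ((6 * 2 ^ n) * 2 ^ L * (L : ℝ) ^ 2))) := by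
        rw [Finset.sum_const, Finset.card_range]; simp
    _ ≤ ((L : ℝ) + 1) * (((L : ℝ) + 1) * (N ^ n * ((6 * 2 ^ n) * 2 ^ L * ((L : ℝ) + 1) ^ 2))) := by
        gcongr
        linarith
    _ = _ := by ring

open Classical in
theorem bad_count (hw : ∀ p, |w p| ≤ 1) (H L : ℕ) (hL : (2 ^ L) ^ 3 ≤ 8 * H) (hL2 : 2 ^ L * 2 ^ L ≤ 2 * H + 1)
    (hφ : ∀ p : ℕ, p.Prime → IsGood p (φ p)) (B : ℝ) (hB : 0 < B) :
    (((Box ι H).filter (fun c => ∃ x, B < (ps (Pr L) (hh φ w c) id x) ^ 2)).card : ℝ) ≤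
      ((2 * H + 1 : ℕ) : ℝ) ^ Fintype.card ι * ((6 * 2 ^ Fintype.card ι) * 2 ^ L * ((L : ℝ) + 1) ^ 4) / B := by
  rw [le_div_iff₀ hB]
  refine le_trans ?_ (sum_ML φ w hw H L hL hL2 hφ)
  have h0 : ∀ c ∈ Box ι H, 0 ≤ ML φ w L c := fun c _ => (sq_nonneg _).trans (ps_le φ w L c 0)
  calc (((Box ι H).filter (fun c => ∃ x, B < (ps (Pr L) (hh φ w c) id x) ^ 2)).card : ℝ) * B
      = ∑ c ∈ (Box ι H).filter (fun c => ∃ x, B < (ps (Pr L) (hh φ w c) id x) ^ 2), B := by simp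
    _ ≤ ∑ c ∈ (Box ι H).filter (fun c => ∃ x, B < (ps (Pr L) (hh φ w c) id x) ^ 2), ML φ w L c := by
        apply Finset.sum_le_sum
        intro c hc
        obtain ⟨x, hx⟩ := (Finset.mem_filter.1 hc).2
        exact hx.le.trans (ps_le φ w L c x)
    _ ≤ _ := Finset.sum_le_sum_of_subset_of_nonneg (Finset.filter_subset _ _)
        (fun c hc _ => h0 c hc)

end Pool.Agent.H427.AS
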