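import Pool.Agent.H427.AS.Lsv

/-!
# The mean square for the primes up to a power `4/5` of the height, conclusion
-/

set_option autoImplicit false
set_option linter.all false

namespace Pool.Agent.H427.AS

open Finset MvPolynomial

variable {r d : ℕ} (M P : ℕ) [NeZero M]

theorem PC_same (N p : ℕ) [Fact p.Prime] (hp : p ∣ M) (hM : M = 8 * N * P) (hP : 0 < P) (hpN : p ≤ 8 * N)
    (Q : Fin r → MvPolynomial (Fin 4) ℤ) (hd : d ≠ 0) :
    PC M P (gg Q d p) (gg Q d p) ≤ ((p - 1) * p ^ 4) * (p - 1) := by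
  classical
  haveI : NeZero p := ⟨(Fact.out : p.Prime).ne_zero⟩
  unfold PC
  have h1 : ∀ τ ∈ TT (gg Q d p), ((TT (gg Q d p)).filter (fun τ' => ∀ i,
      nu M P (lam M p (vec (gg Q d p) τ i) + lam M p (vec (gg Q d p) τ' i)) ≠ 0)).card ≤ p - 1 := by
    intro τ _
    have h2 := fiber_le (gg Q d p) (fun v w hv h1 h2 h3 => gg_sep hd Q v w hv h1 h2 h3) (fun i => - vec (gg Q d p) τ i)
    rw [ZMod.card] at h2
    refine (Finset.card_le_card ?_).trans h2
    intro τ' hτ'
    rw [Finset.mem_filter] at hτ' ⊢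
    refine ⟨hτ'.1, ?_⟩
    funext i
    have := cond_same M P N p hp hM hP hpN _ _ (hτ'.2 i)
    linear_combination this
  refine (Finset.sum_le_card_nsmul _ _ _ h1).trans ?_
  rw [smul_eq_mul]
  apply Nat.mul_le_mul_right
  unfold TT
  rw [Finset.card_product, Finset.card_erase_of_mem (Finset.mem_univ _), Finset.card_univ, ZMod.card]
  apply Nat.mul_le_mul_left
  refine (Finset.card_le_univ _).trans ?_
  simp [ZMod.card]

theorem PC_diff (N p s : ℕ) [Fact p.Prime] [Fact s.Prime] (hps : p ≠ s) (hp : p * s ∣ M) (hM : M = 8 * N * P)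
    (hN : 0 < N) (hsN : s ≤ 4 * N)
    (Q : Fin r → MvPolynomial (Fin 4) ℤ) :
    PC M P (gg Q (d + 1) p) (gg Q (d + 1) s) ≤ (r * 4) * ((p - 1) * (3 * (p * s / (8 * N))) ^ 4) * (s - 1) := by
  classical
  have hpp : p.Prime := Fact.out
  have hss : s.Prime := Fact.out
  haveI : NeZero p := ⟨hpp.ne_zero⟩
  haveI : NeZero s := ⟨hss.ne_zero⟩
  have hp0 : (p : ZMod s) ≠ 0 := by
    intro h
    rw [ZMod.natCast_eq_zero_iff] at h
    exact hps ((Nat.prime_dvd_prime_iff_eq hss hpp).1 h).symm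
  set g := gg Q (d + 1) p with hg
  set g' := gg Q (d + 1) s with hg'
  -- the fibre
  have h1 : ∀ τ ∈ TT g, ((TT g').filter (fun τ' => ∀ i,
      nu M P (lam M p (vec g τ i) + lam M s (vec g' τ' i)) ≠ 0)).card
      ≤ if (∀ i, vec g τ i ∈ SS N p s) then s - 1 else 0 := by
    intro τ _
    rcases ((TT g').filter (fun τ' => ∀ i,
      nu M P (lam M p (vec g τ i) + lam M s (vec g' τ' i)) ≠ 0)).eq_empty_or_nonempty with h | ⟨τ₀, h₀⟩
    · rw [h]; simp
    rw [Finset.mem_filter] at h₀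
    have hin : ∀ i, vec g τ i ∈ SS N p s := by
      intro i
      obtain ⟨ξ, a1, a2, _⟩ := cond_diff M P N p s hp hM _ _ (h₀.2 i)
      exact (mem_SS N p s _).2 ⟨ξ, a1, a2⟩
    rw [if_pos hin]
    have h2 := fiber_le g' (fun v w hv h1 h2 h3 => gg_sep (by omega) Q v w hv h1 h2 h3) (vec g' τ₀)
    rw [ZMod.card] at h2
    refine (Finset.card_le_card ?_).trans h2
    intro τ' hτ'
    rw [Finset.mem_filter] at hτ' ⊢
    refine ⟨hτ'.1, ?_⟩
    funext i
    obtain ⟨ξ, a1, a2, a3⟩ := cond_diff M P N p s hp hM _ _ (h₀.2 i)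
    obtain ⟨ζ, b1, b2, b3⟩ := cond_diff M P N p s hp hM _ _ (hτ'.2 i)
    have h4 : ξ = ζ := by
      have c1 : (p : ℤ) ∣ ξ - ζ := by
        rw [← ZMod.intCast_zmod_eq_zero_iff_dvd]
        push_cast
        rw [a2, b2, sub_self]
      have c2 : |ξ - ζ| < p := by
        have c3 : |ξ - ζ| ≤ |ξ| + |ζ| := abs_sub _ _
        have c4 : 8 * (N : ℤ) * |ξ - ζ| < 2 * (p * s) := by
          have : 8 * (N : ℤ) * |ξ - ζ| ≤ 8 * N * (|ξ| + |ζ|) := by
            apply mul_le_mul_of_nonneg_left c3 (by positivity)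
          linarith
        have c5 : (s : ℤ) ≤ 4 * N := by exact_mod_cast hsN
        have c6 : (0 : ℤ) < N := by exact_mod_cast hN
        have c7 : (p : ℤ) * s ≤ p * (4 * N) := mul_le_mul_of_nonneg_left c5 (by positivity)
        have c8 : 8 * (N : ℤ) * |ξ - ζ| < 8 * N * p := by linarith
        exact lt_of_mul_lt_mul_left c8 (by positivity)
      have := Int.eq_zero_of_abs_lt_dvd c1 c2
      linarith
    rw [h4, b3] at a3
    exact mul_left_cancel₀ hp0 a3
  have h5 : PC M P g g' ≤ ((TT g).filter (fun τ => ∀ i, vec g τ i ∈ SS N p s)).card * (s - 1) := by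
    unfold PC
    refine (Finset.sum_le_sum h1).trans ?_
    rw [← Finset.sum_filter, Finset.sum_const, smul_eq_mul]
  refine h5.trans (Nat.mul_le_mul_right _ ?_)
  have h6 := card_SS (p := p) N s hN hss hps
  rcases Nat.eq_zero_or_pos (p * s / (8 * N)) with h7 | h7
  · -- the set is `{0}`
    rw [h7] at h6
    have h0 : (0 : ZMod p) ∈ SS N p s := by
      rw [mem_SS]
      refine ⟨0, ?_, by simp⟩
      have : (0 : ℤ) < p * s := by
        have := hpp.pos; have := hss.pos; positivity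
      simpa using this
    have h8 : (TT g).filter (fun τ => ∀ i, vec g τ i ∈ SS N p s) = ∅ := by
      rw [Finset.filter_eq_empty_iff]
      intro τ hτ hall
      have h9 := (mem_TT g τ).1 hτ
      apply h9.2.2
      funext i
      have h10 : vec g τ i = 0 := by
        by_contra hne
        have : 2 ≤ (SS N p s).card := by
          have h11 : ({0, vec g τ i} : Finset (ZMod p)) ⊆ SS N p s := by
            intro x hx
            rw [Finset.mem_insert, Finset.mem_singleton] at hx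
            rcases hx with rfl | rfl
            · exact h0
            · exact hall i
          have h12 := Finset.card_le_card h11
          rw [Finset.card_pair (fun h => hne h.symm)] at h12
          exact h12
        omega
      rcases mul_eq_zero.1 h10 with h | h
      · exact absurd h h9.1
      · exact h
    rw [h8]; simp
  · refine (count_A Q (SS N p s)).trans ?_
    apply Nat.mul_le_mul_left
    apply Nat.mul_le_mul_left
    apply Nat.pow_le_pow_left
    omega

theorem same_le (N p : ℕ) [Fact p.Prime] (hp : p ∣ M) (hM : M = 8 * N * P) (hP : 0 < P) (hpN : p ≤ 8 * N)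
    (hN : 0 < N) (Q : Fin r → MvPolynomial (Fin 4) ℤ) (hd : d ≠ 0) :
    |∑ C : Fin r × Sym (Fin 4) d → ZMod M, Om M P C * (phi (gg Q d p) (fun i => ((C i).cast : ZMod p))
        * phi (gg Q d p) (fun i => ((C i).cast : ZMod p)))|
      ≤ ((M : ℝ) * P) ^ Fintype.card (Fin r × Sym (Fin 4) d) := by
  have hpp : p.Prime := Fact.out
  have hPM : P ≤ M := by rw [hM]; exact Nat.le_mul_of_pos_left P (by omega)
  refine (pair_le M P hp hp hPM _ _).trans ?_
  have hp1 : (0 : ℝ) < (p : ℝ) - 1 := by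
    have : (1 : ℝ) < p := by exact_mod_cast hpp.one_lt
    linarith
  have hp0 : (0 : ℝ) < p := by linarith
  rw [div_le_iff₀ (by positivity)]
  apply mul_le_mul_of_nonneg_left _ (by positivity)
  have h1 : (PC M P (gg Q d p) (gg Q d p) : ℝ) ≤ ((((p - 1) * p ^ 4) * (p - 1) : ℕ) : ℝ) := by
    exact_mod_cast PC_same M P N p hp hM hP hpN Q hd
  refine h1.trans (le_of_eq ?_)
  push_cast [Nat.cast_sub hpp.one_lt.le]
  ring

theorem diff_le (N p s : ℕ) [Fact p.Prime] [Fact s.Prime] (hps : p ≠ s) (hp : p * s ∣ M) (hM : M = 8 * N * P)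
    (hN : 0 < N) (hsN : s ≤ 4 * N) (Q : Fin r → MvPolynomial (Fin 4) ℤ) (hd : d ≠ 0) :
    |∑ C : Fin r × Sym (Fin 4) d → ZMod M, Om M P C * (phi (gg Q d p) (fun i => ((C i).cast : ZMod p))
        * phi (gg Q d s) (fun i => ((C i).cast : ZMod s)))|
      ≤ ((M : ℝ) * P) ^ Fintype.card (Fin r × Sym (Fin 4) d) * (r * ((p : ℝ) * s) ^ 2 / (N : ℝ) ^ 4) := by
  obtain ⟨d, rfl⟩ := Nat.exists_eq_succ_of_ne_zero hd
  have hpp : p.Prime := Fact.out
  have hss : s.Prime := Fact.out
  have hPM : P ≤ M := by rw [hM]; exact Nat.le_mul_of_pos_left P (by omega)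
  refine (pair_le M P ((dvd_mul_right p s).trans hp) ((dvd_mul_left s p).trans hp) hPM _ _).trans ?_
  have hp1 : (0 : ℝ) < (p : ℝ) - 1 := by
    have : (1 : ℝ) < p := by exact_mod_cast hpp.one_lt
    linarith
  have hs1 : (0 : ℝ) < (s : ℝ) - 1 := by
    have : (1 : ℝ) < s := by exact_mod_cast hss.one_lt
    linarith
  have hp0 : (0 : ℝ) < p := by linarith
  have hs0 : (0 : ℝ) < s := by linarith
  have hN0 : (0 : ℝ) < N := by exact_mod_cast hN
  rw [mul_div_assoc]
  apply mul_le_mul_of_nonneg_left _ (by positivity)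
  rw [div_le_iff₀ (by positivity)]
  have h1 : (PC M P (gg Q (d + 1) p) (gg Q (d + 1) s) : ℝ)
      ≤ (((r * 4) * ((p - 1) * (3 * (p * s / (8 * N))) ^ 4) * (s - 1) : ℕ) : ℝ) := by
    exact_mod_cast PC_diff M P N p s hps hp hM hN hsN Q
  refine h1.trans ?_
  push_cast [Nat.cast_sub hpp.one_lt.le, Nat.cast_sub hss.one_lt.le]
  have h2 : ((p * s / (8 * N) : ℕ) : ℝ) ≤ (p : ℝ) * s / (8 * N) := by
    have := Nat.cast_div_le (α := ℝ) (m := p * s) (n := 8 * N)
    push_cast at this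
    exact this
  calc (r : ℝ) * 4 * (((p : ℝ) - 1) * (3 * ((p * s / (8 * N) : ℕ) : ℝ)) ^ 4) * ((s : ℝ) - 1)
      ≤ (r : ℝ) * 4 * (((p : ℝ) - 1) * (3 * ((p : ℝ) * s / (8 * N))) ^ 4) * ((s : ℝ) - 1) := by gcongr
    _ = (324 / 4096) * ((r : ℝ) * ((p : ℝ) * s) ^ 2 / (N : ℝ) ^ 4
        * (((p : ℝ) ^ 2 * ((p : ℝ) - 1)) * ((s : ℝ) ^ 2 * ((s : ℝ) - 1)))) := by
        field_simp
        ring
    _ ≤ 1 * ((r : ℝ) * ((p : ℝ) * s) ^ 2 / (N : ℝ) ^ 4
        * (((p : ℝ) ^ 2 * ((p : ℝ) - 1)) * ((s : ℝ) ^ 2 * ((s : ℝ) - 1)))) := by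
        apply mul_le_mul_of_nonneg_right (by norm_num) (by positivity)
    _ = _ := by push_cast; ring

end Pool.Agent.H427.AS
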