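import Pool.Agent.H427.AS.Rel

/-!
# The pairs of primes up to the height
-/

set_option autoImplicit false
set_option linter.all false

namespace Pool.Agent.H427.AS

open Finset MvPolynomial

variable {r d : ℕ} (M P : ℕ) [NeZero M]

theorem PC_diff2 (N p s : ℕ) [Fact p.Prime] [Fact s.Prime] (hps : p ≠ s) (hp : p * s ∣ M) (hM : M = 8 * N * P)
    (hN : 0 < N) (hpN : p ≤ 4 * N) (hsN : s ≤ 4 * N)
    (Q : Fin r → MvPolynomial (Fin 4) ℤ) :
    PC M P (gg Q (d + 2) p) (gg Q (d + 2) s) ≤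
      (r * 4) * ((p - 1) * ((DD (p * s / (8 * N))).card * (2 * (p * s / (8 * N)) + 1) ^ 2)) * (s - 1) := by
  classical
  have hpp : p.Prime := Fact.out
  have hss : s.Prime := Fact.out
  haveI : NeZero p := ⟨hpp.ne_zero⟩
  haveI : NeZero s := ⟨hss.ne_zero⟩
  have hp0 : (p : ZMod s) ≠ 0 := by
    intro h
    rw [ZMod.natCast_eq_zero_iff] at h
    exact hps ((Nat.prime_dvd_prime_iff_eq hss hpp).1 h).symm
  have hNz : (0 : ℤ) < N := by exact_mod_cast hN
  have hpz : (0 : ℤ) < p := by exact_mod_cast hpp.pos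
  have hsz : (0 : ℤ) < s := by exact_mod_cast hss.pos
  set g := gg Q (d + 2) p with hg
  set g' := gg Q (d + 2) s with hg'
  -- the fibre
  have h1 : ∀ τ ∈ TT g, ((TT g').filter (fun τ' => ∀ i,
      nu M P (lam M p (vec g τ i) + lam M s (vec g' τ' i)) ≠ 0)).card
      ≤ if (∃ ξ, Small N s (vec g τ) ξ) then s - 1 else 0 := by
    intro τ _
    rcases ((TT g').filter (fun τ' => ∀ i,
      nu M P (lam M p (vec g τ i) + lam M s (vec g' τ' i)) ≠ 0)).eq_empty_or_nonempty with h | ⟨τ₀, h₀⟩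
    · rw [h]; simp
    rw [Finset.mem_filter] at h₀
    have hin : ∃ ξ, Small N s (vec g τ) ξ := by
      have hch := fun i => cond_diff M P N p s hp hM _ _ (h₀.2 i)
      choose ξ a1 a2 a3 using hch
      refine ⟨ξ, fun i => ⟨a1 i, a2 i⟩, ?_⟩
      intro j i l
      set a := ξ (j, mon (d + 1) i i) with ha
      set c := ξ (j, mon2 d l i) with hc
      set b := ξ (j, mon (d + 1) l i) with hb
      have m1 : (((a * c - b ^ 2 : ℤ)) : ZMod p) = 0 := by
        push_cast
        rw [ha, hc, hb, a2, a2, a2]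
        have := vec_rel (d := d) Q τ j i l
        rw [← hg] at this
        linear_combination (s : ZMod p) ^ 2 * this
      have m2 : (((a * c - b ^ 2 : ℤ)) : ZMod s) = 0 := by
        push_cast
        rw [ha, hc, hb, a3, a3, a3]
        have := vec_rel (d := d) Q τ₀ j i l
        rw [← hg'] at this
        linear_combination (p : ZMod s) ^ 2 * this
      have d1 := (ZMod.intCast_zmod_eq_zero_iff_dvd _ p).1 m1
      have d2 := (ZMod.intCast_zmod_eq_zero_iff_dvd _ s).1 m2
      have hcop : IsCoprime (p : ℤ) s := by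
        rw [Int.isCoprime_iff_gcd_eq_one, Int.gcd_natCast_natCast]
        exact (Nat.coprime_primes hpp hss).2 hps
      have d3 : (p : ℤ) * s ∣ a * c - b ^ 2 := hcop.mul_dvd d1 d2
      have hbig : |a * c - b ^ 2| < p * s := by
        have x1 : 8 * (N : ℤ) * |a| < p * s := a1 _
        have x2 : 8 * (N : ℤ) * |c| < p * s := a1 _
        have x3 : 8 * (N : ℤ) * |b| < p * s := a1 _
        have y1 : (8 * (N : ℤ) * |a|) * (8 * N * |c|) < (p * s) * (p * s) :=
          mul_lt_mul'' x1 x2 (by positivity) (by positivity)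
        have y2 : (8 * (N : ℤ) * |b|) * (8 * N * |b|) < (p * s) * (p * s) :=
          mul_lt_mul'' x3 x3 (by positivity) (by positivity)
        have y3 : |a * c - b ^ 2| ≤ |a| * |c| + |b| * |b| := by
          calc |a * c - b ^ 2| ≤ |a * c| + |b ^ 2| := abs_sub _ _
            _ = |a| * |c| + |b| * |b| := by rw [abs_mul, abs_pow, sq]
        have y4 : (p : ℤ) * s ≤ 16 * N ^ 2 := by
          have z1 : (p : ℤ) ≤ 4 * N := by exact_mod_cast hpN
          have z2 : (s : ℤ) ≤ 4 * N := by exact_mod_cast hsN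
          calc (p : ℤ) * s ≤ (4 * N) * (4 * N) := mul_le_mul z1 z2 hsz.le (by positivity)
            _ = 16 * N ^ 2 := by ring
        have y5 : 64 * (N : ℤ) ^ 2 * |a * c - b ^ 2| < 2 * ((p * s) * (p * s)) := by
          calc 64 * (N : ℤ) ^ 2 * |a * c - b ^ 2| ≤ 64 * (N : ℤ) ^ 2 * (|a| * |c| + |b| * |b|) := by gcongr
            _ = (8 * (N : ℤ) * |a|) * (8 * N * |c|) + (8 * (N : ℤ) * |b|) * (8 * N * |b|) := by ring
            _ < 2 * ((p * s) * (p * s)) := by linarith
        have y6 : 2 * (((p : ℤ) * s) * (p * s)) ≤ 64 * (N : ℤ) ^ 2 * (p * s) := by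
          have : ((p : ℤ) * s) * (p * s) ≤ (16 * N ^ 2) * (p * s) := mul_le_mul_of_nonneg_right y4 (by positivity)
          nlinarith [mul_pos hpz hsz]
        exact lt_of_mul_lt_mul_left (y5.trans_le y6) (by positivity)
      have := Int.eq_zero_of_abs_lt_dvd d3 hbig
      linarith
    rw [if_pos hin]
    have h2 := fiber_le g' (fun v w hv h1 h2 h3 => gg_sep (by omega) Q v w hv h1 h2 h3) (vec g' τ₀)
    rw [ZMod.card] at h2
    refine (Finset.card_le_card ?_).trans h2
    intro τ' hτ'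
    rw [Finset.mem_filter] at hτ' ⊢
    refine ⟨hτ'.1, ?_⟩
    funext i
    obtain ⟨ξ, a1, a2, a3⟩ := cond_diff M P N p s hp hM _ _ (h₀.2 i)
    obtain ⟨ζ, b1, b2, b3⟩ := cond_diff M P N p s hp hM _ _ (hτ'.2 i)
    have h4 : ξ = ζ := by
      have c1 : (p : ℤ) ∣ ξ - ζ := by
        rw [← ZMod.intCast_zmod_eq_zero_iff_dvd]
        push_cast
        rw [a2, b2, sub_self]
      have c2 : |ξ - ζ| < p := by
        have c3 : |ξ - ζ| ≤ |ξ| + |ζ| := abs_sub _ _
        have c4 : 8 * (N : ℤ) * |ξ - ζ| < 2 * (p * s) := by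
          have : 8 * (N : ℤ) * |ξ - ζ| ≤ 8 * N * (|ξ| + |ζ|) := by
            apply mul_le_mul_of_nonneg_left c3 (by positivity)
          linarith
        have c5 : (s : ℤ) ≤ 4 * N := by exact_mod_cast hsN
        have c7 : (p : ℤ) * s ≤ p * (4 * N) := mul_le_mul_of_nonneg_left c5 (by positivity)
        have c8 : 8 * (N : ℤ) * |ξ - ζ| < 8 * N * p := by linarith
        exact lt_of_mul_lt_mul_left c8 (by positivity)
      have := Int.eq_zero_of_abs_lt_dvd c1 c2
      linarith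
    rw [h4, b3] at a3
    exact mul_left_cancel₀ hp0 a3
  have h5 : PC M P g g' ≤ ((TT g).filter (fun τ => ∃ ξ, Small N s (vec g τ) ξ)).card * (s - 1) := by
    unfold PC
    refine (Finset.sum_le_sum h1).trans ?_
    rw [← Finset.sum_filter, Finset.sum_const, smul_eq_mul]
  exact h5.trans (Nat.mul_le_mul_right _ (count_small N s hN hss hps Q))

theorem diff_le2 (N p s : ℕ) [Fact p.Prime] [Fact s.Prime] (hps : p ≠ s) (hp : p * s ∣ M) (hM : M = 8 * N * P)
    (hN : 0 < N) (hpN : p ≤ 4 * N) (hsN : s ≤ 4 * N) (Q : Fin r → MvPolynomial (Fin 4) ℤ) (hd : 2 ≤ d) :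
    |∑ C : Fin r × Sym (Fin 4) d → ZMod M, Om M P C * (phi (gg Q d p) (fun i => ((C i).cast : ZMod p))
        * phi (gg Q d s) (fun i => ((C i).cast : ZMod s)))|
      ≤ ((M : ℝ) * P) ^ Fintype.card (Fin r × Sym (Fin 4) d)
        * (2 * r / (N : ℝ) ^ 3 * (((p : ℝ) * (1 + Real.log p)) * ((s : ℝ) * (1 + Real.log s)))) := by
  obtain ⟨d, rfl⟩ := Nat.exists_eq_add_of_le' hd
  have hpp : p.Prime := Fact.out
  have hss : s.Prime := Fact.out
  have hPM : P ≤ M := by rw [hM]; exact Nat.le_mul_of_pos_left P (by omega)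
  refine (pair_le M P ((dvd_mul_right p s).trans hp) ((dvd_mul_left s p).trans hp) hPM _ _).trans ?_
  have hp1 : (0 : ℝ) < (p : ℝ) - 1 := by
    have : (1 : ℝ) < p := by exact_mod_cast hpp.one_lt
    linarith
  have hs1 : (0 : ℝ) < (s : ℝ) - 1 := by
    have : (1 : ℝ) < s := by exact_mod_cast hss.one_lt
    linarith
  have hp0 : (0 : ℝ) < p := by linarith
  have hs0 : (0 : ℝ) < s := by linarith
  have hN0 : (0 : ℝ) < N := by exact_mod_cast hN
  have hlp : 0 ≤ Real.log p := Real.log_nonneg (by linarith)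
  have hls : 0 ≤ Real.log s := Real.log_nonneg (by linarith)
  rw [mul_div_assoc]
  apply mul_le_mul_of_nonneg_left _ (by positivity)
  rw [div_le_iff₀ (by positivity)]
  set B := p * s / (8 * N) with hB
  have h1 : (PC M P (gg Q (d + 2) p) (gg Q (d + 2) s) : ℝ)
      ≤ (((r * 4) * ((p - 1) * ((DD B).card * (2 * B + 1) ^ 2)) * (s - 1) : ℕ) : ℝ) := by
    exact_mod_cast PC_diff2 M P N p s hps hp hM hN hpN hsN Q
  refine h1.trans ?_
  push_cast [Nat.cast_sub hpp.one_lt.le, Nat.cast_sub hss.one_lt.le]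
  have h2 : (B : ℝ) ≤ (p : ℝ) * s / (8 * N) := by
    have := Nat.cast_div_le (α := ℝ) (m := p * s) (n := 8 * N)
    push_cast at this
    exact this
  rcases Nat.eq_zero_or_pos B with h0 | h0
  · have h3 : (DD B).card = 0 := by
      rw [Finset.card_eq_zero, Finset.eq_empty_iff_forall_notMem]
      intro ab hab
      rw [mem_DD, h0] at hab
      apply hab.2.1
      have := hab.1.1
      simpa using this
    rw [h3]
    simp only [Nat.cast_zero, zero_mul, mul_zero]
    positivity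
  · have hB1 : (1 : ℝ) ≤ B := by exact_mod_cast h0
    have h4 := card_DD B h0
    have h5 : (2 * (B : ℝ) + 1) ^ 2 ≤ 9 * (B : ℝ) ^ 2 := by nlinarith
    have h6 : 1 + Real.log B ≤ (1 + Real.log p) * (1 + Real.log s) := by
      have e1 : (B : ℝ) ≤ (p : ℝ) * s := by
        refine h2.trans (div_le_self (by positivity) ?_)
        have : (1 : ℝ) ≤ N := by exact_mod_cast hN
        linarith
      have e2 : Real.log B ≤ Real.log p + Real.log s := by
        rw [← Real.log_mul hp0.ne' hs0.ne']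
        exact Real.log_le_log (by linarith) e1
      nlinarith [mul_nonneg hlp hls]
    have hlB : 0 ≤ Real.log B := Real.log_nonneg hB1
    calc (r : ℝ) * 4 * (((p : ℝ) - 1) * (((DD B).card : ℝ) * (2 * (B : ℝ) + 1) ^ 2)) * ((s : ℝ) - 1)
        ≤ (r : ℝ) * 4 * (((p : ℝ) - 1) * ((18 * B * (1 + Real.log B)) * (9 * (B : ℝ) ^ 2))) * ((s : ℝ) - 1) := by gcongr
      _ = 648 * (r : ℝ) * ((p : ℝ) - 1) * ((s : ℝ) - 1) * (B : ℝ) ^ 3 * (1 + Real.log B) := by ring
      _ ≤ 648 * (r : ℝ) * ((p : ℝ) - 1) * ((s : ℝ) - 1) * ((p : ℝ) * s / (8 * N)) ^ 3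
          * ((1 + Real.log p) * (1 + Real.log s)) := by gcongr
      _ = (648 / 1024) * (2 * (r : ℝ) / (N : ℝ) ^ 3 * (((p : ℝ) * (1 + Real.log p)) * ((s : ℝ) * (1 + Real.log s)))
          * (((p : ℝ) ^ 2 * ((p : ℝ) - 1)) * ((s : ℝ) ^ 2 * ((s : ℝ) - 1)))) := by
          field_simp
          ring
      _ ≤ 1 * (2 * (r : ℝ) / (N : ℝ) ^ 3 * (((p : ℝ) * (1 + Real.log p)) * ((s : ℝ) * (1 + Real.log s)))
          * (((p : ℝ) ^ 2 * ((p : ℝ) - 1)) * ((s : ℝ) ^ 2 * ((s : ℝ) - 1)))) := by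
          apply mul_le_mul_of_nonneg_right (by norm_num) (by positivity)
      _ = _ := by ring

end Pool.Agent.H427.AS
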