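import Mathlib

/-!
# The Rademacher-Menshov inequality, pointwise form

(after `Pool.Agent.H681.MD.RM`, for real values)
-/

set_option autoImplicit false
set_option linter.all false

namespace Pool.Agent.H427.AS

noncomputable section

variable {ι : Type}

/-- the partial sum -/
def ps (F : Finset ι) (h : ι → ℝ) (q : ι → ℕ) (x : ℕ) : ℝ := ∑ i ∈ F.filter (fun i => q i < x), h i

/-- the sum over a block of level `l` -/
def bs (F : Finset ι) (h : ι → ℝ) (q : ι → ℕ) (l b : ℕ) : ℝ :=
  ∑ i ∈ F.filter (fun i => q i / 2 ^ l = b), h i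

/-- partial sum at level `l` -/
def ts (F : Finset ι) (h : ι → ℝ) (q : ι → ℕ) (x l : ℕ) : ℝ :=
  ∑ i ∈ F.filter (fun i => q i / 2 ^ l < x / 2 ^ l), h i

theorem aux1 (Q X : ℕ) (hX : X % 2 = 1) : Q < X ↔ (Q / 2 < X / 2 ∨ Q = X - 1) := by omega
theorem aux2 (Q X : ℕ) (hX : ¬ X % 2 = 1) : Q < X ↔ Q / 2 < X / 2 := by omega
theorem aux3 (Q X : ℕ) (hX : X % 2 = 1) (h : Q / 2 < X / 2) : ¬ Q = X - 1 := by omega

theorem ts_step (F : Finset ι) (h : ι → ℝ) (q : ι → ℕ) (x l : ℕ) :
    ts F h q x l = ts F h q x (l + 1) +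
      (if (x / 2 ^ l) % 2 = 1 then bs F h q l (x / 2 ^ l - 1) else 0) := by
  classical
  unfold ts bs
  have hd : ∀ n : ℕ, n / 2 ^ (l + 1) = n / 2 ^ l / 2 := fun n => by
    rw [pow_succ, Nat.div_div_eq_div_mul]
  simp only [hd]
  generalize x / 2 ^ l = X
  split_ifs with hX
  · rw [← Finset.sum_union]
    · apply Finset.sum_congr _ (fun _ _ => rfl)
      ext i
      simp only [Finset.mem_filter, Finset.mem_union]
      rw [aux1 (q i / 2 ^ l) X hX]
      tauto
    · rw [Finset.disjoint_filter]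
      intro i _ h1
      exact aux3 _ _ hX h1
  · rw [add_zero]
    apply Finset.sum_congr _ (fun _ _ => rfl)
    ext i
    simp only [Finset.mem_filter]
    rw [aux2 (q i / 2 ^ l) X hX]

/-- the total square of a level -/
def lv (F : Finset ι) (h : ι → ℝ) (q : ι → ℕ) (L l : ℕ) : ℝ :=
  ∑ b ∈ Finset.range (2 ^ L), ‖bs F h q l b‖ ^ 2

theorem bs_le (F : Finset ι) (h : ι → ℝ) (q : ι → ℕ) (L l b : ℕ) (hq : ∀ i ∈ F, q i < 2 ^ L) :
    ‖bs F h q l b‖ ^ 2 ≤ lv F h q L l := by
  by_cases hb : b < 2 ^ L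
  · exact Finset.single_le_sum (f := fun b => ‖bs F h q l b‖ ^ 2) (fun _ _ => by positivity)
      (Finset.mem_range.2 hb)
  · have h1 : bs F h q l b = 0 := by
      unfold bs
      rw [Finset.filter_false_of_mem, Finset.sum_empty]
      intro i hi h2
      have h3 := hq i hi
      have h4 : q i / 2 ^ l ≤ q i := Nat.div_le_self _ _
      omega
    rw [h1]
    simp only [norm_zero]
    have : 0 ≤ lv F h q L l := Finset.sum_nonneg (fun _ _ => by positivity)
    simpa using this

theorem ts_sum (F : Finset ι) (h : ι → ℝ) (q : ι → ℕ) (x L : ℕ) :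
    ps F h q x = ∑ l ∈ Finset.range L,
      (if (x / 2 ^ l) % 2 = 1 then bs F h q l (x / 2 ^ l - 1) else 0) + ts F h q x L := by
  induction L with
  | zero => simp [ps, ts]
  | succ n ih =>
    rw [ih, Finset.sum_range_succ, ts_step F h q x n]
    ring

theorem pointwise (F : Finset ι) (h : ι → ℝ) (q : ι → ℕ) (x L : ℕ) (hq : ∀ i ∈ F, q i < 2 ^ L) :
    ‖ps F h q x‖ ^ 2 ≤ ((L : ℝ) + 1) * ∑ l ∈ Finset.range (L + 1), lv F h q L l := by
  set D : ℕ → ℝ := fun l => if l < L then
    (if (x / 2 ^ l) % 2 = 1 then bs F h q l (x / 2 ^ l - 1) else 0) else ts F h q x L with hD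
  have h1 : ps F h q x = ∑ l ∈ Finset.range (L + 1), D l := by
    rw [ts_sum F h q x L, Finset.sum_range_succ]
    congr 1
    · apply Finset.sum_congr rfl
      intro l hl
      simp [hD, Finset.mem_range.1 hl]
    · simp [hD]
  have hlv : ∀ l, 0 ≤ lv F h q L l := fun l => Finset.sum_nonneg (fun _ _ => by positivity)
  have h2 : ∀ l ∈ Finset.range (L + 1), ‖D l‖ ^ 2 ≤ lv F h q L l := by
    intro l hl
    have hl' : l < L + 1 := Finset.mem_range.1 hl
    simp only [hD]
    split_ifs with h3 h4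
    · exact bs_le F h q L l _ hq
    · simpa using hlv l
    · have h5 : l = L := by omega
      subst h5
      by_cases h6 : x / 2 ^ l = 0
      · have h7 : ts F h q x l = 0 := by
          unfold ts
          rw [Finset.filter_false_of_mem, Finset.sum_empty]
          intro i _ h8
          rw [h6] at h8
          exact absurd h8 (Nat.not_lt_zero _)
        rw [h7]
        simpa using hlv l
      · have h7 : ts F h q x l = bs F h q l 0 := by
          unfold ts bs
          apply Finset.sum_congr _ (fun _ _ => rfl)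
          apply Finset.filter_congr
          intro i hi
          have h8 : q i / 2 ^ l = 0 := Nat.div_eq_of_lt (hq i hi)
          rw [h8]
          constructor
          · intro _; rfl
          · intro _; exact Nat.pos_of_ne_zero h6
        rw [h7]
        exact bs_le F h q l l 0 hq
  rw [h1]
  calc ‖∑ l ∈ Finset.range (L + 1), D l‖ ^ 2 ≤ (∑ l ∈ Finset.range (L + 1), ‖D l‖) ^ 2 := by
        apply pow_le_pow_left₀ (norm_nonneg _)
        exact norm_sum_le _ _
    _ ≤ (Finset.range (L + 1)).card * ∑ l ∈ Finset.range (L + 1), ‖D l‖ ^ 2 :=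
        sq_sum_le_card_mul_sum_sq
    _ = ((L : ℝ) + 1) * ∑ l ∈ Finset.range (L + 1), ‖D l‖ ^ 2 := by
        rw [Finset.card_range]; push_cast; ring
    _ ≤ _ := by
        apply mul_le_mul_of_nonneg_left (Finset.sum_le_sum h2)
        positivity

end

end Pool.Agent.H427.AS
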