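import Mathlib

/-!
# The number of the pairs `(a, b)` with `a c = b ^ 2`
-/

set_option autoImplicit false
set_option linter.all false

namespace Pool.Agent.H427.AS

open Finset

theorem param (a b c : ℤ) (ha : a ≠ 0) (h : a * c = b ^ 2) :
    ∃ t x y : ℤ, a = t * x ^ 2 ∧ b = t * x * y ∧ c = t * y ^ 2 := by
  have hg : (0 : ℤ) < Int.gcd a b := by
    exact_mod_cast Int.gcd_pos_of_ne_zero_left b ha
  set g : ℤ := (Int.gcd a b : ℤ) with hgdef
  obtain ⟨a₁, ha₁⟩ : g ∣ a := Int.gcd_dvd_left a b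
  obtain ⟨b₁, hb₁⟩ : g ∣ b := Int.gcd_dvd_right a b
  have hcop : IsCoprime a₁ b₁ := by
    rw [Int.isCoprime_iff_gcd_eq_one]
    have h1 : Int.gcd a b = Int.gcd a b * Int.gcd a₁ b₁ := by
      conv_lhs => rw [ha₁, hb₁, Int.gcd_mul_left]
      rw [hgdef]
      simp
    have h2 : 0 < Int.gcd a b := Int.gcd_pos_of_ne_zero_left b ha
    exact (Nat.eq_of_mul_eq_mul_left h2 (by rw [mul_one]; exact h1)).symm
  have h1 : a₁ * c = g * b₁ ^ 2 := by
    have : g * (a₁ * c) = g * (g * b₁ ^ 2) := by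
      rw [← mul_assoc, ← ha₁, h, hb₁]
      ring
    exact mul_left_cancel₀ hg.ne' this
  have h2 : a₁ ∣ g := by
    have : a₁ ∣ g * b₁ ^ 2 := ⟨c, h1.symm⟩
    exact (hcop.pow_right).dvd_of_dvd_mul_right this
  obtain ⟨t, ht⟩ := h2
  have ha1 : a₁ ≠ 0 := by
    rintro rfl
    apply ha
    rw [ha₁, mul_zero]
  refine ⟨t, a₁, b₁, ?_, ?_, ?_⟩
  · rw [ha₁, ht]; ring
  · rw [hb₁, ht]; ring
  · have : a₁ * c = a₁ * (t * b₁ ^ 2) := by
      rw [h1, ht]; ring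
    exact mul_left_cancel₀ ha1 this

/-- the pairs -/
noncomputable def DD (B : ℕ) : Finset (ℤ × ℤ) := by
  classical
  exact ((Finset.Icc (-(B : ℤ)) B) ×ˢ (Finset.Icc (-(B : ℤ)) B)).filter
    (fun ab => ab.1 ≠ 0 ∧ ∃ c : ℤ, |c| ≤ B ∧ ab.1 * c = ab.2 ^ 2)

theorem mem_DD (B : ℕ) (ab : ℤ × ℤ) : ab ∈ DD B ↔ (|ab.1| ≤ B ∧ |ab.2| ≤ B) ∧
    ab.1 ≠ 0 ∧ ∃ c : ℤ, |c| ≤ B ∧ ab.1 * c = ab.2 ^ 2 := by
  classical
  unfold DD
  rw [Finset.mem_filter, Finset.mem_product, Finset.mem_Icc, Finset.mem_Icc, ← abs_le, ← abs_le]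

theorem sqrt_bound (B m : ℕ) (z : ℤ) (hm : 0 < m) (h : m * z.natAbs ^ 2 ≤ B) :
    z ∈ Finset.Icc (-((Nat.sqrt (B / m) : ℕ) : ℤ)) ((Nat.sqrt (B / m) : ℕ) : ℤ) := by
  rw [Finset.mem_Icc, ← abs_le, Int.abs_eq_natAbs]
  have h1 : z.natAbs ^ 2 ≤ B / m := by
    rw [Nat.le_div_iff_mul_le hm, mul_comm]; exact h
  have h2 : z.natAbs ≤ Nat.sqrt (B / m) := by
    rw [Nat.le_sqrt']; exact h1
  exact_mod_cast h2

theorem card_DD (B : ℕ) (hB : 1 ≤ B) : ((DD B).card : ℝ) ≤ 18 * B * (1 + Real.log B) := by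
  classical
  set k : ℕ → ℕ := fun m => Nat.sqrt (B / m) with hk
  set E : Finset (Bool × ℕ × ℤ × ℤ) := (Finset.univ : Finset Bool) ×ˢ
    ((Finset.Icc 1 B).biUnion (fun m => ({m} : Finset ℕ) ×ˢ
      ((Finset.Icc (-(k m : ℤ)) (k m)) ×ˢ (Finset.Icc (-(k m : ℤ)) (k m))))) with hE
  have key : ∀ ab ∈ DD B, ∃ t x y : ℤ, ab.1 = t * x ^ 2 ∧ ab.2 = t * x * y ∧ (1 ≤ t.natAbs ∧ t.natAbs ≤ B) ∧
      t.natAbs * x.natAbs ^ 2 ≤ B ∧ t.natAbs * y.natAbs ^ 2 ≤ B := by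
    intro ab hab
    rw [mem_DD] at hab
    obtain ⟨⟨h1, h2⟩, h3, c, hc, h4⟩ := hab
    obtain ⟨t, x, y, e1, e2, e3⟩ := param ab.1 ab.2 c h3 h4
    have f1 : t.natAbs * x.natAbs ^ 2 ≤ B := by
      have : (t * x ^ 2).natAbs ≤ B := by
        rw [← e1]
        rw [Int.abs_eq_natAbs] at h1
        exact_mod_cast h1
      rwa [Int.natAbs_mul, Int.natAbs_pow] at this
    have f2 : t.natAbs * y.natAbs ^ 2 ≤ B := by
      have : (t * y ^ 2).natAbs ≤ B := by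
        rw [← e3]
        rw [Int.abs_eq_natAbs] at hc
        exact_mod_cast hc
      rwa [Int.natAbs_mul, Int.natAbs_pow] at this
    have ht : t ≠ 0 := by rintro rfl; apply h3; rw [e1]; ring
    have hx : x ≠ 0 := by rintro rfl; apply h3; rw [e1]; ring
    refine ⟨t, x, y, e1, e2, ⟨?_, ?_⟩, f1, f2⟩
    · exact Int.natAbs_pos.2 ht
    · have : 1 ≤ x.natAbs ^ 2 := Nat.one_le_pow _ _ (Int.natAbs_pos.2 hx)
      calc t.natAbs = t.natAbs * 1 := (mul_one _).symm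
        _ ≤ t.natAbs * x.natAbs ^ 2 := Nat.mul_le_mul_left _ this
        _ ≤ B := f1
  choose! t x y hkey using key
  have h1 : (DD B).card ≤ E.card := by
    apply Finset.card_le_card_of_injOn (fun ab => (decide (0 < t ab), (t ab).natAbs, x ab, y ab))
    · intro ab hab
      obtain ⟨e1, e2, ⟨e3, e4⟩, e5, e6⟩ := hkey ab hab
      rw [hE]
      simp only [Finset.coe_product, Set.mem_prod, Finset.mem_coe, Finset.mem_univ, true_and]
      rw [Finset.mem_biUnion]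
      refine ⟨(t ab).natAbs, Finset.mem_Icc.2 ⟨e3, e4⟩, ?_⟩
      rw [Finset.mem_product, Finset.mem_product]
      exact ⟨Finset.mem_singleton_self _, sqrt_bound B _ _ e3 e5, sqrt_bound B _ _ e3 e6⟩
    · intro ab hab cd hcd he
      obtain ⟨e1, e2, ⟨e3, e4⟩, e5, e6⟩ := hkey ab hab
      obtain ⟨f1, f2, ⟨f3, f4⟩, f5, f6⟩ := hkey cd hcd
      simp only [Prod.mk.injEq] at he
      obtain ⟨g1, g2, g3, g4⟩ := he
      have g5 : t ab = t cd := by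
        rw [decide_eq_decide] at g1
        omega
      apply Prod.ext
      · rw [e1, f1, g5, g3]
      · rw [e2, f2, g5, g3, g4]
  have h2 : E.card ≤ 2 * ∑ m ∈ Finset.Icc 1 B, (2 * k m + 1) ^ 2 := by
    rw [hE, Finset.card_product, Finset.card_univ, Fintype.card_bool]
    apply Nat.mul_le_mul_left
    refine Finset.card_biUnion_le.trans (le_of_eq ?_)
    apply Finset.sum_congr rfl
    intro m _
    rw [Finset.card_product, Finset.card_product, Finset.card_singleton, Int.card_Icc]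
    have : ((k m : ℤ) + 1 - -(k m : ℤ)).toNat = 2 * k m + 1 := by omega
    rw [this]; ring
  have h3 : ∀ m ∈ Finset.Icc 1 B, (((2 * k m + 1) ^ 2 : ℕ) : ℝ) ≤ 9 * B * (1 / (m : ℝ)) := by
    intro m hm
    rw [Finset.mem_Icc] at hm
    have e1 : 1 ≤ k m := by
      rw [hk]
      simp only
      rw [Nat.le_sqrt']
      rw [one_pow, Nat.le_div_iff_mul_le (by omega)]
      omega
    have e2 : (2 * k m + 1) ^ 2 ≤ 9 * (k m) ^ 2 := by
      calc (2 * k m + 1) ^ 2 ≤ (3 * k m) ^ 2 := Nat.pow_le_pow_left (by omega) 2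
        _ = 9 * (k m) ^ 2 := by ring
    have e3 : (k m) ^ 2 ≤ B / m := Nat.sqrt_le' _
    have e4 : ((B / m : ℕ) : ℝ) ≤ (B : ℝ) / m := Nat.cast_div_le
    calc (((2 * k m + 1) ^ 2 : ℕ) : ℝ) ≤ ((9 * (B / m) : ℕ) : ℝ) := by
          exact_mod_cast e2.trans (Nat.mul_le_mul_left 9 e3)
      _ = 9 * ((B / m : ℕ) : ℝ) := by push_cast; ring
      _ ≤ 9 * ((B : ℝ) / m) := by gcongr
      _ = _ := by ring
  have h4 : ((DD B).card : ℝ) ≤ 2 * ∑ m ∈ Finset.Icc 1 B, (((2 * k m + 1) ^ 2 : ℕ) : ℝ) := by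
    exact_mod_cast h1.trans h2
  refine h4.trans ?_
  have h5 : ∑ m ∈ Finset.Icc 1 B, (1 / (m : ℝ)) ≤ 1 + Real.log B := by
    have := harmonic_le_one_add_log B
    rw [harmonic_eq_sum_Icc] at this
    push_cast at this
    simpa [one_div] using this
  calc 2 * ∑ m ∈ Finset.Icc 1 B, (((2 * k m + 1) ^ 2 : ℕ) : ℝ)
      ≤ 2 * ∑ m ∈ Finset.Icc 1 B, 9 * B * (1 / (m : ℝ)) := by
        gcongr with m hm
        exact h3 m hm
    _ = 18 * B * ∑ m ∈ Finset.Icc 1 B, (1 / (m : ℝ)) := by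
        rw [← Finset.mul_sum]; ring
    _ ≤ _ := by gcongr

end Pool.Agent.H427.AS
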