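import Pool.Agent.H427.AS.Msq
import Pool.Agent.H427.AS.Sqr

/-!
# The number of the pairs with small coordinates, with the relations of the monomials
-/

set_option autoImplicit false
set_option linter.all false

namespace Pool.Agent.H427.AS

open Finset MvPolynomial

variable {r d : ℕ}

/-- the monomial `x_l ^ 2 x_i ^ d` -/
def mon2 (d : ℕ) (l i : Fin 4) : Sym (Fin 4) (d + 2) := l ::ₛ l ::ₛ Sym.replicate d i

theorem mon2_prod {p : ℕ} [Fact p.Prime] (l i : Fin 4) (v : Fin 4 → ZMod p) :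
    (((mon2 d l i : Sym (Fin 4) (d + 2)) : Multiset (Fin 4)).map v).prod = v l * (v l * v i ^ d) := by
  unfold mon2
  rw [Sym.coe_cons, Multiset.map_cons, Multiset.prod_cons, Sym.coe_cons, Multiset.map_cons, Multiset.prod_cons,
    Sym.coe_replicate, Multiset.map_replicate, Multiset.prod_replicate]

/-- the relation of the coordinates -/
theorem vec_rel {p : ℕ} [Fact p.Prime] (Q : Fin r → MvPolynomial (Fin 4) ℤ) (τ : ZMod p × (Fin 4 → ZMod p))
    (j : Fin r) (i l : Fin 4) :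
    vec (gg Q (d + 2) p) τ (j, mon (d + 1) i i) * vec (gg Q (d + 2) p) τ (j, mon2 d l i)
      = vec (gg Q (d + 2) p) τ (j, mon (d + 1) l i) ^ 2 := by
  have h1 : gg Q (d + 2) p τ.2 (j, mon (d + 1) i i) = aeval τ.2 (Q j) * (τ.2 i * τ.2 i ^ (d + 1)) := by
    unfold gg
    simp only
    rw [mon_prod]
  have h2 : gg Q (d + 2) p τ.2 (j, mon (d + 1) l i) = aeval τ.2 (Q j) * (τ.2 l * τ.2 i ^ (d + 1)) := by
    unfold gg
    simp only
    rw [mon_prod]
  have h3 : gg Q (d + 2) p τ.2 (j, mon2 d l i) = aeval τ.2 (Q j) * (τ.2 l * (τ.2 l * τ.2 i ^ d)) := by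
    unfold gg
    simp only
    rw [mon2_prod]
  unfold vec
  rw [h1, h2, h3]
  ring

/-- the coordinates are small and satisfy the relations -/
def Small {p : ℕ} (N s : ℕ) (u : Fin r × Sym (Fin 4) (d + 2) → ZMod p) (ξ : Fin r × Sym (Fin 4) (d + 2) → ℤ) : Prop :=
  (∀ i, 8 * N * |ξ i| < p * s ∧ (ξ i : ZMod p) = (s : ZMod p) * u i) ∧
  ∀ (j : Fin r) (i l : Fin 4), ξ (j, mon (d + 1) i i) * ξ (j, mon2 d l i) = ξ (j, mon (d + 1) l i) ^ 2

theorem fin4 (i l : Fin 4) : l = i ∨ l = i + 1 ∨ l = i + 2 ∨ l = i + 3 := by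
  revert i l
  decide

open Classical in
theorem count_small {p : ℕ} [Fact p.Prime] (N s : ℕ) (hN : 0 < N) (hs : s.Prime) (hps : p ≠ s)
    (Q : Fin r → MvPolynomial (Fin 4) ℤ) :
    ((TT (gg Q (d + 2) p)).filter (fun τ => ∃ ξ, Small N s (vec (gg Q (d + 2) p) τ) ξ)).card
      ≤ (r * 4) * ((p - 1) * ((DD (p * s / (8 * N))).card * (2 * (p * s / (8 * N)) + 1) ^ 2)) := by
  have hp : p.Prime := Fact.out
  have hs0 : (s : ZMod p) ≠ 0 := by
    intro h
    rw [ZMod.natCast_eq_zero_iff] at h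
    exact hps ((Nat.prime_dvd_prime_iff_eq hp hs).1 h)
  set g := gg Q (d + 2) p with hg
  set B := p * s / (8 * N) with hB
  have hle : ∀ z : ℤ, 8 * N * |z| < p * s → |z| ≤ B := by
    intro z hz
    have h3 : z.natAbs * (8 * N) ≤ p * s := by
      have : (z.natAbs : ℤ) * (8 * N) ≤ p * s := by
        rw [Int.natCast_natAbs]; linarith
      exact_mod_cast this
    have h4 : z.natAbs ≤ p * s / (8 * N) := (Nat.le_div_iff_mul_le (by positivity)).2 h3
    rw [Int.abs_eq_natAbs]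
    exact_mod_cast h4
  have hsub : (TT g).filter (fun τ => ∃ ξ, Small N s (vec g τ) ξ)
      ⊆ (Finset.univ : Finset (Fin r × Fin 4)).biUnion (fun ji =>
        (TT g).filter (fun τ => (∃ ξ, Small N s (vec g τ) ξ) ∧ aeval τ.2 (Q ji.1) ≠ 0 ∧ τ.2 ji.2 ≠ 0)) := by
    intro τ hτ
    rw [Finset.mem_filter] at hτ
    have h1 := (mem_TT g τ).1 hτ.1
    obtain ⟨i, hi⟩ : ∃ i, τ.2 i ≠ 0 := by
      by_contra hh
      push Not at hh
      exact h1.2.1 (funext hh)
    obtain ⟨j, hj⟩ : ∃ j, aeval τ.2 (Q j) ≠ 0 := by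
      by_contra hh
      push Not at hh
      exact h1.2.2 ((gg_zero Q τ.2 h1.2.1).2 hh)
    rw [Finset.mem_biUnion]
    exact ⟨(j, i), Finset.mem_univ _, Finset.mem_filter.2 ⟨hτ.1, hτ.2, hj, hi⟩⟩
  have hone : ∀ ji : Fin r × Fin 4,
      ((TT g).filter (fun τ => (∃ ξ, Small N s (vec g τ) ξ) ∧ aeval τ.2 (Q ji.1) ≠ 0 ∧ τ.2 ji.2 ≠ 0)).card
        ≤ (p - 1) * ((DD B).card * (2 * B + 1) ^ 2) := by
    rintro ⟨j, i⟩
    have key : ∀ τ ∈ (TT g).filter (fun τ => (∃ ξ, Small N s (vec g τ) ξ) ∧ aeval τ.2 (Q j) ≠ 0 ∧ τ.2 i ≠ 0),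
        ∃ ξ, Small N s (vec g τ) ξ := fun τ hτ => (Finset.mem_filter.1 hτ).2.1
    choose! ξ hξ using key
    have h2 : ((TT g).filter (fun τ => (∃ ξ, Small N s (vec g τ) ξ) ∧ aeval τ.2 (Q j) ≠ 0 ∧ τ.2 i ≠ 0)).card
        ≤ ((Finset.univ.erase (0 : ZMod p)) ×ˢ ((DD B) ×ˢ
          ((Finset.Icc (-(B : ℤ)) B) ×ˢ (Finset.Icc (-(B : ℤ)) B)))).card := by
      apply Finset.card_le_card_of_injOn (fun τ => (τ.2 i, ((ξ τ (j, mon (d + 1) i i), ξ τ (j, mon (d + 1) (i + 1) i)),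
        (ξ τ (j, mon (d + 1) (i + 2) i), ξ τ (j, mon (d + 1) (i + 3) i)))))
      · intro τ hτ
        have h3 := Finset.mem_filter.1 hτ
        have h4 := hξ τ hτ
        have h5 := (mem_TT g τ).1 h3.1
        have hbd : ∀ a, |ξ τ a| ≤ B := fun a => hle _ (h4.1 a).1
        refine Finset.mem_product.2 ⟨Finset.mem_erase.2 ⟨h3.2.2.2, Finset.mem_univ _⟩, ?_⟩
        refine Finset.mem_product.2 ⟨?_, Finset.mem_product.2 ⟨?_, ?_⟩⟩
        · rw [mem_DD]
          refine ⟨⟨hbd _, hbd _⟩, ?_, ξ τ (j, mon2 d (i + 1) i), hbd _, h4.2 j i (i + 1)⟩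
          intro h0
          have h6 := (h4.1 (j, mon (d + 1) i i)).2
          simp only at h0
          rw [h0, Int.cast_zero] at h6
          have h7 : vec g τ (j, mon (d + 1) i i) = 0 := by
            rcases mul_eq_zero.1 h6.symm with h | h
            · exact absurd h hs0
            · exact h
          simp only [vec, hg, gg] at h7
          rw [mon_prod] at h7
          exact (mul_ne_zero h5.1 (mul_ne_zero h3.2.2.1 (mul_ne_zero h3.2.2.2 (pow_ne_zero _ h3.2.2.2)))) h7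
        · rw [Finset.mem_Icc, ← abs_le]; exact hbd _
        · rw [Finset.mem_Icc, ← abs_le]; exact hbd _
      · intro τ hτ τ' hτ' he
        have c1 := Finset.mem_filter.1 hτ
        have c2 := Finset.mem_filter.1 hτ'
        have c3 := (mem_TT g τ).1 c1.1
        have c4 := (mem_TT g τ').1 c2.1
        have x1 := hξ τ hτ
        have x2 := hξ τ' hτ'
        simp only [Prod.mk.injEq] at he
        obtain ⟨e1, ⟨y0, y1⟩, y2, y3⟩ := he
        have hall : ∀ l, ξ τ (j, mon (d + 1) l i) = ξ τ' (j, mon (d + 1) l i) := by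
          intro l
          rcases fin4 i l with h | h | h | h <;> rw [h] <;> assumption
        have e3 : ∀ l, τ.1 * (aeval τ.2 (Q j) * (τ.2 l * τ.2 i ^ (d + 1)))
            = τ'.1 * (aeval τ'.2 (Q j) * (τ'.2 l * τ'.2 i ^ (d + 1))) := by
          intro l
          have z1 := (x1.1 (j, mon (d + 1) l i)).2
          have z2 := (x2.1 (j, mon (d + 1) l i)).2
          rw [hall l, z2] at z1
          have z3 := mul_left_cancel₀ hs0 z1
          simp only [vec, hg, gg] at z3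
          rw [mon_prod, mon_prod] at z3
          exact z3.symm
        have n1 : τ'.2 i ≠ 0 := c2.2.2.2
        have n2 : aeval τ.2 (Q j) ≠ 0 := c1.2.2.1
        have n3 : aeval τ'.2 (Q j) ≠ 0 := c2.2.2.1
        have e4 := e3 i
        rw [e1] at e4
        have e5 : τ.1 * aeval τ.2 (Q j) = τ'.1 * aeval τ'.2 (Q j) := by
          have : (τ.1 * aeval τ.2 (Q j)) * (τ'.2 i * τ'.2 i ^ (d + 1)) = (τ'.1 * aeval τ'.2 (Q j)) * (τ'.2 i * τ'.2 i ^ (d + 1)) := by
            linear_combination e4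
          exact mul_right_cancel₀ (mul_ne_zero n1 (pow_ne_zero _ n1)) this
        have e6 : τ.2 = τ'.2 := by
          funext l
          have e7 := e3 l
          rw [e1] at e7
          have : τ.2 l * ((τ'.1 * aeval τ'.2 (Q j)) * τ'.2 i ^ (d + 1)) = τ'.2 l * ((τ'.1 * aeval τ'.2 (Q j)) * τ'.2 i ^ (d + 1)) := by
            linear_combination e7 - (τ.2 l * τ'.2 i ^ (d + 1)) * e5
          exact mul_right_cancel₀ (mul_ne_zero (mul_ne_zero c4.1 n3) (pow_ne_zero _ n1)) this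
        rw [e6] at e5
        exact Prod.ext (mul_right_cancel₀ n3 e5) e6
    refine h2.trans (le_of_eq ?_)
    rw [Finset.card_product, Finset.card_product, Finset.card_product,
      Finset.card_erase_of_mem (Finset.mem_univ _), Finset.card_univ, ZMod.card, Int.card_Icc]
    have : ((B : ℤ) + 1 - -(B : ℤ)).toNat = 2 * B + 1 := by omega
    rw [this]; ring
  calc ((TT g).filter (fun τ => ∃ ξ, Small N s (vec g τ) ξ)).card
      ≤ ∑ ji : Fin r × Fin 4, ((TT g).filter (fun τ => (∃ ξ, Small N s (vec g τ) ξ) ∧ aeval τ.2 (Q ji.1) ≠ 0 ∧ τ.2 ji.2 ≠ 0)).card :=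
        (Finset.card_le_card hsub).trans Finset.card_biUnion_le
    _ ≤ ∑ ji : Fin r × Fin 4, (p - 1) * ((DD B).card * (2 * B + 1) ^ 2) := Finset.sum_le_sum (fun ji _ => hone ji)
    _ = _ := by simp

end Pool.Agent.H427.AS
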