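import Mathlib

/-!
# Zeros of the forms in four variables over a finite field
-/

set_option autoImplicit false
set_option linter.all false

namespace Pool.Agent.H427.AS

open Finset

variable {d : ℕ}

/-- the value at `v` of the form with the coefficients `c` -/
def ev {K : Type} [CommSemiring K] (c : Sym (Fin 4) d → K) (v : Fin 4 → K) : K :=
  ∑ m : Sym (Fin 4) d, c m * ((m : Multiset (Fin 4)).map v).prod

variable {K : Type} [Field K]

/-- the `d`-th power of a linear form -/
theorem exists_pow (l : Fin 4 → K) :
    ∃ c : Sym (Fin 4) d → K, ∀ v : Fin 4 → K, ev c v = (∑ i, l i * v i) ^ d := by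
  classical
  refine ⟨fun m => ((m : Multiset (Fin 4)).countPerms : K) * ((m : Multiset (Fin 4)).map l).prod, fun v => ?_⟩
  rw [Finset.sum_pow, Finset.sym_univ]
  unfold ev
  apply Finset.sum_congr rfl
  intro m _
  rw [Multiset.prod_map_mul, mul_assoc]
  rfl

/-- evaluation at one point -/
def ev1 (v : Fin 4 → K) : (Sym (Fin 4) d → K) →+ K where
  toFun c := ev c v
  map_zero' := by simp [ev]
  map_add' a b := by simp [ev, add_mul, Finset.sum_add_distrib]

/-- evaluation at two points -/
def ev2 (v w : Fin 4 → K) : (Sym (Fin 4) d → K) →+ K × K := (ev1 v).prod (ev1 w)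

theorem ev_smul (t : K) (c : Sym (Fin 4) d → K) (v : Fin 4 → K) :
    ev (fun m => t * c m) v = t * ev c v := by
  unfold ev
  rw [Finset.mul_sum]
  apply Finset.sum_congr rfl
  intro m _
  ring

theorem ev1_surj (hd : d ≠ 0) (v : Fin 4 → K) (hv : v ≠ 0) : Function.Surjective (ev1 (d := d) v) := by
  obtain ⟨i, hi⟩ : ∃ i, v i ≠ 0 := by
    by_contra h
    push Not at h
    exact hv (funext h)
  obtain ⟨c, hc⟩ := exists_pow (d := d) (fun j => if j = i then (v i)⁻¹ else 0)
  intro t
  refine ⟨fun m => t * c m, ?_⟩
  show ev _ _ = _
  rw [ev_smul, hc]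
  simp [hi]

theorem ev2_surj (hd : d ≠ 0) (v w : Fin 4 → K) (hv : v ≠ 0) (hw : ∀ t : K, w ≠ fun i => t * v i) :
    Function.Surjective (ev2 (d := d) v w) := by
  classical
  obtain ⟨i, hi⟩ : ∃ i, v i ≠ 0 := by
    by_contra h
    push Not at h
    exact hv (funext h)
  obtain ⟨j, hj⟩ : ∃ j, v i * w j - v j * w i ≠ 0 := by
    by_contra h
    push Not at h
    apply hw (w i / v i)
    funext j
    have := h j
    field_simp
    linear_combination this
  have hij : i ≠ j := by
    rintro rfl
    exact hj (by ring)
  set D := v i * w j - v j * w i with hD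
  obtain ⟨c, hc⟩ := exists_pow (d := d) (fun k => if k = i then w j / D else if k = j then - w i / D else 0)
  obtain ⟨e, he⟩ := exists_pow (d := d) (fun k => if k = i then - v j / D else if k = j then v i / D else 0)
  have hs : ∀ (a b : K) (x : Fin 4 → K), (∑ k, (if k = i then a else if k = j then b else 0) * x k)
      = a * x i + b * x j := by
    intro a b x
    have : ∀ k, (if k = i then a else if k = j then b else 0) * x k
        = (if k = i then a * x k else 0) + (if k = j then b * x k else 0) := by
      intro k
      by_cases h1 : k = i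
      · have h2 : k ≠ j := fun h => hij (h1.symm.trans h)
        simp [h1, hij]
      · by_cases h2 : k = j
        · simp [h2, hij.symm]
        · simp [h1, h2]
    simp only [this, Finset.sum_add_distrib, Finset.sum_ite_eq', Finset.mem_univ, if_true]
  rintro ⟨s, t⟩
  refine ⟨fun m => s * c m + t * e m, ?_⟩
  have hadd : ∀ x : Fin 4 → K, ev (fun m => s * c m + t * e m) x = s * ev c x + t * ev e x := by
    intro x
    rw [← ev_smul, ← ev_smul]
    exact (ev1 (d := d) x).map_add (fun m => s * c m) (fun m => t * e m)
  have h1 : w j / D * v i + - w i / D * v j = 1 := by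
    have : w j / D * v i + - w i / D * v j = (v i * w j - v j * w i) / D := by ring
    rw [this, ← hD, div_self hj]
  have h2 : w j / D * w i + - w i / D * w j = 0 := by ring
  have h3 : - v j / D * v i + v i / D * v j = 0 := by ring
  have h4 : - v j / D * w i + v i / D * w j = 1 := by
    have : - v j / D * w i + v i / D * w j = (v i * w j - v j * w i) / D := by ring
    rw [this, ← hD, div_self hj]
  apply Prod.ext
  · show ev _ v = s
    rw [hadd, hc, he, hs, hs, h1, h3, one_pow, zero_pow hd]
    ring
  · show ev _ w = t
    rw [hadd, hc, he, hs, hs, h2, h4, one_pow, zero_pow hd]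
    ring

theorem card_ker {V W : Type} [AddCommGroup V] [AddCommGroup W] [Fintype V] [Fintype W] [DecidableEq W]
    (f : V →+ W) (hf : Function.Surjective f) :
    (Finset.univ.filter (fun g => f g = 0)).card * Fintype.card W = Fintype.card V := by
  classical
  have h1 : ∀ y : W, (Finset.univ.filter (fun g => f g = y)).card
      = (Finset.univ.filter (fun g => f g = 0)).card := by
    intro y
    exact AddMonoidHom.card_fiber_eq_of_mem_range f ⟨_, (hf y).choose_spec⟩ ⟨0, map_zero f⟩
  rw [← Finset.card_univ (α := V),
    Finset.card_eq_sum_card_fiberwise (f := f) (s := Finset.univ) (t := Finset.univ) (fun _ _ => by simp)]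
  rw [Finset.sum_congr rfl (fun y _ => h1 y)]
  simp [mul_comm]

end Pool.Agent.H427.AS
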